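import Pool.Agent.Lib.MP_1d78e3_lc.Model

set_option autoImplicit false
set_option linter.unusedSectionVars false

/-!
# Completeness of the reduction
-/

namespace Pool.Agent.Lib.MP_1d78e3_lc

open Finset Relation Lab

namespace Chain

variable {Q : Type} [Fintype Q] {T : ℕ} {q : ℕ → Q} {x : ℕ → Fin 4 → ℝ}
  (hx : ∀ t ≤ T, ∀ i, 0 < x t i ∧ x t i < 1) {enc : Lab Q → ℕ}
  (henc : Function.Injective enc)

include henc

omit [Fintype Q] in
lemma HH_mem {B : Set (Lab Q)} {s : St T} (h : label T q s ∈ B) :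
    (chain T q x hx enc).HH enc B s = 1 := by
  unfold MarkovChain.HH
  exact (chain T q x hx enc).reach_of_mem ⟨_, h, labOf_chain hx henc s⟩

omit [Fintype Q] in
lemma not_mem_st {B : Set (Lab Q)} {s : St T} (h : label T q s ∉ B) :
    s ∉ {u | ∃ L ∈ B, (chain T q x hx enc).labOf enc u = some L} := by
  rintro ⟨L, hL, hl⟩
  rw [labOf_chain_iff hx henc] at hl
  exact h (hl ▸ hL)

omit [Fintype Q] in
lemma HH_abs {B : Set (Lab Q)} {s : St T} (h : label T q s ∉ B)
    (hs : (chain T q x hx enc).P s s = 1) : (chain T q x hx enc).HH enc B s = 0 := by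
  unfold MarkovChain.HH
  exact (chain T q x hx enc).reach_absorbing (not_mem_st hx henc h) hs

omit henc [Fintype Q] in
lemma P_leaf (a : Fin (T + 1) × Z) : (chain T q x hx enc).P (Sum.inr a) (Sum.inr a) = 1 := by
  change (if a = a then (1 : ℝ) else 0) = 1
  rw [if_pos rfl]

omit henc [Fintype Q] in
lemma P_last : (chain T q x hx enc).P (Sum.inl ⟨T + 1, by omega⟩) (Sum.inl ⟨T + 1, by omega⟩) = 1 := by
  change (if T + 1 = T + 1 then (if (⟨T + 1, by omega⟩ : Fin (T + 2)) = ⟨T + 1, by omega⟩ then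
    (1 : ℝ) else 0) else _) = 1
  rw [if_pos rfl, if_pos rfl]

open Classical in
/-- mass of the leaves at stage node `t` with label in `B` -/
noncomputable def lm (x : ℕ → Fin 4 → ℝ) (t : ℕ) (B : Set (Lab Q)) : ℝ :=
  ∑ z : Z, if (dz t z : Lab Q) ∈ B then mz x t z else 0

variable (q) in
/-- reachability from stage node `t` -/
noncomputable def hv (B : Set (Lab Q)) (enc : Lab Q → ℕ) (t : ℕ) (ht : t < T + 2) : ℝ :=
  (chain T q x hx enc).HH enc B (Sum.inl ⟨t, ht⟩)

omit [Fintype Q] in
lemma hv_mem {B : Set (Lab Q)} {t : ℕ} (ht : t < T + 2) (h : vl T q t ∈ B) :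
    hv q hx B enc t ht = 1 := HH_mem hx henc h

omit [Fintype Q] in
lemma hv_last {B : Set (Lab Q)} (h : vl T q (T + 1) ∉ B) :
    hv q hx B enc (T + 1) (by omega) = 0 :=
  HH_abs hx henc (s := Sum.inl ⟨T + 1, by omega⟩) h (P_last hx)

omit [Fintype Q] in
lemma hv_step {B : Set (Lab Q)} {t : ℕ} (ht : t ≤ T) (h : vl T q t ∉ B) :
    hv q hx B enc t (by omega) = 1 / 2 * hv q hx B enc (t + 1) (by omega) + lm x t B := by
  classical
  have h1 : hv q hx B enc t (by omega) = _ :=
    (chain T q x hx enc).reach_step (not_mem_st hx henc (s := Sum.inl ⟨t, by omega⟩) h)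
  rw [h1, Fintype.sum_sum_type]
  have e1 : ∑ u : Fin (T + 2), (chain T q x hx enc).P (Sum.inl ⟨t, by omega⟩) (Sum.inl u) *
      (chain T q x hx enc).reach {u | ∃ L ∈ B, (chain T q x hx enc).labOf enc u = some L}
        (Sum.inl u) = 1 / 2 * hv q hx B enc (t + 1) (by omega) := by
    rw [Finset.sum_eq_single (⟨t + 1, by omega⟩ : Fin (T + 2))]
    · have : (chain T q x hx enc).P (Sum.inl ⟨t, by omega⟩) (Sum.inl ⟨t + 1, by omega⟩) =
          1 / 2 := by
        change (if t = T + 1 then _ else (if t + 1 = t + 1 then (1 / 2 : ℝ) else 0)) = 1 / 2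
        rw [if_neg (by omega), if_pos rfl]
      rw [this]
      rfl
    · intro t' _ hne
      have : (chain T q x hx enc).P (Sum.inl ⟨t, by omega⟩) (Sum.inl t') = 0 := by
        change (if t = T + 1 then _ else (if (t' : ℕ) = t + 1 then (1 / 2 : ℝ) else 0)) = 0
        rw [if_neg (by omega), if_neg]
        intro h2
        exact hne (Fin.ext h2)
      rw [this, zero_mul]
    · intro h2
      exact absurd (Finset.mem_univ _) h2
  have e2 : ∑ u : Fin (T + 1) × Z, (chain T q x hx enc).P (Sum.inl ⟨t, by omega⟩) (Sum.inr u) *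
      (chain T q x hx enc).reach {u | ∃ L ∈ B, (chain T q x hx enc).labOf enc u = some L}
        (Sum.inr u) = lm x t B := by
    rw [Fintype.sum_prod_type, Finset.sum_eq_single (⟨t, by omega⟩ : Fin (T + 1))]
    · unfold lm
      refine Finset.sum_congr rfl fun z _ => ?_
      have h3 : (chain T q x hx enc).P (Sum.inl ⟨t, by omega⟩) (Sum.inr (⟨t, by omega⟩, z)) =
          mz x t z := by
        change (if t = t then mz x t z else 0) = _
        rw [if_pos rfl]
      rw [h3]
      by_cases h4 : (dz t z : Lab Q) ∈ B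
      · rw [if_pos h4]
        have h5 := HH_mem (q := q) hx henc (B := B) (s := Sum.inr (⟨t, by omega⟩, z)) h4
        unfold MarkovChain.HH at h5
        rw [h5, mul_one]
      · rw [if_neg h4]
        have h5 := HH_abs (q := q) hx henc (B := B) (s := Sum.inr (⟨t, by omega⟩, z)) h4 (P_leaf hx _)
        unfold MarkovChain.HH at h5
        rw [h5, mul_zero]
    · intro t' _ hne
      refine Finset.sum_eq_zero fun z _ => ?_
      have : (chain T q x hx enc).P (Sum.inl ⟨t, by omega⟩) (Sum.inr (t', z)) = 0 := by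
        change (if (t' : ℕ) = t then mz x t z else 0) = 0
        rw [if_neg]
        intro h2
        exact hne (Fin.ext h2)
      rw [this, zero_mul]
    · intro h2
      exact absurd (Finset.mem_univ _) h2
  rw [e1, e2]

/-- mass of a label at stage node `t` -/
noncomputable def mt (x : ℕ → Fin 4 → ℝ) (t : ℕ) : Lab Q → ℝ
  | V _ _ => 0
  | D j i y n r => if j = (t : ZMod 3) then mz x t (i, y, n, r) else 0

omit henc [Fintype Q] in
lemma mt_dz (t : ℕ) (z : Z) : mt x t (dz t z : Lab Q) = mz x t z := by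
  unfold dz mt
  simp only [if_true]

omit henc [Fintype Q] in
lemma mt_eq_zero {t : ℕ} {L : Lab Q} (h : ∀ z, L ≠ dz t z) : mt x t L = 0 := by
  cases L with
  | V j q => rfl
  | D j i y n r =>
    unfold mt
    simp only
    rw [if_neg]
    rintro rfl
    exact h (i, y, n, r) rfl

omit henc [Fintype Q] in
lemma dz_inj (t : ℕ) : Function.Injective (dz t : Z → Lab Q) := by
  rintro ⟨i, y, n, r⟩ ⟨i', y', n', r'⟩ h
  unfold dz at h
  simp only [D.injEq, true_and] at h
  obtain ⟨h1, h2, h3, h4⟩ := h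
  subst h1; subst h2; subst h3; subst h4; rfl

omit henc [Fintype Q] in
lemma lm_eq {t : ℕ} {B : Set (Lab Q)} {F : Finset (Lab Q)} (h : ∀ z, (dz t z : Lab Q) ∈ B ↔ dz t z ∈ F) :
    lm x t B = ∑ L ∈ F, mt x t L := by
  classical
  unfold lm
  have h1 : ∑ L ∈ F, mt x t L = ∑ L ∈ F.filter (fun L => ∃ z, L = dz t z), mt x t L := by
    rw [Finset.sum_filter]
    refine Finset.sum_congr rfl fun L _ => ?_
    split_ifs with h2
    · rfl
    · exact mt_eq_zero fun z hz => h2 ⟨z, hz⟩
  have h2 : F.filter (fun L => ∃ z, L = dz t z) =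
      (Finset.univ.filter fun z : Z => (dz t z : Lab Q) ∈ F).map ⟨dz t, dz_inj t⟩ := by
    ext L
    simp only [Finset.mem_filter, Finset.mem_map, Finset.mem_univ, true_and,
      Function.Embedding.coeFn_mk]
    constructor
    · rintro ⟨h3, z, rfl⟩
      exact ⟨z, h3, rfl⟩
    · rintro ⟨z, h3, rfl⟩
      exact ⟨h3, z, rfl⟩
  rw [h1, h2, Finset.sum_map, Finset.sum_filter]
  refine Finset.sum_congr rfl fun z _ => ?_
  simp only [Function.Embedding.coeFn_mk, mt_dz, h z]

omit henc [Fintype Q] in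
lemma lm_zero {t : ℕ} {B : Set (Lab Q)} (h : ∀ z, (dz t z : Lab Q) ∉ B) : lm x t B = 0 := by
  rw [lm_eq (F := ∅) (fun z => by simp [h z])]
  simp

omit henc [Fintype Q] in
lemma lm_full {t : ℕ} {B : Set (Lab Q)} (h : ∀ z, (dz t z : Lab Q) ∈ B) : lm x t B = 1 / 2 := by
  unfold lm
  simp only [h, if_true]
  exact sum_mz x t

omit [Fintype Q] in
lemma hv_one {B : Set (Lab Q)} (F : Finset (Lab Q)) {t : ℕ} (ht : t ≤ T) (h0 : vl T q t ∉ B)
    (h1 : vl T q (t + 1) ∈ B) (hF : ∀ z, (dz t z : Lab Q) ∈ B ↔ dz t z ∈ F) :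
    hv q hx B enc t (by omega) = 1 / 2 + ∑ L ∈ F, mt x t L := by
  rw [hv_step hx henc ht h0, hv_mem hx henc (by omega) h1, lm_eq hF]
  ring

omit [Fintype Q] in
lemma hv_two {B : Set (Lab Q)} (F : Finset (Lab Q)) {t : ℕ} (ht : t < T) (h0 : vl T q t ∉ B)
    (h1 : vl T q (t + 1) ∉ B) (h2 : vl T q (t + 2) ∈ B)
    (hF : ∀ z, (dz t z : Lab Q) ∈ B ↔ dz t z ∈ F)
    (hF' : ∀ z, (dz (t + 1) z : Lab Q) ∈ B ↔ dz (t + 1) z ∈ F) :
    hv q hx B enc t (by omega) =
      1 / 4 + 1 / 2 * ∑ L ∈ F, mt x (t + 1) L + ∑ L ∈ F, mt x t L := by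
  rw [hv_step hx henc (by omega) h0, hv_one hx henc F (by omega) h1 h2 hF', lm_eq hF]
  ring

omit henc [Fintype Q] in
lemma vl_mem_VS {t : ℕ} {k : ZMod 3} : vl T q t ∈ (VS k : Set (Lab Q)) ↔ (t : ZMod 3) = k := by
  unfold vl VS
  rw [Set.mem_ofPred_eq]
  constructor
  · rintro ⟨q', h⟩
    injection h
  · rintro rfl
    exact ⟨_, rfl⟩

omit henc [Fintype Q] in
lemma vl_mem_DS {t : ℕ} {k : ZMod 3} : vl T q t ∉ (DS k : Set (Lab Q)) := V_not_mem_DS

omit henc [Fintype Q] in
lemma vl_ne_D {t : ℕ} {j : ZMod 3} {i : Fin 4} {y n : Bool} {r : Fin 50} :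
    vl T q t ≠ (D j i y n r : Lab Q) := by
  unfold vl
  intro h
  cases h

omit henc [Fintype Q] in
lemma vl_not_cop {t : ℕ} {j : ZMod 3} {i : Fin 4} {y n : Bool} {m : ℕ} :
    vl T q t ∉ (cop j i y n m : Finset (Lab Q)) := by
  rw [mem_cop]
  rintro ⟨r, _, h⟩
  exact vl_ne_D h

omit henc [Fintype Q] in
lemma dz_not_VS {t : ℕ} {k : ZMod 3} {z : Z} : (dz t z : Lab Q) ∉ (VS k : Set (Lab Q)) :=
  D_not_mem_VS

omit henc [Fintype Q] in
lemma dz_DS {t : ℕ} {z : Z} : (dz t z : Lab Q) ∈ (DS (t : ZMod 3) : Set (Lab Q)) :=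
  ⟨_, _, _, _, rfl⟩

omit henc [Fintype Q] in
lemma mt_D (t : ℕ) (i : Fin 4) (y n : Bool) (r : Fin 50) :
    mt x t (D (t : ZMod 3) i y n r : Lab Q) = mz x t (i, y, n, r) := by
  unfold mt
  simp only [if_true]

omit henc [Fintype Q] in
lemma mt_D_ne (t : ℕ) {j : ZMod 3} (hj : j ≠ t) (i : Fin 4) (y n : Bool) (r : Fin 50) :
    mt x t (D j i y n r : Lab Q) = 0 := by
  unfold mt
  simp only
  rw [if_neg hj]

omit [Fintype Q] in
/-- the base constraints hold -/
lemma base_chain {t : ℕ} (ht : t ≤ T) :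
    BaseH (fun B => (chain T q x hx enc).HH enc B (Sum.inl ⟨t, by omega⟩)) (t : ZMod 3) := by
  classical
  have e1 : ((t + 1 : ℕ) : ZMod 3) = (t : ZMod 3) + 1 := by push_cast; ring
  have e2 : ((t + 2 : ℕ) : ZMod 3) = (t : ZMod 3) + 2 := by push_cast; ring
  have n1 : vl T q t ∉ (VS ((t : ZMod 3) + 1) : Set (Lab Q)) := by
    rw [vl_mem_VS]; exact (stage_ne1 _).symm
  have n2 : vl T q t ∉ (VS ((t : ZMod 3) + 2) : Set (Lab Q)) := by
    rw [vl_mem_VS]; exact (stage_ne2 _).symm
  have n3 : vl T q (t + 1) ∉ (VS ((t : ZMod 3) + 2) : Set (Lab Q)) := by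
    rw [vl_mem_VS, e1]; exact (stage_ne3 _).symm
  have m1 : vl T q (t + 1) ∈ (VS ((t : ZMod 3) + 1) : Set (Lab Q)) := by
    rw [vl_mem_VS, e1]
  have m2 : vl T q (t + 2) ∈ (VS ((t : ZMod 3) + 2) : Set (Lab Q)) := by
    rw [vl_mem_VS, e2]
  refine ⟨?_, ?_, ?_, ?_⟩
  · change hv q hx _ enc t _ = _
    rw [hv_one hx henc ∅ ht n1 m1 (fun z => by simp [dz_not_VS])]
    simp
  · change hv q hx _ enc t _ < _
    rcases ht.lt_or_eq with hlt | heq
    · rw [hv_two hx henc ∅ hlt n2 n3 m2 (fun z => by simp [dz_not_VS])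
        (fun z => by simp [dz_not_VS])]
      simp
      norm_num
    · subst heq
      rw [hv_step hx henc le_rfl n2, hv_last hx henc n3, lm_zero (fun z => dz_not_VS)]
      norm_num
  · change hv q hx _ enc t _ = _
    rw [hv_step hx henc ht, hv_mem hx henc (by omega) (Or.inl m1), lm_full]
    · norm_num
    · exact fun z => Or.inr dz_DS
    · rintro (h | h)
      · exact n1 h
      · exact vl_mem_DS h
  · intro i y r r'
    change hv q hx _ enc t _ = _
    rw [hv_one hx henc {D (t : ZMod 3) i y false r, D (t : ZMod 3) i y true r'} ht ?_ (Or.inl m1)]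
    · rw [Finset.sum_pair (by intro h; injection h with _ _ _ h4; cases h4), mt_D, mt_D]
      unfold mz
      simp only [Bool.false_eq_true, if_false, if_true]
      ring
    · intro z
      simp only [Set.mem_union, dz_not_VS, false_or, Set.mem_insert_iff, Set.mem_singleton_iff,
        Finset.mem_insert, Finset.mem_singleton]
    · rintro (h | h | h)
      · exact n1 h
      · exact vl_ne_D h
      · exact vl_ne_D h

omit [Fintype Q] in
/-- the data constraints hold -/
lemma data_chain {t : ℕ} (ht : t ≤ T) :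
    DataH (fun B => (chain T q x hx enc).HH enc B (Sum.inl ⟨t, by omega⟩)) (t : ZMod 3) (x t) := by
  classical
  have e1 : ((t + 1 : ℕ) : ZMod 3) = (t : ZMod 3) + 1 := by push_cast; ring
  have n1 : vl T q t ∉ (VS ((t : ZMod 3) + 1) : Set (Lab Q)) := by
    rw [vl_mem_VS]; exact (stage_ne1 _).symm
  have m1 : vl T q (t + 1) ∈ (VS ((t : ZMod 3) + 1) : Set (Lab Q)) := by
    rw [vl_mem_VS, e1]
  have key : ∀ (i : Fin 4) (y : Bool), hv q hx (VS ((t : ZMod 3) + 1) ∪
      ({D (t : ZMod 3) i y false 0} : Set (Lab Q))) enc t (by omega) = 1 / 2 +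
      mz x t (i, y, false, 0) := by
    intro i y
    rw [hv_one hx henc {D (t : ZMod 3) i y false 0} ht ?_ (Or.inl m1)]
    · rw [Finset.sum_singleton, mt_D]
    · intro z
      simp only [Set.mem_union, dz_not_VS, false_or, Set.mem_singleton_iff,
        Finset.mem_singleton]
    · rintro (h | h)
      · exact n1 h
      · exact vl_ne_D h
  refine ⟨fun i => (key i false).trans ?_, fun i => (key i true).trans ?_⟩
  · unfold mz
    simp only [Bool.false_eq_true, if_false]
  · unfold mz
    simp only [Bool.false_eq_true, if_false, if_true]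

omit henc [Fintype Q] in
lemma disj_own_nxt {j : ZMod 3} {i i' : Fin 4} {y n y' n' : Bool} {m m' : ℕ} :
    Disjoint (cop j i y n m : Finset (Lab Q)) (cop (j + 1) i' y' n' m') := by
  rw [Finset.disjoint_left]
  intro L hL hL'
  obtain ⟨r, _, rfl⟩ := mem_cop.1 hL
  obtain ⟨r', _, h⟩ := mem_cop.1 hL'
  injection h with h
  exact stage_ne1 j h.symm

omit [Fintype Q] in
/-- the step constraints hold -/
lemma step_chain {t : ℕ} (ht : t < T) {τ : Trans Q} (hlo : (τ.lo : ℝ) ≤ x t τ.g)
    (hhi : x t τ.g ≤ (τ.hi : ℝ)) (hq : q (t + 1) = τ.tgt)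
    (hxt : x (t + 1) = fun i => (τ.op i).act (x t i)) :
    StepConH (fun B => (chain T q x hx enc).HH enc B (Sum.inl ⟨t, by omega⟩)) (t : ZMod 3) τ := by
  classical
  have hw := w_pos
  have e1 : ((t + 1 : ℕ) : ZMod 3) = (t : ZMod 3) + 1 := by push_cast; ring
  have e2 : ((t + 2 : ℕ) : ZMod 3) = (t : ZMod 3) + 2 := by push_cast; ring
  have n1 : vl T q t ∉ (VS ((t : ZMod 3) + 1) : Set (Lab Q)) := by
    rw [vl_mem_VS]; exact (stage_ne1 _).symm
  have n2 : vl T q t ∉ (VS ((t : ZMod 3) + 2) : Set (Lab Q)) := by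
    rw [vl_mem_VS]; exact (stage_ne2 _).symm
  have n3 : vl T q (t + 1) ∉ (VS ((t : ZMod 3) + 2) : Set (Lab Q)) := by
    rw [vl_mem_VS, e1]; exact (stage_ne3 _).symm
  have m2 : vl T q (t + 2) ∈ (VS ((t : ZMod 3) + 2) : Set (Lab Q)) := by
    rw [vl_mem_VS, e2]
  have m3 : vl T q (t + 1) ∈ (TS ((t : ZMod 3) + 1) τ.tgt : Set (Lab Q)) := by
    unfold vl TS
    rw [if_pos (by omega : t + 1 ≤ T), hq, e1]
    rfl
  have n4 : vl T q t ∉ (TS ((t : ZMod 3) + 1) τ.tgt : Set (Lab Q)) := fun h => n1 (TS_sub _ _ h)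
  have n5 : ∀ s z, (dz s z : Lab Q) ∉ (TS ((t : ZMod 3) + 1) τ.tgt : Set (Lab Q)) :=
    fun s z h => dz_not_VS (TS_sub _ _ h)
  have hd := data_chain hx henc (q := q) (t := t) ht.le
  refine ⟨?_, ?_, ?_, ?_, ?_, ?_, ?_⟩
  · rw [hd.hx τ.g]
    have := mul_le_mul_of_nonneg_left hlo hw.le
    linarith
  · rw [hd.hx τ.g]
    have := mul_le_mul_of_nonneg_left hhi hw.le
    linarith
  · change hv q hx _ enc t _ = _
    rw [hv_one hx henc ∅ ht.le n4 m3 (fun z => by simp [n5])]
    simp
  · change hv q hx _ enc t _ = _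
    rw [hv_step hx henc ht.le, hv_mem hx henc (by omega) (Or.inl m3), lm_full]
    · norm_num
    · exact fun z => Or.inr dz_DS
    · rintro (h | h)
      · exact n4 h
      · exact vl_mem_DS h
  · change hv q hx _ enc t _ = _
    rw [hv_one hx henc ∅ ht.le ?_ (Or.inl m3) (fun z => by simp [n5, dz_not_VS])]
    · simp
    · rintro (h | h)
      · exact n4 h
      · exact n2 h
  · intro i
    change hv q hx _ enc t _ = _
    have hdisj : Disjoint (ownX (t : ZMod 3) i (τ.op i) : Finset (Lab Q))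
        (nxtX ((t : ZMod 3) + 1) i (τ.op i)) := disj_own_nxt
    rw [hv_two hx henc (ownX (t : ZMod 3) i (τ.op i) ∪ nxtX ((t : ZMod 3) + 1) i (τ.op i)) ht
      ?_ ?_ (Or.inl m2)]
    · rw [Finset.sum_union hdisj, Finset.sum_union hdisj]
      have f1 : ∑ L ∈ (ownX (t : ZMod 3) i (τ.op i) : Finset (Lab Q)), mt x (t + 1) L =
          (τ.op i).αX * 0 := sum_cop _ _ _ _ (Op.αX_le _) _ fun r =>
          mt_D_ne _ (by rw [e1]; exact (stage_ne1 _).symm) _ _ _ _
      have f2 : ∑ L ∈ (nxtX ((t : ZMod 3) + 1) i (τ.op i) : Finset (Lab Q)), mt x (t + 1) L =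
          (τ.op i).βX * (w * (1 - x (t + 1) i)) := sum_cop _ _ _ _ (Op.βX_le _) _ fun r => by
          rw [← e1, mt_D]
          unfold mz
          simp only [Bool.false_eq_true, if_false, if_true]
      have f3 : ∑ L ∈ (ownX (t : ZMod 3) i (τ.op i) : Finset (Lab Q)), mt x t L =
          (τ.op i).αX * (w * x t i) := sum_cop _ _ _ _ (Op.αX_le _) _ fun r => by
          rw [mt_D]
          unfold mz
          simp only [Bool.false_eq_true, if_false]
      have f4 : ∑ L ∈ (nxtX ((t : ZMod 3) + 1) i (τ.op i) : Finset (Lab Q)), mt x t L =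
          (τ.op i).βX * 0 := sum_cop _ _ _ _ (Op.βX_le _) _ fun r =>
          mt_D_ne _ (stage_ne1 _) _ _ _ _
      rw [f1, f2, f3, f4, hxt]
      have e3 : (2 : ℝ) * ((τ.op i).αX : ℝ) = ((τ.op i).a : ℝ) * ((τ.op i).βX : ℝ) := by
        have := Op.hX (τ.op i)
        exact_mod_cast this
      unfold cX Op.act
      push_cast
      linear_combination (1 / 2) * (w : ℝ) * x t i * e3
    · intro z
      simp only [Set.mem_union, dz_not_VS, false_or, Finset.mem_union, Finset.mem_coe]
    · intro z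
      simp only [Set.mem_union, dz_not_VS, false_or, Finset.mem_union, Finset.mem_coe]
    · rintro (h | h | h)
      · exact n2 h
      · exact vl_not_cop h
      · exact vl_not_cop h
    · rintro (h | h | h)
      · exact n3 h
      · exact vl_not_cop h
      · exact vl_not_cop h
  · intro i
    change hv q hx _ enc t _ = _
    have hdisj' : Disjoint (ownY (t : ZMod 3) i (τ.op i) : Finset (Lab Q))
        (ownC (t : ZMod 3) i (τ.op i) ∪ nxtY ((t : ZMod 3) + 1) i (τ.op i)) := by
      rw [Finset.disjoint_left]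
      intro L hL hL'
      obtain ⟨r, _, rfl⟩ := mem_cop.1 hL
      rcases Finset.mem_union.1 hL' with hL' | hL'
      · obtain ⟨r', _, h⟩ := mem_cop.1 hL'
        injection h with _ _ h
        exact Bool.noConfusion h
      · obtain ⟨r', _, h⟩ := mem_cop.1 hL'
        injection h with h
        exact stage_ne1 _ h.symm
    have hdisj : Disjoint (ownC (t : ZMod 3) i (τ.op i) : Finset (Lab Q))
        (nxtY ((t : ZMod 3) + 1) i (τ.op i)) := disj_own_nxt
    rw [hv_two hx henc (ownY (t : ZMod 3) i (τ.op i) ∪ (ownC (t : ZMod 3) i (τ.op i) ∪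
      nxtY ((t : ZMod 3) + 1) i (τ.op i))) ht ?_ ?_ (Or.inl m2)]
    · rw [Finset.sum_union hdisj', Finset.sum_union hdisj', Finset.sum_union hdisj,
        Finset.sum_union hdisj]
      have f1 : ∑ L ∈ (ownY (t : ZMod 3) i (τ.op i) : Finset (Lab Q)), mt x (t + 1) L =
          (τ.op i).αY * 0 := sum_cop _ _ _ _ (Op.αY_le _) _ fun r =>
          mt_D_ne _ (by rw [e1]; exact (stage_ne1 _).symm) _ _ _ _
      have f1' : ∑ L ∈ (ownC (t : ZMod 3) i (τ.op i) : Finset (Lab Q)), mt x (t + 1) L =
          (τ.op i).γ * 0 := sum_cop _ _ _ _ (Op.γ_le _) _ fun r =>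
          mt_D_ne _ (by rw [e1]; exact (stage_ne1 _).symm) _ _ _ _
      have f2 : ∑ L ∈ (nxtY ((t : ZMod 3) + 1) i (τ.op i) : Finset (Lab Q)), mt x (t + 1) L =
          (τ.op i).βY * (w * (1 - x (t + 1) i ^ 2)) := sum_cop _ _ _ _ (Op.βY_le _) _ fun r => by
          rw [← e1, mt_D]
          unfold mz
          simp only [if_true]
      have f3 : ∑ L ∈ (ownY (t : ZMod 3) i (τ.op i) : Finset (Lab Q)), mt x t L =
          (τ.op i).αY * (w * x t i ^ 2) := sum_cop _ _ _ _ (Op.αY_le _) _ fun r => by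
          rw [mt_D]
          unfold mz
          simp only [Bool.false_eq_true, if_false, if_true]
      have f3' : ∑ L ∈ (ownC (t : ZMod 3) i (τ.op i) : Finset (Lab Q)), mt x t L =
          (τ.op i).γ * (w * (if (τ.op i).sgn then 1 - x t i else x t i)) :=
          sum_cop _ _ _ _ (Op.γ_le _) _ fun r => by
          rw [mt_D]
          unfold mz
          simp only [Bool.false_eq_true, if_false]
      have f4 : ∑ L ∈ (nxtY ((t : ZMod 3) + 1) i (τ.op i) : Finset (Lab Q)), mt x t L =
          (τ.op i).βY * 0 := sum_cop _ _ _ _ (Op.βY_le _) _ fun r =>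
          mt_D_ne _ (stage_ne1 _) _ _ _ _
      rw [f1, f1', f2, f3, f3', f4, hxt]
      have e4 : (2 : ℝ) * ((τ.op i).αY : ℝ) = ((τ.op i).a : ℝ) ^ 2 * ((τ.op i).βY : ℝ) := by
        have := Op.hY (τ.op i)
        exact_mod_cast this
      have e6 : (if (τ.op i).sgn then - ((τ.op i).γ : ℝ) else (τ.op i).γ) =
          ((τ.op i).a : ℝ) * ((τ.op i).b : ℝ) * ((τ.op i).βY : ℝ) := by
        have := Op.hγ (τ.op i)
        cases h : (τ.op i).sgn
        · rw [h] at this
          simp only [Bool.false_eq_true, if_false] at this ⊢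
          exact_mod_cast this
        · rw [h] at this
          simp only [if_true] at this ⊢
          exact_mod_cast this
      unfold cY Op.act
      cases h : (τ.op i).sgn
      · rw [h] at e6
        simp only [Bool.false_eq_true, if_false] at e6 ⊢
        push_cast
        linear_combination (1 / 2) * (w : ℝ) * x t i ^ 2 * e4 + (w : ℝ) * x t i * e6
      · rw [h] at e6
        simp only [if_true] at e6 ⊢
        push_cast
        linear_combination (1 / 2) * (w : ℝ) * x t i ^ 2 * e4 + (w : ℝ) * x t i * e6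
    · intro z
      simp only [Set.mem_union, dz_not_VS, false_or, Finset.mem_union, Finset.mem_coe]
    · intro z
      simp only [Set.mem_union, dz_not_VS, false_or, Finset.mem_union, Finset.mem_coe]
    · rintro (h | h | h | h)
      · exact n2 h
      · exact vl_not_cop h
      · exact vl_not_cop h
      · exact vl_not_cop h
    · rintro (h | h | h | h)
      · exact n3 h
      · exact vl_not_cop h
      · exact vl_not_cop h
      · exact vl_not_cop h

end Chain

/-- completeness of the reduction -/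
theorem sat_of_goodRun {Q : Type} [Fintype Q] {enc : Lab Q → ℕ} (henc : Function.Injective enc)
    {prog : Prog Q} {q : Q} {x : Fin 4 → ℚ} (h : GoodRun prog q (fun i => (x i : ℝ))) :
    HasTreeLikeModel (machF enc prog q x) := by
  classical
  obtain ⟨T, qs, xs, hR, hq0, hx0⟩ := h.exists_run
  have hx := hR.pos
  refine ⟨Chain.St T, inferInstance, Chain.chain T qs xs hx enc, Chain.treeLike_chain hx,
    Sum.inl 0, ?_⟩
  have hall : ∀ s, (Chain.chain T qs xs hx enc).Sat s (allF enc prog) := by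
    intro s
    rw [sat_allF henc]
    constructor
    · intro L hL hl
      rw [Chain.labOf_chain_iff hx henc] at hl
      have hP : (Chain.chain T qs xs hx enc).P s s = 1 := by
        rcases s with t | a
        · have ht : (t : ℕ) = T + 1 := by
            by_contra hcon
            have hle : (t : ℕ) ≤ T := by have := t.2; omega
            subst hl
            rcases hL with ⟨j, h1⟩ | ⟨j, h1⟩
            · change Chain.vl T qs t = _ at h1
              unfold Chain.vl at h1
              rw [if_pos hle] at h1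
              injection h1 with _ h1
              cases h1
            · exact Chain.vl_mem_DS h1
          have : t = ⟨T + 1, by omega⟩ := Fin.ext ht
          rw [this]
          exact Chain.P_last hx
        · exact Chain.P_leaf hx a
      refine MarkovChain.reach_absorbing _ ?_ hP
      intro h1
      exact h1 ((Chain.labOf_chain_iff hx henc s L).2 hl)
    · intro j q' hl
      rw [Chain.labOf_chain_iff hx henc] at hl
      rcases s with t | ⟨t, z⟩
      · change Chain.vl T qs t = _ at hl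
        unfold Chain.vl at hl
        injection hl with hj hq'
        by_cases hle : (t : ℕ) ≤ T
        · rw [if_pos hle] at hq'
          injection hq' with hq'
          subst hj
          subst hq'
          have hb := Chain.base_chain hx henc (q := qs) hle
          have hd := Chain.data_chain hx henc (q := qs) hle
          rcases hle.lt_or_eq with hlt | heq
          · obtain ⟨l, τ, h1, h2, h3, h4, h5, h6⟩ := hR.step t hlt
            rw [h1]
            exact ⟨hb, τ, h2, Chain.step_chain hx henc hlt h3 h4 h5 h6⟩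
          · have h1 : prog (qs t) = none := by rw [heq]; exact hR.last
            rw [h1]
            refine ⟨hb, ?_⟩
            have h2 : xs t = fun _ => (x0 : ℝ) := by rw [heq]; exact hR.lastx
            rw [h2] at hd
            exact hd
        · rw [if_neg hle] at hq'
          cases hq'
      · change (Chain.dz (t : ℕ) z : Lab Q) = _ at hl
        unfold Chain.dz at hl
        cases hl
  refine ⟨?_, ?_, ?_⟩
  · rw [MarkovChain.sat_probF]
    have h1 : {u | (Chain.chain T qs xs hx enc).Sat u (Formula.neg (allF enc prog))} = ∅ := by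
      ext u
      simp only [Set.mem_ofPred_eq, Set.mem_empty_iff_false, iff_false]
      intro h
      exact h (hall u)
    rw [h1]
    change (Chain.chain T qs xs hx enc).reach ∅ _ = ((0 : ℚ) : ℝ)
    unfold MarkovChain.reach MarkovChain.prob
    simp
  · rw [MarkovChain.sat_lam, ← MarkovChain.labOf_eq _ henc, Chain.labOf_chain_iff hx henc]
    change Chain.vl T qs 0 = _
    unfold Chain.vl
    rw [if_pos (Nat.zero_le _), hq0]
    rfl
  · rw [sat_dataF henc]
    have hd := Chain.data_chain hx henc (q := qs) (Nat.zero_le T)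
    rw [hx0] at hd
    exact hd

end Pool.Agent.Lib.MP_1d78e3_lc
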