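import Mathlib

set_option autoImplicit false

/-!
# PCTL over tree-like Markov chains: definitions

Syntax and semantics of the F,G-fragment of PCTL over finite Markov chains, tree-like Markov
chains, and a Goedel numbering of the formulas.
-/

open MeasureTheory ProbabilityTheory

namespace Pool.Agent.Lib.MP_1d78e3_lc

/-- The five comparison symbols. -/
inductive Cmp : Type
  | lt : Cmp
  | le : Cmp
  | eq : Cmp
  | ge : Cmp
  | gt : Cmp

/-- Meaning of the comparison symbols. -/
def Cmp.holds : Cmp → ℝ → ℝ → Prop
  | Cmp.lt, x, r => x < r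
  | Cmp.le, x, r => x ≤ r
  | Cmp.eq, x, r => x = r
  | Cmp.ge, x, r => x ≥ r
  | Cmp.gt, x, r => x > r

/-- State formulas of the F,G-fragment of PCTL; atomic propositions are natural numbers. -/
inductive Formula : Type
  | atom : ℕ → Formula
  | neg : Formula → Formula
  | and : Formula → Formula → Formula
  | or : Formula → Formula → Formula
  | probF : Formula → Cmp → ℚ → Formula
  | probG : Formula → Cmp → ℚ → Formula

/-- All probability constants lie in `[0,1]`. -/
def Formula.Valid : Formula → Prop
  | Formula.atom _ => True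
  | Formula.neg φ => φ.Valid
  | Formula.and φ ψ => φ.Valid ∧ ψ.Valid
  | Formula.or φ ψ => φ.Valid ∧ ψ.Valid
  | Formula.probF φ _ r => φ.Valid ∧ 0 ≤ r ∧ r ≤ 1
  | Formula.probG φ _ r => φ.Valid ∧ 0 ≤ r ∧ r ≤ 1

/-- A code for the comparison symbols. -/
def Cmp.code : Cmp → ℕ
  | Cmp.lt => 0
  | Cmp.le => 1
  | Cmp.eq => 2
  | Cmp.ge => 3
  | Cmp.gt => 4

/-- A Goedel numbering of the formulas (`Nat.pair` is the usual pairing function). -/
def Formula.code : Formula → ℕ
  | Formula.atom a => Nat.pair 0 a
  | Formula.neg φ => Nat.pair 1 φ.code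
  | Formula.and φ ψ => Nat.pair 2 (Nat.pair φ.code ψ.code)
  | Formula.or φ ψ => Nat.pair 3 (Nat.pair φ.code ψ.code)
  | Formula.probF φ c r =>
      Nat.pair 4 (Nat.pair φ.code (Nat.pair c.code (Nat.pair r.num.toNat r.den)))
  | Formula.probG φ c r =>
      Nat.pair 5 (Nat.pair φ.code (Nat.pair c.code (Nat.pair r.num.toNat r.den)))

/-- A Markov chain with finite state set `S`. -/
structure MarkovChain (S : Type) [Fintype S] where
  /-- transition probabilities -/
  P : S → S → ℝ
  /-- they are nonnegative -/
  nonneg : ∀ s u, 0 ≤ P s u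
  /-- they sum to one -/
  sum_one : ∀ s, ∑ u, P s u = 1
  /-- the atomic propositions true in a state -/
  v : S → Set ℕ

namespace MarkovChain

variable {S : Type} [Fintype S] (M : MarkovChain S)

/-- The distribution of the next state, as a measure on the (discrete) state space. -/
noncomputable def nextMeasure [MeasurableSpace S] (s : S) : Measure S :=
  ∑ u, ENNReal.ofReal (M.P s u) • Measure.dirac u

instance [MeasurableSpace S] (s : S) : IsProbabilityMeasure (M.nextMeasure s) where
  measure_univ := by
    unfold nextMeasure
    rw [Measure.finsetSum_apply]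
    simp only [Measure.smul_apply, measure_univ, smul_eq_mul, mul_one]
    rw [← ENNReal.ofReal_sum_of_nonneg fun u _ => M.nonneg s u, M.sum_one, ENNReal.ofReal_one]

/-- The transition kernel at time `n`: the next state depends only on the current one. -/
noncomputable def stepKernel [MeasurableSpace S] [MeasurableSingletonClass S] (n : ℕ) :
    Kernel (∀ _ : Finset.Iic n, S) S where
  toFun x := M.nextMeasure (x ⟨n, Finset.mem_Iic.2 le_rfl⟩)
  measurable' := measurable_of_countable _

instance [MeasurableSpace S] [MeasurableSingletonClass S] (n : ℕ) :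
    IsMarkovKernel (M.stepKernel n) :=
  ⟨fun _ => inferInstanceAs (IsProbabilityMeasure (M.nextMeasure _))⟩

/-- The probability measure on infinite runs started in `s` (Ionescu-Tulcea). -/
noncomputable def runMeasure (s : S) : @Measure (ℕ → S) (@MeasurableSpace.pi ℕ _ fun _ => ⊤) :=
  letI : MeasurableSpace S := ⊤
  haveI : MeasurableSingletonClass S := ⟨fun _ => trivial⟩
  Kernel.trajMeasure (X := fun _ => S) (Measure.dirac s) (fun n => M.stepKernel n)

/-- The probability that a run started in `s` belongs to the event `E`. -/
noncomputable def prob (s : S) (E : Set (ℕ → S)) : ℝ := (M.runMeasure s E).toReal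

/-- Satisfaction of a formula in a state. -/
def Sat (s : S) : Formula → Prop
  | Formula.atom a => a ∈ M.v s
  | Formula.neg φ => ¬ Sat s φ
  | Formula.and φ ψ => Sat s φ ∧ Sat s ψ
  | Formula.or φ ψ => Sat s φ ∨ Sat s ψ
  | Formula.probF φ c r => c.holds (M.prob s {ω | ∃ n, Sat (ω n) φ}) (r : ℝ)
  | Formula.probG φ c r => c.holds (M.prob s {ω | ∀ n, Sat (ω n) φ}) (r : ℝ)

/-- There is an edge from `s` to `u` iff `P s u > 0`. -/
def Edge (s u : S) : Prop := 0 < M.P s u

/-- The chain is tree-like: for some root, no other state has an edge to the root, every other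
state has exactly one predecessor different from itself, every state is reachable from the root,
and self-loops only occur with probability one (at the leaves). -/
def TreeLike : Prop :=
  ∃ root : S, (∀ u, u ≠ root → ¬ M.Edge u root) ∧
    (∀ s, s ≠ root → ∃! u, u ≠ s ∧ M.Edge u s) ∧
    (∀ s, Relation.ReflTransGen M.Edge root s) ∧
    (∀ s, M.Edge s s → M.P s s = 1)

end MarkovChain

/-- The formula holds in some state of some tree-like Markov chain. -/
def HasTreeLikeModel (φ : Formula) : Prop :=
  ∃ (S : Type) (_ : Fintype S) (M : MarkovChain S), M.TreeLike ∧ ∃ s, M.Sat s φ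

end Pool.Agent.Lib.MP_1d78e3_lc
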