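import Pool.Agent.Lib.MP_1d78e3_lc.Machine

set_option autoImplicit false
set_option linter.unusedSectionVars false

/-!
# From a constrained tree to a run of the machine
-/

namespace Pool.Agent.Lib.MP_1d78e3_lc

open Finset Relation Lab

/-- own labels used in the constraint for the first coordinate -/
def ownX {Q : Type} (j : ZMod 3) (i : Fin 4) (o : Op) : Finset (Lab Q) := cop j i false false o.αX

/-- next labels used in the constraint for the first coordinate -/
def nxtX {Q : Type} (j : ZMod 3) (i : Fin 4) (o : Op) : Finset (Lab Q) := cop j i false true o.βX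

/-- own labels used in the constraint for the second coordinate -/
def ownY {Q : Type} (j : ZMod 3) (i : Fin 4) (o : Op) : Finset (Lab Q) := cop j i true false o.αY

/-- own labels for the cross term -/
def ownC {Q : Type} (j : ZMod 3) (i : Fin 4) (o : Op) : Finset (Lab Q) := cop j i false o.sgn o.γ

/-- next labels used in the constraint for the second coordinate -/
def nxtY {Q : Type} (j : ZMod 3) (i : Fin 4) (o : Op) : Finset (Lab Q) := cop j i true true o.βY

/-- constant of the first constraint -/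
def cX (o : Op) : ℚ := 1 / 4 + w * (o.βX / 2) * (1 - o.b)

/-- constant of the second constraint -/
def cY (o : Op) : ℚ :=
  1 / 4 + w * ((o.βY / 2) * (1 - o.b ^ 2) + if o.sgn then (o.γ : ℚ) else 0)

/-- value of a variable representing the empty stack -/
def x0 : ℚ := 1 / 10

section

variable {S : Type} [Fintype S] {Q : Type} (E : Env S (Lab Q))

/-- the constraints valid at every real stage node of stage `j` -/
structure Base (s : S) (j : ZMod 3) : Prop where
  v1 : E.H (VS (j + 1)) s = 1 / 2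
  v3 : E.H (VS (j + 2)) s < 1
  v4 : E.H (VS (j + 1) ∪ DS j) s = 1
  v5 : ∀ (i : Fin 4) (y : Bool) (r r' : Fin 50),
    E.H (VS (j + 1) ∪ ({D j i y false r, D j i y true r'} : Set (Lab Q))) s = 1 / 2 + (w : ℝ)

/-- the constraints valid at a halting node -/
structure HaltCon (s : S) (j : ZMod 3) : Prop where
  hx : ∀ i : Fin 4, E.H (VS (j + 1) ∪ ({D j i false false 0} : Set (Lab Q))) s =
    1 / 2 + (w : ℝ) * (x0 : ℝ)
  hy : ∀ i : Fin 4, E.H (VS (j + 1) ∪ ({D j i true false 0} : Set (Lab Q))) s =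
    1 / 2 + (w : ℝ) * (x0 : ℝ) ^ 2

/-- the constraints valid at a node which performs the transition `τ` -/
structure StepCon (s : S) (j : ZMod 3) (τ : Trans Q) : Prop where
  glo : 1 / 2 + (w : ℝ) * τ.lo ≤ E.H (VS (j + 1) ∪ ({D j τ.g false false 0} : Set (Lab Q))) s
  ghi : E.H (VS (j + 1) ∪ ({D j τ.g false false 0} : Set (Lab Q))) s ≤ 1 / 2 + (w : ℝ) * τ.hi
  t1 : E.H (TS (j + 1) τ.tgt) s = 1 / 2
  t2 : E.H (TS (j + 1) τ.tgt ∪ DS j) s = 1
  t3 : E.H (TS (j + 1) τ.tgt ∪ VS (j + 2)) s = 1 / 2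
  rx : ∀ i : Fin 4, E.H (VS (j + 2) ∪ (↑(ownX j i (τ.op i) : Finset (Lab Q)) ∪
    ↑(nxtX (j + 1) i (τ.op i) : Finset (Lab Q)))) s = (cX (τ.op i) : ℝ)
  ry : ∀ i : Fin 4, E.H (VS (j + 2) ∪ (↑(ownY j i (τ.op i) : Finset (Lab Q)) ∪
    (↑(ownC j i (τ.op i) : Finset (Lab Q)) ∪
    ↑(nxtY (j + 1) i (τ.op i) : Finset (Lab Q))))) s = (cY (τ.op i) : ℝ)

/-- the data mass of a stage node -/
noncomputable def dat (j : ZMod 3) (i : Fin 4) (y : Bool) (s : S) : ℝ :=
  E.δ (VS (j + 1)) (D j i y false 0) s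

/-- all constraints hold at all good states -/
structure Valid (prog : Prog Q) : Prop where
  abs : E.Abs = AbL
  base : ∀ s j q, E.Good s → E.lab s = some (V j (some q)) → Base E s j
  halt : ∀ s j q, E.Good s → E.lab s = some (V j (some q)) → prog q = none → HaltCon E s j
  step : ∀ s j q l, E.Good s → E.lab s = some (V j (some q)) → prog q = some l →
    ∃ τ ∈ l, StepCon E s j τ

variable {E} {prog : Prog Q} (hv : Valid E prog)
include hv

lemma D_abs (j : ZMod 3) (i : Fin 4) (y n : Bool) (r : Fin 50) : D j i y n r ∈ E.Abs := by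
  rw [hv.abs]; exact D_mem_AbL j i y n r

lemma cop_abs {j : ZMod 3} {i : Fin 4} {y n : Bool} {m : ℕ} {L : Lab Q} (h : L ∈ cop j i y n m) :
    L ∈ E.Abs := by
  obtain ⟨r, _, rfl⟩ := mem_cop.1 h
  exact D_abs hv _ _ _ _ _

lemma cop_VS {j j' : ZMod 3} {i : Fin 4} {y n : Bool} {m : ℕ} {L : Lab Q}
    (h : L ∈ cop j i y n m) : L ∉ VS j' := by
  obtain ⟨r, _, rfl⟩ := mem_cop.1 h
  exact D_not_mem_VS

/-- complementary masses -/
lemma pair_sum {s : S} {j : ZMod 3} (hg : E.Good s) (hb : Base E s j) (i : Fin 4) (y : Bool)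
    (r r' : Fin 50) : E.δ (VS (j + 1)) (D j i y false r) s + E.δ (VS (j + 1)) (D j i y true r') s
      = (w : ℝ) := by
  classical
  have h1 := E.H_add (B := VS (j + 1)) (A := {D j i y false r, D j i y true r'}) (s := s)
    (by
      intro L hL
      rw [Finset.mem_insert, Finset.mem_singleton] at hL
      rcases hL with rfl | rfl <;> exact D_abs hv _ _ _ _ _)
    (by
      intro L hL
      rw [Finset.mem_insert, Finset.mem_singleton] at hL
      rcases hL with rfl | rfl <;> exact D_not_mem_VS) hg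
  rw [Finset.sum_pair (by intro h; injection h with _ _ _ h4; cases h4)] at h1
  have h2 := hb.v5 i y r r'
  have h3 := hb.v1
  rw [Finset.coe_insert, Finset.coe_singleton, h2, h3] at h1
  linarith

lemma pos_mass {s : S} {j : ZMod 3} (hg : E.Good s) (hb : Base E s j) (i : Fin 4) (y : Bool)
    (r : Fin 50) : E.δ (VS (j + 1)) (D j i y false r) s = dat E j i y s := by
  have h1 := pair_sum hv hg hb i y r 0
  have h2 := pair_sum hv hg hb i y 0 0
  unfold dat
  linarith

lemma neg_mass {s : S} {j : ZMod 3} (hg : E.Good s) (hb : Base E s j) (i : Fin 4) (y : Bool)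
    (r : Fin 50) : E.δ (VS (j + 1)) (D j i y true r) s = w - dat E j i y s := by
  have h1 := pair_sum hv hg hb i y 0 r
  unfold dat
  linarith

/-- the region between a stage node and the next stage nodes with label `V (j + 1) (some t)` -/
structure Reg (E : Env S (Lab Q)) (j : ZMod 3) (t : Q) (s u : S) : Prop where
  below : ReflTransGen (fun a b => 0 < E.p a b) s u
  good : E.Good u
  r1 : E.H (TS (j + 1) t ∪ DS j) u = 1
  r2 : E.H (TS (j + 1) t ∪ VS (j + 2)) u = E.H (TS (j + 1) t) u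

/-- a node of the region which is neither a target nor an exit of stage `j` -/
structure Inner (E : Env S (Lab Q)) (j : ZMod 3) (t : Q) (s u : S) : Prop extends
    Reg E j t s u where
  notT : u ∉ E.st (TS (j + 1) t)
  notD : u ∉ E.st (DS j)

lemma Reg.not_abs {j : ZMod 3} {t : Q} {s u : S} (h : Reg E j t s u) {L : Lab Q}
    (hl : E.lab u = some L) (hL : L ∈ E.Abs) : L ∈ DS j := by
  by_contra hcon
  have h1 := E.H_abs h.good hl hL (B := TS (j + 1) t ∪ DS j) (by
    rintro (h2 | h2)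
    · rw [hv.abs] at hL
      rw [Set.mem_singleton_iff.1 h2] at hL
      rcases hL with ⟨j', h3⟩ | ⟨j', h3⟩
      · injection h3 with _ h4
        cases h4
      · exact V_not_mem_DS h3
    · exact hcon h2)
  rw [h.r1] at h1
  exact one_ne_zero h1

lemma Reg.not_V2 {j : ZMod 3} {t : Q} {s u : S} (h : Reg E j t s u) :
    u ∉ E.st (VS (j + 2)) := by
  rintro ⟨L, ⟨q, rfl⟩, hl⟩
  cases q with
  | none =>
    have := h.not_abs hv hl (by rw [hv.abs]; exact Or.inl ⟨_, rfl⟩)
    exact V_not_mem_DS this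
  | some q =>
    have hb := hv.base u (j + 2) q h.good hl
    have h1 := hb.v3
    rw [stage_22] at h1
    have h2 : E.H (TS (j + 1) t) u ≤ E.H (VS (j + 1)) u := E.H_mono (TS_sub _ _) u
    have h3 := h.r2
    have h4 : u ∈ E.st (TS (j + 1) t ∪ VS (j + 2)) := ⟨V (j + 2) (some q), Or.inr ⟨some q, rfl⟩, hl⟩
    rw [E.H_mem h4] at h3
    linarith

lemma Inner.child {j : ZMod 3} {t : Q} {s u u' : S} (h : Inner E j t s u)
    (hp : 0 < E.p u u') : Reg E j t s u' := by
  have hn1 : u ∉ E.st (TS (j + 1) t ∪ DS j) := by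
    rintro ⟨L, h1 | h1, h2⟩
    · exact h.notT ⟨L, h1, h2⟩
    · exact h.notD ⟨L, h1, h2⟩
  have hn2 : u ∉ E.st (TS (j + 1) t ∪ VS (j + 2)) := by
    rintro ⟨L, h1 | h1, h2⟩
    · exact h.notT ⟨L, h1, h2⟩
    · exact h.toReg.not_V2 hv ⟨L, h1, h2⟩
  refine ⟨h.below.tail hp, E.good_child u u' h.good hp, ?_, ?_⟩
  · have h1 := h.r1
    rw [E.H_not hn1] at h1
    have h2 : ∑ v, E.p u v * (1 - E.H (TS (j + 1) t ∪ DS j) v) = 0 := by
      apply le_antisymm
      · simp only [mul_sub, Finset.sum_sub_distrib, mul_one]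
        have := E.sum_le u
        linarith
      · exact E.sum_nonneg_child fun v _ => sub_nonneg.2 (E.H_le_one _ v)
    have h3 := E.eq_zero_of_sum_eq_zero (fun v _ => sub_nonneg.2 (E.H_le_one _ v)) h2 u' hp
    linarith
  · have h1 := h.r2
    rw [E.H_not hn2, E.H_not h.notT] at h1
    have h2 : ∑ v, E.p u v * (E.H (TS (j + 1) t ∪ VS (j + 2)) v - E.H (TS (j + 1) t) v) = 0 := by
      simp only [mul_sub, Finset.sum_sub_distrib]
      linarith
    have h3 := E.eq_zero_of_sum_eq_zero
      (fun v _ => sub_nonneg.2 (E.H_mono Set.subset_union_left v)) h2 u' hp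
    linarith

/-- induction in the region -/
lemma Reg.induct {j : ZMod 3} {t : Q} {s : S} (P : S → Prop)
    (hT : ∀ u, Reg E j t s u → u ∈ E.st (TS (j + 1) t) → P u)
    (hD : ∀ u, Reg E j t s u → u ∈ E.st (DS j) → P u)
    (hI : ∀ u, Inner E j t s u → (∀ u', 0 < E.p u u' → P u') → P u) :
    ∀ u, Reg E j t s u → P u := by
  intro u
  induction u using E.wf.induction with
  | _ u ih =>
  intro hu
  by_cases h1 : u ∈ E.st (TS (j + 1) t)
  · exact hT u hu h1
  by_cases h2 : u ∈ E.st (DS j)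
  · exact hD u hu h2
  have hin : Inner E j t s u := ⟨hu, h1, h2⟩
  exact hI u hin fun u' hp => ih u' hp (hin.child hv hp)

/-- functions which are harmonic in the region and vanish at the exits -/
structure Harm (E : Env S (Lab Q)) (j : ZMod 3) (t : Q) (s : S) (F : S → ℝ) : Prop where
  zero : ∀ u, Reg E j t s u → u ∈ E.st (DS j) → F u = 0
  harm : ∀ u, Inner E j t s u → F u = ∑ u', E.p u u' * F u'

lemma Harm.nonneg {j : ZMod 3} {t : Q} {s : S} {F : S → ℝ} (hF : Harm E j t s F)
    (h : ∀ u, Reg E j t s u → u ∈ E.st (TS (j + 1) t) → 0 ≤ F u) :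
    ∀ u, Reg E j t s u → 0 ≤ F u := by
  refine Reg.induct hv _ h (fun u hu hD => (hF.zero u hu hD).ge) fun u hu ih => ?_
  rw [hF.harm u hu]
  exact E.sum_nonneg_child ih

lemma Harm.eq_zero {j : ZMod 3} {t : Q} {s : S} {F : S → ℝ} (hF : Harm E j t s F)
    (h : ∀ u, Reg E j t s u → u ∈ E.st (TS (j + 1) t) → F u = 0) :
    ∀ u, Reg E j t s u → F u = 0 := by
  refine Reg.induct hv _ h (fun u hu hD => hF.zero u hu hD) fun u hu ih => ?_
  rw [hF.harm u hu]
  exact (E.sum_congr_child (g := fun _ => 0) ih).trans (by simp)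

lemma Harm.descent {j : ZMod 3} {t : Q} {s : S} {F : S → ℝ} (hF : Harm E j t s F)
    (h : ∀ u, Reg E j t s u → u ∈ E.st (TS (j + 1) t) → 0 ≤ F u) :
    ∀ u, Reg E j t s u → F u = 0 → 0 < E.H (TS (j + 1) t) u →
      ∃ v, Reg E j t s v ∧ v ∈ E.st (TS (j + 1) t) ∧ F v = 0 := by
  refine Reg.induct hv _ ?_ ?_ ?_
  · intro u hu hT h0 _
    exact ⟨u, hu, hT, h0⟩
  · intro u hu hD _ hpos
    exfalso
    obtain ⟨L, hL, hl⟩ := hD
    obtain ⟨i, y, n, r, rfl⟩ := hL
    rw [E.H_abs hu.good hl (D_abs hv _ _ _ _ _) (fun h => D_not_mem_VS (TS_sub _ _ h))] at hpos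
    exact lt_irrefl _ hpos
  · intro u hu ih h0 hpos
    rw [hF.harm u hu] at h0
    rw [E.H_not hu.notT] at hpos
    have h1 := E.eq_zero_of_sum_eq_zero (fun v hv' => hF.nonneg hv h v (hu.child hv hv')) h0
    have h2 : ∃ v, 0 < E.p u v ∧ 0 < E.H (TS (j + 1) t) v := by
      by_contra hcon
      push Not at hcon
      have : ∑ v, E.p u v * E.H (TS (j + 1) t) v ≤ 0 := by
        refine Finset.sum_nonpos fun v _ => ?_
        rcases (E.nonneg u v).eq_or_lt with h3 | h3
        · rw [← h3, zero_mul]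
        · exact mul_nonpos_of_nonneg_of_nonpos h3.le (hcon v h3)
      linarith
    obtain ⟨v, hv1, hv2⟩ := h2
    exact ih v hv1 (h1 v hv1) hv2

/-- the target probability is harmonic -/
lemma harm_T (j : ZMod 3) (t : Q) (s : S) : Harm E j t s (E.H (TS (j + 1) t)) := by
  refine ⟨fun u hu hD => ?_, fun u hu => E.H_not hu.notT⟩
  obtain ⟨L, hL, hl⟩ := hD
  obtain ⟨i, y, n, r, rfl⟩ := hL
  exact E.H_abs hu.good hl (D_abs hv _ _ _ _ _) (fun h => D_not_mem_VS (TS_sub _ _ h))

/-- the masses of the exits of stage `j + 1` are harmonic -/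
lemma harm_D (j : ZMod 3) (t : Q) (s : S) (i : Fin 4) (y n : Bool) (r : Fin 50) :
    Harm E j t s (E.δ (VS (j + 2)) (D (j + 1) i y n r)) := by
  refine ⟨fun u hu hD => ?_, fun u hu => ?_⟩
  · obtain ⟨L, hL, hl⟩ := hD
    obtain ⟨i', y', n', r', rfl⟩ := hL
    refine E.δ_other hu.good hl (D_abs hv _ _ _ _ _) D_not_mem_VS ?_
    intro h
    injection h with h1
    exact stage_ne1 j h1.symm
  · refine E.δ_step (hu.toReg.not_V2 hv) ?_
    intro hl
    have h1 := hu.toReg.not_abs hv hl (D_abs hv _ _ _ _ _)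
    obtain ⟨_, _, _, _, h2⟩ := h1
    injection h2 with h3
    exact stage_ne1 j h3

omit hv in
lemma Harm.lin {E : Env S (Lab Q)} {j : ZMod 3} {t : Q} {s : S} {F G : S → ℝ}
    (hF : Harm E j t s F) (hG : Harm E j t s G) (a b : ℝ) :
    Harm E j t s (fun u => a * F u + b * G u) := by
  refine ⟨fun u hu hD => ?_, fun u hu => ?_⟩
  · rw [hF.zero u hu hD, hG.zero u hu hD]; ring
  · rw [hF.harm u hu, hG.harm u hu]
    simp only [mul_add, Finset.sum_add_distrib, Finset.mul_sum]
    congr 1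
    · exact Finset.sum_congr rfl fun v _ => by ring
    · exact Finset.sum_congr rfl fun v _ => by ring

/-- stage `j + 2` is reached with half the probability of the target -/
lemma region_V2 {j : ZMod 3} {t : Q} {s : S} :
    ∀ u, Reg E j t s u → E.H (VS (j + 2)) u = 1 / 2 * E.H (TS (j + 1) t) u := by
  have h1 : Harm E j t s (E.H (VS (j + 2))) := by
    refine ⟨fun u hu hD => ?_, fun u hu => E.H_not (hu.toReg.not_V2 hv)⟩
    obtain ⟨L, hL, hl⟩ := hD
    obtain ⟨i, y, n, r, rfl⟩ := hL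
    exact E.H_abs hu.good hl (D_abs hv _ _ _ _ _) D_not_mem_VS
  have h2 := h1.lin (harm_T hv j t s) 1 (-(1 / 2))
  intro u hu
  have h3 := h2.eq_zero hv (fun v hv' hT => by
    rw [E.H_mem hT]
    obtain ⟨L, hL, hl⟩ := hT
    rw [TS, Set.mem_singleton_iff] at hL
    subst hL
    have := (hv.base v (j + 1) t hv'.good hl).v1
    rw [stage_11] at this
    rw [this]; ring) u hu
  linarith

/-- no exits of another stage -/
lemma no_other {u : S} {j : ZMod 3} (hg : E.Good u) (hb : Base E u j) {L : Lab Q}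
    (hL : L ∈ E.Abs) (h1 : L ∉ VS (j + 1)) (h2 : L ∉ DS j) : E.δ (VS (j + 1)) L u = 0 := by
  classical
  have hdf : ∀ L' : Lab Q, L' ∈ DF j ↔ L' ∈ DS j := fun L' => by
    rw [← Finset.mem_coe, coe_DF]
  have hLn : L ∉ (DF j : Finset (Lab Q)) := fun h => h2 ((hdf L).1 h)
  have hab : ∀ L' ∈ (DF j : Finset (Lab Q)), L' ∈ E.Abs := by
    intro L' hL'
    obtain ⟨i, y, n, r, rfl⟩ := (hdf L').1 hL'
    exact D_abs hv _ _ _ _ _
  have hdis : ∀ L' ∈ (DF j : Finset (Lab Q)), L' ∉ VS (j + 1) := by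
    intro L' hL'
    obtain ⟨i, y, n, r, rfl⟩ := (hdf L').1 hL'
    exact D_not_mem_VS
  have e1 := E.H_add (B := VS (j + 1)) (A := DF j) hab hdis hg
  have e2 := E.H_add (B := VS (j + 1)) (A := insert L (DF j)) (by
    intro L' hL'
    rcases Finset.mem_insert.1 hL' with rfl | h
    · exact hL
    · exact hab _ h) (by
    intro L' hL'
    rcases Finset.mem_insert.1 hL' with rfl | h
    · exact h1
    · exact hdis _ h) hg
  rw [Finset.sum_insert hLn] at e2
  have e3 := E.H_le_one (VS (j + 1) ∪ ↑(insert L (DF j) : Finset (Lab Q))) u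
  rw [coe_DF, hb.v4] at e1
  have e4 := E.δ_nonneg (VS (j + 1)) L u
  linarith

/-- the own exits do not see the next stage -/
lemma region_own {j : ZMod 3} {t : Q} {s : S} (i : Fin 4) (y n : Bool) (r : Fin 50) :
    ∀ u, Reg E j t s u → E.δ (VS (j + 2)) (D j i y n r) u = E.δ (VS (j + 1)) (D j i y n r) u := by
  have key : ∀ u q, Reg E j t s u → E.lab u = some (V (j + 1) (some q)) →
      E.δ (VS (j + 2)) (D j i y n r) u = E.δ (VS (j + 1)) (D j i y n r) u := by
    intro u q hu hl
    have hb := hv.base u (j + 1) q hu.good hl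
    have h1 := no_other hv hu.good hb (L := D j i y n r) (D_abs hv _ _ _ _ _) D_not_mem_VS (by
      rintro ⟨_, _, _, _, h⟩
      injection h with h
      exact stage_ne1 j h.symm)
    rw [stage_11] at h1
    have h2 : u ∈ E.st (VS (j + 1)) := ⟨V (j + 1) (some q), ⟨some q, rfl⟩, hl⟩
    rw [h1, E.δ_of_mem h2]
  refine Reg.induct hv _ ?_ ?_ ?_
  · rintro u hu ⟨L, hL, hl⟩
    rw [TS, Set.mem_singleton_iff] at hL
    subst hL
    exact key u t hu hl
  · rintro u hu ⟨L, hL, hl⟩
    obtain ⟨i', y', n', r', rfl⟩ := hL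
    by_cases h : (D j i' y' n' r' : Lab Q) = D j i y n r
    · rw [h] at hl
      rw [E.δ_self hu.good hl (D_abs hv _ _ _ _ _) D_not_mem_VS,
        E.δ_self hu.good hl (D_abs hv _ _ _ _ _) D_not_mem_VS]
    · rw [E.δ_other hu.good hl (D_abs hv _ _ _ _ _) D_not_mem_VS h,
        E.δ_other hu.good hl (D_abs hv _ _ _ _ _) D_not_mem_VS h]
  · intro u hu ih
    by_cases h : u ∈ E.st (VS (j + 1))
    · obtain ⟨L, ⟨q, rfl⟩, hl⟩ := h
      cases q with
      | some q => exact key u q hu.toReg hl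
      | none =>
        exfalso
        exact V_not_mem_DS (hu.toReg.not_abs hv hl (by rw [hv.abs]; exact Or.inl ⟨_, rfl⟩))
    · have hl : E.lab u ≠ some (D j i y n r) := by
        intro hl
        exact hu.notD ⟨_, ⟨i, y, n, r, rfl⟩, hl⟩
      rw [E.δ_step (hu.toReg.not_V2 hv) hl, E.δ_step h hl]
      exact E.sum_congr_child ih

/-- complementary masses of the next stage -/
lemma region_neg {j : ZMod 3} {t : Q} {s : S} (i : Fin 4) (y : Bool) (r : Fin 50) :
    ∀ u, Reg E j t s u → E.δ (VS (j + 2)) (D (j + 1) i y true r) u =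
      w * E.H (TS (j + 1) t) u - E.δ (VS (j + 2)) (D (j + 1) i y false 0) u := by
  have h1 := harm_D hv j t s i y true r
  have h2 := harm_D hv j t s i y false 0
  have h3 := harm_T hv j t s
  have h4 := (h1.lin h2 1 1).lin h3 1 (-(w : ℝ))
  intro u hu
  have h5 := h4.eq_zero hv (fun v hv' hT => by
    rw [E.H_mem hT]
    obtain ⟨L, hL, hl⟩ := hT
    rw [TS, Set.mem_singleton_iff] at hL
    subst hL
    have := pair_sum hv hv'.good (hv.base v (j + 1) t hv'.good hl) i y 0 r
    rw [stage_11] at this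
    linarith) u hu
  linarith

lemma StepCon.reg {s : S} {j : ZMod 3} {τ : Trans Q} (hs : StepCon E s j τ) (hg : E.Good s) :
    Reg E j τ.tgt s s :=
  ⟨ReflTransGen.refl, hg, hs.t2, by rw [hs.t3, hs.t1]⟩

/-- the first constraint, decoded -/
lemma stepX {s : S} {j : ZMod 3} {τ : Trans Q} (hs : StepCon E s j τ) (hg : E.Good s)
    (hb : Base E s j) (i : Fin 4) :
    E.δ (VS (j + 2)) (D (j + 1) i false false 0) s =
      1 / 2 * (((τ.op i).a : ℝ) * dat E j i false s + (w : ℝ) * (τ.op i).b) := by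
  classical
  have hr := hs.reg hv hg
  have h1 := hs.rx i
  have hdisj : Disjoint (ownX j i (τ.op i) : Finset (Lab Q)) (nxtX (j + 1) i (τ.op i)) := by
    rw [Finset.disjoint_left]
    intro L hL hL'
    obtain ⟨r, _, rfl⟩ := mem_cop.1 hL
    obtain ⟨r', _, h⟩ := mem_cop.1 hL'
    injection h with h
    exact stage_ne1 j h.symm
  rw [← Finset.coe_union, E.H_add (A := ownX j i (τ.op i) ∪ nxtX (j + 1) i (τ.op i))
    (by
      intro L hL
      rcases Finset.mem_union.1 hL with h | h <;> exact cop_abs hv h)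
    (by
      intro L hL
      rcases Finset.mem_union.1 hL with h | h <;> exact cop_VS hv h) hg,
    Finset.sum_union hdisj] at h1
  rw [region_V2 hv s hr, hs.t1] at h1
  have e1 : ∑ L ∈ (ownX j i (τ.op i) : Finset (Lab Q)), E.δ (VS (j + 2)) L s =
      (τ.op i).αX * dat E j i false s :=
    sum_cop j i false false (Op.αX_le _) _ fun r => by
      rw [region_own hv i false false r s hr]
      exact pos_mass hv hg hb i false r
  have e2 : ∑ L ∈ (nxtX (j + 1) i (τ.op i) : Finset (Lab Q)), E.δ (VS (j + 2)) L s =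
      (τ.op i).βX * (w * (1 / 2) - E.δ (VS (j + 2)) (D (j + 1) i false false 0) s) :=
    sum_cop (j + 1) i false true (Op.βX_le _) _ fun r => by
      rw [region_neg hv i false r s hr, hs.t1]
  rw [e1, e2] at h1
  have e3 : (2 : ℝ) * ((τ.op i).αX : ℝ) = ((τ.op i).a : ℝ) * ((τ.op i).βX : ℝ) := by
    have := Op.hX (τ.op i)
    exact_mod_cast this
  have e4 : (0 : ℝ) < ((τ.op i).βX : ℝ) := by exact_mod_cast Op.βX_pos (τ.op i)
  unfold cX at h1
  push_cast at h1
  have e5 : ((τ.op i).βX : ℝ) * (E.δ (VS (j + 2)) (D (j + 1) i false false 0) s -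
      1 / 2 * (((τ.op i).a : ℝ) * dat E j i false s + (w : ℝ) * (τ.op i).b)) = 0 := by
    linear_combination (-1 : ℝ) * h1 + (1 / 2) * dat E j i false s * e3
  rcases mul_eq_zero.1 e5 with h | h
  · exact absurd h e4.ne'
  · linarith

/-- the second constraint, decoded -/
lemma stepY {s : S} {j : ZMod 3} {τ : Trans Q} (hs : StepCon E s j τ) (hg : E.Good s)
    (hb : Base E s j) (i : Fin 4) :
    E.δ (VS (j + 2)) (D (j + 1) i true false 0) s =
      1 / 2 * (((τ.op i).a : ℝ) ^ 2 * dat E j i true s +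
        2 * ((τ.op i).a : ℝ) * (τ.op i).b * dat E j i false s + (w : ℝ) * (τ.op i).b ^ 2) := by
  classical
  have hr := hs.reg hv hg
  have h1 := hs.ry i
  have hdisj : Disjoint (ownC j i (τ.op i) : Finset (Lab Q)) (nxtY (j + 1) i (τ.op i)) := by
    rw [Finset.disjoint_left]
    intro L hL hL'
    obtain ⟨r, _, rfl⟩ := mem_cop.1 hL
    obtain ⟨r', _, h⟩ := mem_cop.1 hL'
    injection h with h
    exact stage_ne1 j h.symm
  have hdisj' : Disjoint (ownY j i (τ.op i) : Finset (Lab Q))
      (ownC j i (τ.op i) ∪ nxtY (j + 1) i (τ.op i)) := by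
    rw [Finset.disjoint_left]
    intro L hL hL'
    obtain ⟨r, _, rfl⟩ := mem_cop.1 hL
    rcases Finset.mem_union.1 hL' with hL' | hL'
    · obtain ⟨r', _, h⟩ := mem_cop.1 hL'
      injection h with _ _ h
      exact Bool.noConfusion h
    · obtain ⟨r', _, h⟩ := mem_cop.1 hL'
      injection h with h
      exact stage_ne1 j h.symm
  rw [← Finset.coe_union, ← Finset.coe_union,
    E.H_add (A := ownY j i (τ.op i) ∪ (ownC j i (τ.op i) ∪ nxtY (j + 1) i (τ.op i)))
    (by
      intro L hL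
      rcases Finset.mem_union.1 hL with h | h
      · exact cop_abs hv h
      · rcases Finset.mem_union.1 h with h | h <;> exact cop_abs hv h)
    (by
      intro L hL
      rcases Finset.mem_union.1 hL with h | h
      · exact cop_VS hv h
      · rcases Finset.mem_union.1 h with h | h <;> exact cop_VS hv h) hg,
    Finset.sum_union hdisj', Finset.sum_union hdisj] at h1
  rw [region_V2 hv s hr, hs.t1] at h1
  have e1 : ∑ L ∈ (ownY j i (τ.op i) : Finset (Lab Q)), E.δ (VS (j + 2)) L s =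
      (τ.op i).αY * dat E j i true s :=
    sum_cop j i true false (Op.αY_le _) _ fun r => by
      rw [region_own hv i true false r s hr]
      exact pos_mass hv hg hb i true r
  have e2 : ∑ L ∈ (nxtY (j + 1) i (τ.op i) : Finset (Lab Q)), E.δ (VS (j + 2)) L s =
      (τ.op i).βY * (w * (1 / 2) - E.δ (VS (j + 2)) (D (j + 1) i true false 0) s) :=
    sum_cop (j + 1) i true true (Op.βY_le _) _ fun r => by
      rw [region_neg hv i true r s hr, hs.t1]
  have e3 : ∑ L ∈ (ownC j i (τ.op i) : Finset (Lab Q)), E.δ (VS (j + 2)) L s =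
      (τ.op i).γ * (if (τ.op i).sgn then w - dat E j i false s else dat E j i false s) :=
    sum_cop j i false _ (Op.γ_le _) _ fun r => by
      rw [region_own hv i false _ r s hr]
      cases (τ.op i).sgn
      · exact pos_mass hv hg hb i false r
      · exact neg_mass hv hg hb i false r
  rw [e1, e2, e3] at h1
  have e4 : (2 : ℝ) * ((τ.op i).αY : ℝ) = ((τ.op i).a : ℝ) ^ 2 * ((τ.op i).βY : ℝ) := by
    have := Op.hY (τ.op i)
    exact_mod_cast this
  have e5 : (0 : ℝ) < ((τ.op i).βY : ℝ) := by exact_mod_cast Op.βY_pos (τ.op i)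
  have e6 : (if (τ.op i).sgn then - ((τ.op i).γ : ℝ) else (τ.op i).γ) =
      ((τ.op i).a : ℝ) * ((τ.op i).b : ℝ) * ((τ.op i).βY : ℝ) := by
    have := Op.hγ (τ.op i)
    cases h : (τ.op i).sgn
    · rw [h] at this
      simp only [Bool.false_eq_true, if_false] at this ⊢
      exact_mod_cast this
    · rw [h] at this
      simp only [if_true] at this ⊢
      exact_mod_cast this
  unfold cY at h1
  have e7 : ((τ.op i).βY : ℝ) * (E.δ (VS (j + 2)) (D (j + 1) i true false 0) s -
      1 / 2 * (((τ.op i).a : ℝ) ^ 2 * dat E j i true s +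
        2 * ((τ.op i).a : ℝ) * (τ.op i).b * dat E j i false s + (w : ℝ) * (τ.op i).b ^ 2)) = 0 := by
    cases h : (τ.op i).sgn
    · rw [h] at h1 e6
      simp only [Bool.false_eq_true, if_false] at h1 e6
      push_cast at h1
      linear_combination (-1 : ℝ) * h1 + (1 / 2) * dat E j i true s * e4 +
        dat E j i false s * e6
    · rw [h] at h1 e6
      simp only [if_true] at h1 e6
      push_cast at h1
      linear_combination (-1 : ℝ) * h1 + (1 / 2) * dat E j i true s * e4 +
        dat E j i false s * e6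
  rcases mul_eq_zero.1 e7 with h | h
  · exact absurd h e5.ne'
  · linarith

end

end Pool.Agent.Lib.MP_1d78e3_lc
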