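import Mathlib

set_option autoImplicit false
set_option linter.unusedSectionVars false

/-!
# Reachability in finite weighted trees

Abstract form of the reachability probabilities in a tree-like Markov chain.
-/

namespace Pool.Agent.Lib.MP_1d78e3_lc

open Finset

/-- Abstract labelled finite tree with sub-probability weights on the children, with reachability
values `h A s`, and a hereditary set of good states in which absorbing labels persist. -/
structure Env (S : Type) [Fintype S] (Lab : Type) where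
  p : S → S → ℝ
  nonneg : ∀ s u, 0 ≤ p s u
  sum_le : ∀ s, ∑ u, p s u ≤ 1
  wf : WellFounded (fun u s => 0 < p s u)
  h : Set S → S → ℝ
  h_mem : ∀ A s, s ∈ A → h A s = 1
  h_not : ∀ A s, s ∉ A → h A s = ∑ u, p s u * h A u
  lab : S → Option Lab
  Abs : Set Lab
  Good : S → Prop
  good_child : ∀ s u, Good s → 0 < p s u → Good u
  persist : ∀ s u L, Good s → lab s = some L → L ∈ Abs → 0 < p s u → lab u = some L

namespace Env

variable {S : Type} [Fintype S] {Lab : Type} (E : Env S Lab)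

/-- states whose label lies in `B` -/
def st (B : Set Lab) : Set S := {u | ∃ L ∈ B, E.lab u = some L}

/-- probability of reaching a label of `B` -/
def H (B : Set Lab) (s : S) : ℝ := E.h (E.st B) s

lemma mem_st {B : Set Lab} {s : S} : s ∈ E.st B ↔ ∃ L ∈ B, E.lab s = some L := Iff.rfl

lemma mem_st_of {B : Set Lab} {s : S} {L : Lab} (h : E.lab s = some L) :
    s ∈ E.st B ↔ L ∈ B := by
  constructor
  · rintro ⟨L', h1, h2⟩
    rw [h] at h2
    cases h2
    exact h1
  · intro h1
    exact ⟨L, h1, h⟩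

lemma H_mem {B : Set Lab} {s : S} (h : s ∈ E.st B) : E.H B s = 1 := E.h_mem _ _ h

lemma H_not {B : Set Lab} {s : S} (h : s ∉ E.st B) : E.H B s = ∑ u, E.p s u * E.H B u :=
  E.h_not _ _ h

/-- terms of a weighted sum only matter on children -/
lemma sum_congr_child {s : S} {f g : S → ℝ} (h : ∀ u, 0 < E.p s u → f u = g u) :
    ∑ u, E.p s u * f u = ∑ u, E.p s u * g u := by
  refine Finset.sum_congr rfl fun u _ => ?_
  rcases (E.nonneg s u).eq_or_lt with h0 | h0
  · rw [← h0, zero_mul, zero_mul]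
  · rw [h u h0]

lemma sum_nonneg_child {s : S} {f : S → ℝ} (h : ∀ u, 0 < E.p s u → 0 ≤ f u) :
    0 ≤ ∑ u, E.p s u * f u := by
  refine Finset.sum_nonneg fun u _ => ?_
  rcases (E.nonneg s u).eq_or_lt with h0 | h0
  · rw [← h0, zero_mul]
  · exact mul_nonneg h0.le (h u h0)

lemma sum_le_one_child {s : S} {f : S → ℝ} (h : ∀ u, 0 < E.p s u → f u ≤ 1) :
    ∑ u, E.p s u * f u ≤ 1 := by
  refine le_trans (Finset.sum_le_sum (g := fun u => E.p s u) fun u _ => ?_) (E.sum_le s)
  rcases (E.nonneg s u).eq_or_lt with h0 | h0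
  · rw [← h0, zero_mul]
  · exact mul_le_of_le_one_right h0.le (h u h0)

/-- if a weighted sum of nonnegative terms vanishes, each term on a child vanishes -/
lemma eq_zero_of_sum_eq_zero {s : S} {f : S → ℝ} (h : ∀ u, 0 < E.p s u → 0 ≤ f u)
    (h0 : ∑ u, E.p s u * f u = 0) : ∀ u, 0 < E.p s u → f u = 0 := by
  intro u hu
  have h1 : ∀ v ∈ (Finset.univ : Finset S), 0 ≤ E.p s v * f v := by
    intro v _
    rcases (E.nonneg s v).eq_or_lt with h2 | h2
    · rw [← h2, zero_mul]
    · exact mul_nonneg h2.le (h v h2)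
  have h2 := (Finset.sum_eq_zero_iff_of_nonneg h1).1 h0 u (Finset.mem_univ u)
  rcases mul_eq_zero.1 h2 with h3 | h3
  · exact absurd h3 hu.ne'
  · exact h3

lemma H_nonneg (B : Set Lab) (s : S) : 0 ≤ E.H B s := by
  induction s using E.wf.induction with
  | _ s ih =>
  by_cases h : s ∈ E.st B
  · rw [E.H_mem h]; exact zero_le_one
  · rw [E.H_not h]; exact E.sum_nonneg_child ih

lemma H_le_one (B : Set Lab) (s : S) : E.H B s ≤ 1 := by
  induction s using E.wf.induction with
  | _ s ih =>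
  by_cases h : s ∈ E.st B
  · rw [E.H_mem h]
  · rw [E.H_not h]; exact E.sum_le_one_child ih

lemma H_mono {B B' : Set Lab} (hB : B ⊆ B') (s : S) : E.H B s ≤ E.H B' s := by
  induction s using E.wf.induction with
  | _ s ih =>
  by_cases h' : s ∈ E.st B'
  · rw [E.H_mem h']; exact E.H_le_one B s
  · have h : s ∉ E.st B := by
      rintro ⟨L, hL, hl⟩
      exact h' ⟨L, hB hL, hl⟩
    rw [E.H_not h, E.H_not h']
    have := E.sum_nonneg_child (s := s) (f := fun u => E.H B' u - E.H B u)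
      (fun u hu => sub_nonneg.2 (ih u hu))
    simp only [mul_sub, Finset.sum_sub_distrib] at this
    linarith

/-- below an absorbing label outside `B`, nothing in `B` is reached -/
lemma H_abs {B : Set Lab} {s : S} {L : Lab} (hg : E.Good s) (hl : E.lab s = some L)
    (hL : L ∈ E.Abs) (hB : L ∉ B) : E.H B s = 0 := by
  induction s using E.wf.induction with
  | _ s ih =>
  have h : s ∉ E.st B := by
    rw [E.mem_st_of hl]; exact hB
  rw [E.H_not h]
  refine (E.sum_congr_child (g := fun _ => 0) fun u hu => ?_).trans (by simp)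
  exact ih u hu (E.good_child s u hg hu) (E.persist s u L hg hl hL hu)

/-- mass absorbed in `L` before `B` -/
def δ (B : Set Lab) (L : Lab) (s : S) : ℝ := E.H (B ∪ {L}) s - E.H B s

lemma δ_nonneg (B : Set Lab) (L : Lab) (s : S) : 0 ≤ E.δ B L s :=
  sub_nonneg.2 (E.H_mono Set.subset_union_left s)

lemma δ_of_mem {B : Set Lab} {L : Lab} {s : S} (h : s ∈ E.st B) : E.δ B L s = 0 := by
  unfold δ
  rw [E.H_mem h, E.H_mem, sub_self]
  obtain ⟨L', h1, h2⟩ := h
  exact ⟨L', Or.inl h1, h2⟩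

lemma δ_self {B : Set Lab} {L : Lab} {s : S} (hg : E.Good s) (hl : E.lab s = some L)
    (hL : L ∈ E.Abs) (hB : L ∉ B) : E.δ B L s = 1 := by
  unfold δ
  rw [E.H_abs hg hl hL hB, E.H_mem, sub_zero]
  exact ⟨L, Or.inr rfl, hl⟩

lemma δ_other {B : Set Lab} {L L' : Lab} {s : S} (hg : E.Good s) (hl : E.lab s = some L')
    (hL : L' ∈ E.Abs) (hB : L' ∉ B) (hne : L' ≠ L) : E.δ B L s = 0 := by
  unfold δ
  rw [E.H_abs hg hl hL hB, E.H_abs hg hl hL, sub_zero]
  rintro (h | h)
  · exact hB h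
  · exact hne h

lemma δ_step {B : Set Lab} {L : Lab} {s : S} (h : s ∉ E.st B) (hl : E.lab s ≠ some L) :
    E.δ B L s = ∑ u, E.p s u * E.δ B L u := by
  have h' : s ∉ E.st (B ∪ {L}) := by
    rintro ⟨L', h1 | h1, h2⟩
    · exact h ⟨L', h1, h2⟩
    · rw [Set.mem_singleton_iff] at h1
      subst h1
      exact hl h2
  unfold δ
  rw [E.H_not h, E.H_not h']
  simp only [mul_sub, Finset.sum_sub_distrib]

/-- additivity over a finite set of absorbing labels -/
lemma H_add {B : Set Lab} {A : Finset Lab} (hA : ∀ L ∈ A, L ∈ E.Abs) (hdis : ∀ L ∈ A, L ∉ B)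
    {s : S} (hg : E.Good s) : E.H (B ∪ ↑A) s = E.H B s + ∑ L ∈ A, E.δ B L s := by
  classical
  induction s using E.wf.induction with
  | _ s ih =>
  by_cases hB : s ∈ E.st B
  · have h1 : s ∈ E.st (B ∪ ↑A) := by
      obtain ⟨L', h1, h2⟩ := hB
      exact ⟨L', Or.inl h1, h2⟩
    rw [E.H_mem hB, E.H_mem h1, Finset.sum_eq_zero (fun L _ => E.δ_of_mem hB), add_zero]
  by_cases hA' : ∃ L ∈ A, E.lab s = some L
  · obtain ⟨L, hLA, hl⟩ := hA'
    have h1 : s ∈ E.st (B ∪ ↑A) := ⟨L, Or.inr hLA, hl⟩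
    rw [E.H_mem h1, E.H_abs hg hl (hA L hLA) (hdis L hLA), zero_add,
      Finset.sum_eq_single_of_mem L hLA, E.δ_self hg hl (hA L hLA) (hdis L hLA)]
    intro L' hL' hne
    exact E.δ_other hg hl (hA L hLA) (hdis L hLA) (Ne.symm hne)
  · have h1 : s ∉ E.st (B ∪ ↑A) := by
      rintro ⟨L, h1 | h1, h2⟩
      · exact hB ⟨L, h1, h2⟩
      · exact hA' ⟨L, h1, h2⟩
    rw [E.H_not h1, E.H_not hB]
    have h2 : ∑ L ∈ A, E.δ B L s = ∑ L ∈ A, ∑ u, E.p s u * E.δ B L u := by
      refine Finset.sum_congr rfl fun L hL => ?_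
      refine E.δ_step hB ?_
      intro hl
      exact hA' ⟨L, hL, hl⟩
    rw [h2, Finset.sum_comm, ← Finset.sum_add_distrib]
    simp only [← Finset.mul_sum, ← mul_add]
    exact E.sum_congr_child fun u hu => ih u hu (E.good_child s u hg hu)

end Env

end Pool.Agent.Lib.MP_1d78e3_lc
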