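import Pool.Agent.Lib.MP_1d78e3_lc.Down

set_option autoImplicit false
set_option linter.unusedSectionVars false

/-!
# From a constrained tree to a run of the machine: the main argument
-/

namespace Pool.Agent.Lib.MP_1d78e3_lc

open Finset Relation Lab

lemma w_pos : (0 : ℝ) < (w : ℝ) := by
  unfold w; norm_num

section

variable {S : Type} [Fintype S] {Q : Type} {E : Env S (Lab Q)} {prog : Prog Q} (hv : Valid E prog)
include hv

/-- target nodes are proper descendants -/
lemma Reg.trans {j : ZMod 3} {t : Q} {s u : S} (h : Reg E j t s u) {q : Q}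
    (hs : E.lab s = some (V j (some q))) (hT : u ∈ E.st (TS (j + 1) t)) :
    TransGen (fun u s => 0 < E.p s u) u s := by
  rcases reflTransGen_iff_eq_or_transGen.1 h.below with h1 | h1
  · exfalso
    obtain ⟨L, hL, hl⟩ := hT
    rw [TS, Set.mem_singleton_iff] at hL
    subst hL
    rw [h1, hs] at hl
    injection hl with hl
    injection hl with hl
    exact stage_ne1 j hl.symm
  · rw [← transGen_swap] at h1
    exact h1

/-- the value `Y - 2 c X + c^2 T` -/
noncomputable def quad (E : Env S (Lab Q)) (j : ZMod 3) (t : Q) (i : Fin 4) (c : ℝ) (u : S) : ℝ :=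
  E.δ (VS (j + 2)) (D (j + 1) i true false 0) u -
    2 * c * E.δ (VS (j + 2)) (D (j + 1) i false false 0) u + c ^ 2 * w * E.H (TS (j + 1) t) u

lemma harm_quad (j : ZMod 3) (t : Q) (s : S) (i : Fin 4) (c : ℝ) :
    Harm E j t s (quad E j t i c) := by
  have h1 := (harm_D hv j t s i true false 0).lin (harm_D hv j t s i false false 0) 1 (-(2 * c))
  have h2 := h1.lin (harm_T hv j t s) 1 (c ^ 2 * w)
  convert h2 using 1
  funext u
  unfold quad
  ring

lemma quad_T {j : ZMod 3} {t : Q} {s v : S} (hr : Reg E j t s v) (hT : v ∈ E.st (TS (j + 1) t))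
    (i : Fin 4) (c : ℝ) :
    quad E j t i c v = dat E (j + 1) i true v - 2 * c * dat E (j + 1) i false v + c ^ 2 * w := by
  unfold quad dat
  rw [E.H_mem hT, stage_11]
  ring

/-- Cauchy-Schwarz at every stage node -/
lemma jensen : ∀ (s : S) (j : ZMod 3) (q : Q), E.Good s → E.lab s = some (V j (some q)) →
    ∀ i : Fin 4, dat E j i false s ^ 2 ≤ w * dat E j i true s := by
  intro s
  induction s using E.wf.transGen.induction with
  | _ s ih =>
  intro j q hg hl i
  have hb := hv.base s j q hg hl
  have hw := w_pos
  cases hp : prog q with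
  | none =>
    have hh := hv.halt s j q hg hl hp
    have h1 := hh.hx i
    have h2 := hh.hy i
    have e1 : dat E j i false s = w * x0 := by
      unfold dat Env.δ
      rw [h1, hb.v1]; ring
    have e2 : dat E j i true s = w * x0 ^ 2 := by
      unfold dat Env.δ
      rw [h2, hb.v1]; ring
    rw [e1, e2]
    exact le_of_eq (by ring)
  | some l =>
    obtain ⟨τ, hτ, hs⟩ := hv.step s j q l hg hl hp
    have hr := hs.reg hv hg
    have hX := stepX hv hs hg hb i
    have hY := stepY hv hs hg hb i
    set a : ℝ := ((τ.op i).a : ℝ) with ha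
    set b : ℝ := ((τ.op i).b : ℝ) with hb'
    set X := dat E j i false s with hXd
    set Y := dat E j i true s with hYd
    have ha0 : a ≠ 0 := by
      rw [ha]
      exact_mod_cast Op.a_ne _
    have hnn := (harm_quad hv j τ.tgt s i ((a * X + w * b) / w)).nonneg hv (by
      intro v hrv hT
      rw [quad_T hv hrv hT]
      have hlv : E.lab v = some (V (j + 1) (some τ.tgt)) := by
        obtain ⟨L, hL, hl'⟩ := hT
        rw [TS, Set.mem_singleton_iff] at hL
        subst hL
        exact hl'
      have h1 := ih v (hrv.trans hv hl hT) (j + 1) τ.tgt hrv.good hlv i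
      set c := (a * X + w * b) / w
      have h2 : 0 ≤ w * (dat E (j + 1) i true v - 2 * c * dat E (j + 1) i false v + c ^ 2 * w) := by
        nlinarith [sq_nonneg (dat E (j + 1) i false v - c * w)]
      exact nonneg_of_mul_nonneg_right h2 hw) s hr
    unfold quad at hnn
    rw [hX, hY, hs.t1] at hnn
    have h3 : w * ((a * X + w * b) / w) = a * X + w * b := by
      field_simp
    have h4 : 0 ≤ w * (1 / 2 * (a ^ 2 * Y + 2 * a * b * X + w * b ^ 2) -
        2 * ((a * X + w * b) / w) * (1 / 2 * (a * X + w * b)) +
        ((a * X + w * b) / w) ^ 2 * w * (1 / 2)) := mul_nonneg hw.le hnn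
    set c := (a * X + w * b) / w
    have h5 : w * (1 / 2 * (a ^ 2 * Y + 2 * a * b * X + w * b ^ 2) -
        2 * c * (1 / 2 * (a * X + w * b)) + c ^ 2 * w * (1 / 2)) =
        1 / 2 * (a ^ 2 * (w * Y - X ^ 2)) := by
      linear_combination (-(a * X + w * b) + (1 / 2) * (w * c + (a * X + w * b))) * h3
    rw [h5] at h4
    have h6 : 0 < a ^ 2 := by positivity
    nlinarith [(mul_nonneg_iff_of_pos_left h6).1 (by linarith : 0 ≤ a ^ 2 * (w * Y - X ^ 2))]

/-- exact data forces a run -/
theorem run_of_valid : ∀ (s : S) (j : ZMod 3) (q : Q) (x : Fin 4 → ℝ), E.Good s →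
    E.lab s = some (V j (some q)) → (∀ i, dat E j i false s = w * x i) →
    (∀ i, dat E j i true s = w * x i ^ 2) → Halts prog q x := by
  intro s
  induction s using E.wf.transGen.induction with
  | _ s ih =>
  intro j q x hg hl hx hy
  have hb := hv.base s j q hg hl
  have hw := w_pos
  cases hp : prog q with
  | none => exact Halts.halt q x hp
  | some l =>
    obtain ⟨τ, hτ, hs⟩ := hv.step s j q l hg hl hp
    have hr := hs.reg hv hg
    have hX := fun i => stepX hv hs hg hb i
    have hY := fun i => stepY hv hs hg hb i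
    have hgd : E.H (VS (j + 1) ∪ ({D j τ.g false false 0} : Set (Lab Q))) s =
        1 / 2 + w * x τ.g := by
      have := hx τ.g
      unfold dat Env.δ at this
      rw [hb.v1] at this
      linarith
    refine Halts.step q x l τ hp hτ ?_ ?_ ?_
    · have h1 := hs.glo
      rw [hgd] at h1
      exact le_of_mul_le_mul_left (by linarith) hw
    · have h1 := hs.ghi
      rw [hgd] at h1
      exact le_of_mul_le_mul_left (by linarith) hw
    · set x' : Fin 4 → ℝ := fun i => (τ.op i).act (x i) with hx'
      have hF : Harm E j τ.tgt s (fun u => ∑ i, quad E j τ.tgt i (x' i) u) := by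
        refine ⟨fun u hu hD => ?_, fun u hu => ?_⟩
        · exact Finset.sum_eq_zero fun i _ => (harm_quad hv j τ.tgt s i (x' i)).zero u hu hD
        · simp only [Finset.mul_sum]
          rw [Finset.sum_comm]
          exact Finset.sum_congr rfl fun i _ => (harm_quad hv j τ.tgt s i (x' i)).harm u hu
      have hnn : ∀ v, Reg E j τ.tgt s v → v ∈ E.st (TS (j + 1) τ.tgt) → ∀ i,
          0 ≤ quad E j τ.tgt i (x' i) v := by
        intro v hrv hT i
        rw [quad_T hv hrv hT]
        have hlv : E.lab v = some (V (j + 1) (some τ.tgt)) := by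
          obtain ⟨L, hL, hl'⟩ := hT
          rw [TS, Set.mem_singleton_iff] at hL
          subst hL
          exact hl'
        have h1 := jensen hv v (j + 1) τ.tgt hrv.good hlv i
        have h2 : 0 ≤ w * (dat E (j + 1) i true v - 2 * x' i * dat E (j + 1) i false v +
            x' i ^ 2 * w) := by
          nlinarith [sq_nonneg (dat E (j + 1) i false v - x' i * w)]
        exact nonneg_of_mul_nonneg_right h2 hw
      have h0 : ∑ i, quad E j τ.tgt i (x' i) s = 0 := by
        refine Finset.sum_eq_zero fun i _ => ?_
        unfold quad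
        rw [hX i, hY i, hs.t1, hx i, hy i]
        simp only [hx', Op.act]
        ring
      obtain ⟨v, hrv, hT, hv0⟩ := hF.descent hv (fun v hrv hT =>
        Finset.sum_nonneg fun i _ => hnn v hrv hT i) s hr h0 (by rw [hs.t1]; norm_num)
      have hlv : E.lab v = some (V (j + 1) (some τ.tgt)) := by
        obtain ⟨L, hL, hl'⟩ := hT
        rw [TS, Set.mem_singleton_iff] at hL
        subst hL
        exact hl'
      have hz : ∀ i, quad E j τ.tgt i (x' i) v = 0 := fun i =>
        (Finset.sum_eq_zero_iff_of_nonneg fun i _ => hnn v hrv hT i).1 hv0 i (Finset.mem_univ i)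
      have hXv : ∀ i, dat E (j + 1) i false v = w * x' i := by
        intro i
        have h1 := hz i
        rw [quad_T hv hrv hT] at h1
        have h2 := jensen hv v (j + 1) τ.tgt hrv.good hlv i
        have h3 : (dat E (j + 1) i false v - w * x' i) ^ 2 ≤ 0 := by
          have : w * (dat E (j + 1) i true v - 2 * x' i * dat E (j + 1) i false v +
            x' i ^ 2 * w) = 0 := by rw [h1, mul_zero]
          nlinarith
        have h4 : dat E (j + 1) i false v - w * x' i = 0 := by
          have := le_antisymm h3 (sq_nonneg _)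
          exact pow_eq_zero_iff (two_ne_zero) |>.1 this
        linarith
      refine ih v (hrv.trans hv hl hT) (j + 1) τ.tgt x' hrv.good hlv hXv ?_
      intro i
      have h1 := hz i
      rw [quad_T hv hrv hT, hXv i] at h1
      linarith

end

end Pool.Agent.Lib.MP_1d78e3_lc
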