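import Pool.Agent.Lib.MP_1d78e3_lc.Restrict

set_option autoImplicit false
set_option linter.unusedSectionVars false

/-!
# Computability of the reduction and undecidability
-/

namespace Pool.Agent.Lib.MP_1d78e3_lc

open Turing Turing.PartrecToTM2 Lab

/-! ### validity of the formulas -/

lemma cX_bounds (o : Op) : 0 ≤ cX o ∧ cX o ≤ 1 := by
  cases o with
  | nop => norm_num [cX, w, Op.βX, Op.b]
  | push d => fin_cases d <;> norm_num [cX, w, Op.βX, Op.b, Op.dv]
  | pop d => fin_cases d <;> norm_num [cX, w, Op.βX, Op.b, Op.dv]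

lemma cY_bounds (o : Op) : 0 ≤ cY o ∧ cY o ≤ 1 := by
  cases o with
  | nop => norm_num [cY, w, Op.βY, Op.b, Op.γ, Op.sgn]
  | push d => fin_cases d <;> norm_num [cY, w, Op.βY, Op.b, Op.dv, Op.γ, Op.sgn]
  | pop d => fin_cases d <;> norm_num [cY, w, Op.βY, Op.b, Op.dv, Op.γ, Op.sgn]

lemma w_bounds {x : ℚ} (h0 : 0 ≤ x) (h1 : x ≤ 1) : 0 ≤ 1 / 2 + w * x ∧ 1 / 2 + w * x ≤ 1 := by
  unfold w
  constructor <;> linarith

lemma baseF_valid {Q : Type} [Fintype Q] (enc : Lab Q → ℕ) (j : ZMod 3) : (baseF enc j).Valid := by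
  refine ⟨FP_valid _ _ _ (by norm_num) (by norm_num), FP_valid _ _ _ (by norm_num) (by norm_num),
    FP_valid _ _ _ (by norm_num) (by norm_num), conjAll_valid fun x => ?_⟩
  exact FP_valid _ _ _ (by norm_num [w]) (by norm_num [w])

lemma dataF_valid {Q : Type} [Fintype Q] (enc : Lab Q → ℕ) (j : ZMod 3) {x : Fin 4 → ℚ}
    (hx : ∀ i, 0 ≤ x i ∧ x i ≤ 1) : (dataF enc j x).Valid := by
  refine conjAll_valid fun i => ⟨?_, ?_⟩
  · exact FP_valid _ _ _ (w_bounds (hx i).1 (hx i).2).1 (w_bounds (hx i).1 (hx i).2).2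
  · have h0 : 0 ≤ x i ^ 2 := sq_nonneg _
    have h1 : x i ^ 2 ≤ 1 := pow_le_one₀ (hx i).1 (hx i).2
    exact FP_valid _ _ _ (w_bounds h0 h1).1 (w_bounds h0 h1).2

lemma stepF_valid {Q : Type} [Fintype Q] (enc : Lab Q → ℕ) (j : ZMod 3) (τ : Trans Q)
    (h : 0 ≤ τ.lo ∧ τ.lo ≤ 1 ∧ 0 ≤ τ.hi ∧ τ.hi ≤ 1) : (stepF enc j τ).Valid := by
  obtain ⟨h1, h2, h3, h4⟩ := h
  refine ⟨FP_valid _ _ _ (w_bounds h1 h2).1 (w_bounds h1 h2).2,
    FP_valid _ _ _ (w_bounds h3 h4).1 (w_bounds h3 h4).2,
    FP_valid _ _ _ (by norm_num) (by norm_num), FP_valid _ _ _ (by norm_num) (by norm_num),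
    FP_valid _ _ _ (by norm_num) (by norm_num), conjAll_valid fun i => ⟨?_, ?_⟩⟩
  · exact FP_valid _ _ _ (cX_bounds _).1 (cX_bounds _).2
  · exact FP_valid _ _ _ (cY_bounds _).1 (cY_bounds _).2

lemma x0_bounds : 0 ≤ x0 ∧ x0 ≤ 1 := by
  unfold x0; norm_num

lemma machF_valid {Q : Type} [Fintype Q] (enc : Lab Q → ℕ) (prog : Prog Q)
    (hp : ∀ q l, prog q = some l → ∀ τ ∈ l, 0 ≤ τ.lo ∧ τ.lo ≤ 1 ∧ 0 ≤ τ.hi ∧ τ.hi ≤ 1)
    (q : Q) {x : Fin 4 → ℚ} (hx : ∀ i, 0 ≤ x i ∧ x i ≤ 1) : (machF enc prog q x).Valid := by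
  refine ⟨⟨?_, le_rfl, zero_le_one⟩, lam_valid _, dataF_valid _ _ hx⟩
  refine ⟨conjAll_valid fun L => ?_, conjAll_valid fun y => ?_⟩
  · split_ifs
    · exact ⟨lam_valid _, lam_valid _, le_rfl, zero_le_one⟩
    · exact ftrue_valid
  · refine ⟨lam_valid _, ?_⟩
    cases h : prog y.2 with
    | none => exact ⟨baseF_valid _ _, dataF_valid _ _ fun _ => x0_bounds⟩
    | some l =>
      refine ⟨baseF_valid _ _, disj_valid fun φ hφ => ?_⟩
      obtain ⟨τ, hτ, rfl⟩ := List.mem_map.1 hφ
      exact stepF_valid _ _ _ (hp _ _ h τ hτ)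

lemma grd_bounds (k : K') (o : Option Γ') (q : Ctl) (op : Fin 4 → Op) :
    0 ≤ (grd k o q op).lo ∧ (grd k o q op).lo ≤ 1 ∧ 0 ≤ (grd k o q op).hi ∧
      (grd k o q op).hi ≤ 1 := by
  have h : tix o ≤ 4 := by
    cases o with
    | none => simp [tix]
    | some c => exact Op.dv_le _
  have h1 : (tix o : ℚ) ≤ 4 := by exact_mod_cast h
  have h0 : (0 : ℚ) ≤ (tix o : ℚ) := by positivity
  simp only [grd]
  refine ⟨?_, ?_, ?_, ?_⟩ <;> linarith

lemma sim_bounds (q : Ctl) (l : List (Trans Ctl)) (h : sim q = some l) (τ : Trans Ctl)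
    (hτ : τ ∈ l) : 0 ≤ τ.lo ∧ τ.lo ≤ 1 ∧ 0 ≤ τ.hi ∧ τ.hi ≤ 1 := by
  have hj : ∀ (q : Ctl) (op : Fin 4 → Op), 0 ≤ (jmp q op).lo ∧ (jmp q op).lo ≤ 1 ∧
      0 ≤ (jmp q op).hi ∧ (jmp q op).hi ≤ 1 := by
    intro q op
    simp [jmp]
  cases q with
  | fin => cases h
  | clear =>
    simp only [sim, Option.some.injEq] at h
    subst h
    obtain ⟨o, _, rfl⟩ := List.mem_map.1 hτ
    exact grd_bounds _ _ _ _
  | run s v =>
    cases s <;> simp only [sim, Option.some.injEq] at h <;> subst h <;>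
      first
      | (rw [List.mem_singleton] at hτ; subst hτ; exact hj _ _)
      | (obtain ⟨o, _, rfl⟩ := List.mem_map.1 hτ; exact grd_bounds _ _ _ _)

lemma restr_bounds {A : Set Ctl} (q : A) (l : List (Trans A)) (h : restr sim A q = some l)
    (τ : Trans A) (hτ : τ ∈ l) : 0 ≤ τ.lo ∧ τ.lo ≤ 1 ∧ 0 ≤ τ.hi ∧ τ.hi ≤ 1 := by
  obtain ⟨l', hl', rfl⟩ := Option.map_eq_some_iff.1 h
  obtain ⟨τ', hτ', he⟩ := List.mem_filterMap.1 hτ
  unfold rtr at he
  by_cases hA : τ'.tgt ∈ A
  · rw [dif_pos hA, Option.some.injEq] at he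
    subst he
    exact sim_bounds q.1 l' hl' τ' hτ'
  · rw [dif_neg hA] at he
    cases he

/-! ### computability of the codes -/

lemma coprime_aux {u e k : ℕ} (h : u % 10 = 1) : Nat.Coprime u (2 ^ e * 5 ^ k) := by
  have h2 : Nat.Coprime u 2 := by
    rw [Nat.coprime_comm, Nat.Prime.coprime_iff_not_dvd Nat.prime_two]
    omega
  have h5 : Nat.Coprime u 5 := by
    rw [Nat.coprime_comm, Nat.Prime.coprime_iff_not_dvd Nat.prime_five]
    omega
  exact Nat.Coprime.mul_right (Nat.Coprime.pow_right _ h2) (Nat.Coprime.pow_right _ h5)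

lemma num_den_aux {u v : ℕ} (hv : 0 < v) (h : Nat.Coprime u v) :
    (((u : ℚ) / (v : ℚ)).num.toNat = u) ∧ ((u : ℚ) / (v : ℚ)).den = v := by
  have h1 := Rat.num_div_eq_of_coprime (a := (u : ℤ)) (b := (v : ℤ)) (by exact_mod_cast hv)
    (by simpa using h)
  have h2 := Rat.den_div_eq_of_coprime (a := (u : ℤ)) (b := (v : ℤ)) (by exact_mod_cast hv)
    (by simpa using h)
  push_cast at h1 h2
  constructor
  · rw [h1]; simp
  · exact_mod_cast h2

lemma rX_aux (n : ℕ) :
    ((1 / 2 + w * val (inp n) : ℚ).num.toNat = 4000 * (numpow n).2 + (numpow n).1) ∧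
    (1 / 2 + w * val (inp n) : ℚ).den = 8000 * (numpow n).2 := by
  have h1 : (1 / 2 + w * val (inp n) : ℚ) =
      ((4000 * (numpow n).2 + (numpow n).1 : ℕ) : ℚ) / ((8000 * (numpow n).2 : ℕ) : ℚ) := by
    rw [val_eq]
    unfold numpow w
    push_cast
    field_simp
    ring
  rw [h1]
  apply num_den_aux
  · unfold numpow
    positivity
  · unfold numpow
    have h2 : 8000 * 5 ^ (inp n).length = 2 ^ 6 * 5 ^ ((inp n).length + 3) := by
      rw [pow_add]; ring
    simp only [h2]
    apply coprime_aux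
    have := num_mod (inp n)
    omega

lemma rY_aux (n : ℕ) :
    ((1 / 2 + w * val (inp n) ^ 2 : ℚ).num.toNat =
      40000 * (numpow n).2 ^ 2 + (numpow n).1 ^ 2) ∧
    (1 / 2 + w * val (inp n) ^ 2 : ℚ).den = 80000 * (numpow n).2 ^ 2 := by
  have h1 : (1 / 2 + w * val (inp n) ^ 2 : ℚ) =
      ((40000 * (numpow n).2 ^ 2 + (numpow n).1 ^ 2 : ℕ) : ℚ) /
        ((80000 * (numpow n).2 ^ 2 : ℕ) : ℚ) := by
    rw [val_eq]
    unfold numpow w
    push_cast
    field_simp
    ring
  rw [h1]
  apply num_den_aux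
  · unfold numpow
    positivity
  · unfold numpow
    have h2 : 80000 * (5 ^ (inp n).length) ^ 2 = 2 ^ 7 * 5 ^ ((inp n).length * 2 + 4) := by
      rw [pow_add, pow_mul]; ring
    simp only [h2]
    apply coprime_aux
    have h3 := num_mod (inp n)
    have h4 : num (inp n) ^ 2 % 10 = 1 := by
      rw [Nat.pow_mod, h3]
    omega

/-- the initial values -/
def xn (n : ℕ) (i : Fin 4) : ℚ := if i = 0 then val (inp n) else x0

lemma xn_bounds (n : ℕ) (i : Fin 4) : 0 ≤ xn n i ∧ xn n i ≤ 1 := by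
  unfold xn
  split_ifs
  · obtain ⟨_, _, h3, h4⟩ := val_bounds (inp n)
    exact ⟨h3.le, h4.le⟩
  · exact x0_bounds

lemma primrec_pair {f g : ℕ → ℕ} (hf : Primrec f) (hg : Primrec g) :
    Primrec fun n => Nat.pair (f n) (g n) := Primrec₂.natPair.comp hf hg

lemma primrec_conj {ι : Type} {f : ι → ℕ → Formula} (h : ∀ i, Primrec fun n => (f i n).code)
    (l : List ι) : Primrec fun n => (conj (l.map fun i => f i n)).code := by
  induction l with
  | nil => exact Primrec.const _
  | cons i l ih =>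
    exact primrec_pair (Primrec.const 2) (primrec_pair (h i) ih)

lemma primrec_dataF {Q : Type} [Fintype Q] (enc : Lab Q → ℕ) (j : ZMod 3) :
    Primrec fun n => (dataF enc j (xn n)).code := by
  refine primrec_conj (f := fun (i : Fin 4) n => _) (fun i => ?_) _
  have h1 : Primrec fun n => (numpow n).1 := Primrec.fst.comp primrec_numpow
  have h2 : Primrec fun n => (numpow n).2 := Primrec.snd.comp primrec_numpow
  have h3 : Primrec fun n => (numpow n).1 ^ 2 := by
    simp only [sq]
    exact Primrec.nat_mul.comp h1 h1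
  have h4 : Primrec fun n => (numpow n).2 ^ 2 := by
    simp only [sq]
    exact Primrec.nat_mul.comp h2 h2
  refine primrec_pair (Primrec.const 2) (primrec_pair ?_ ?_)
  · refine primrec_pair (Primrec.const 4) (primrec_pair (Primrec.const _)
      (primrec_pair (Primrec.const _) (primrec_pair ?_ ?_)))
    · by_cases hi : i = 0
      · simp only [xn, hi, if_true, (rX_aux _).1]
        exact Primrec.nat_add.comp (Primrec.nat_mul.comp (Primrec.const _) h2) h1
      · simp only [xn, hi, if_false]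
        exact Primrec.const _
    · by_cases hi : i = 0
      · simp only [xn, hi, if_true, (rX_aux _).2]
        exact Primrec.nat_mul.comp (Primrec.const _) h2
      · simp only [xn, hi, if_false]
        exact Primrec.const _
  · refine primrec_pair (Primrec.const 4) (primrec_pair (Primrec.const _)
      (primrec_pair (Primrec.const _) (primrec_pair ?_ ?_)))
    · by_cases hi : i = 0
      · simp only [xn, hi, if_true, (rY_aux _).1]
        exact Primrec.nat_add.comp (Primrec.nat_mul.comp (Primrec.const _) h4) h3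
      · simp only [xn, hi, if_false]
        exact Primrec.const _
    · by_cases hi : i = 0
      · simp only [xn, hi, if_true, (rY_aux _).2]
        exact Primrec.nat_mul.comp (Primrec.const _) h4
      · simp only [xn, hi, if_false]
        exact Primrec.const _

lemma primrec_machF {Q : Type} [Fintype Q] (enc : Lab Q → ℕ) (prog : Prog Q) (q : Q) :
    Primrec fun n => (machF enc prog q (xn n)).code :=
  primrec_pair (Primrec.const 2) (primrec_pair (Primrec.const _)
    (primrec_pair (Primrec.const 2) (primrec_pair (Primrec.const _) (primrec_dataF enc 0))))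

/-! ### the reduction -/

lemma X_init (n : ℕ) : X (K'.elim (inp n) [] [] []) = fun i => (xn n i : ℝ) := by
  funext i
  fin_cases i <;> simp [X, fk, xn, val]

theorem reduction (c : ToPartrec.Code) : ∃ F : ℕ → Formula, (∀ n, (F n).Valid) ∧
    (Primrec fun n => (F n).code) ∧ ∀ n, (c.eval [n]).Dom ↔ HasTreeLikeModel (F n) := by
  classical
  set U := codeSupp c Cont'.halt with hUdef
  have hU : ∀ l ∈ U, TM2.SupportsStmt U (trs l) := codeSupp_supports (Finset.Subset.refl _)
  set A := ctls U with hAdef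
  have hA := ctls_closed hU
  have : Fintype A := (ctls_finite U).fintype
  set l0 := trNormal c Cont'.halt with hl0
  have hl0U : l0 ∈ U := codeSupp_self _ _ (trStmts₁_self _)
  have hq0 : Ctl.run (trs l0) none ∈ A := Or.inr (Or.inr ⟨l0, hl0U, _, TM2.stmts₁_self, _, rfl⟩)
  obtain ⟨enc, henc⟩ : ∃ enc : Lab A → ℕ, Function.Injective enc :=
    ⟨fun L => (Fintype.equivFin (Lab A) L : ℕ), fun a b h =>
      (Fintype.equivFin (Lab A)).injective (Fin.ext h)⟩
  refine ⟨fun n => machF enc (restr sim A) ⟨_, hq0⟩ (xn n),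
    fun n => machF_valid enc _ restr_bounds _ (xn_bounds n), primrec_machF _ _ _, fun n => ?_⟩
  have hinit : init c [n] = (⟨some l0, none, K'.elim (inp n) [] [] []⟩ : TCfg) := rfl
  have heval := tr_eval c [n]
  constructor
  · intro hdom
    have h1 : ∃ v, halt v ∈ StateTransition.eval (TM2.step tr) (init c [n]) := by
      rw [heval]
      obtain ⟨v, hv⟩ := Part.dom_iff_mem.1 hdom
      exact ⟨v, Part.mem_map halt hv⟩
    obtain ⟨v, hv⟩ := h1
    have h2 : CfgRun (init c [n]) := good_of_eval hv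
    have h3 : GoodRun sim (Ctl.run (trs l0) none) (X (K'.elim (inp n) [] [] [])) := h2
    rw [X_init] at h3
    exact sat_of_goodRun henc (goodRun_restr sim A hA h3 hq0)
  · rintro ⟨S, inst, M, hT, s, hs⟩
    have h1 := halts_of_restr sim A (halts_of_sat henc hT hs)
    have h2 := dom_of_halts _ _ h1 (trs l0) none (K'.elim (inp n) [] [] []) rfl (X_init n).symm
    have h3 : (StateTransition.eval (TM2.step tr) (init c [n])).Dom := by
      have hr : StateTransition.Reaches (TM2.step trs) (init c [n])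
          (TM2.stepAux (trs l0) none (K'.elim (inp n) [] [] [])) :=
        Relation.ReflTransGen.single rfl
      have := StateTransition.reaches_eval hr
      have h4 : (StateTransition.eval (TM2.step trs) (init c [n])).Dom := by
        rw [this]; exact h2
      exact h4
    rw [heval] at h3
    exact h3

/-- every r.e. problem reduces to the satisfiability problem over tree-like models -/
theorem re_hard (p : ℕ → Prop) (hp : REPred p) : ∃ F : ℕ → Formula, (∀ n, (F n).Valid) ∧
    (Primrec fun n => (F n).code) ∧ ∀ n, p n ↔ HasTreeLikeModel (F n) := by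
  have h1 : Partrec (fun n => (Part.assert (p n) fun _ => Part.some ()).map fun _ => 0 :
      ℕ →. ℕ) := Partrec.map hp (Computable.const 0).to₂
  obtain ⟨c, hc⟩ := ToPartrec.Code.exists_code (Nat.Partrec'.part_iff₁.2 h1)
  obtain ⟨F, hF1, hF2, hF3⟩ := reduction c
  refine ⟨F, hF1, hF2, fun n => ?_⟩
  rw [← hF3 n]
  have h2 := hc (n ::ᵥ List.Vector.nil)
  have h3 : (n ::ᵥ List.Vector.nil : List.Vector ℕ 1).1 = [n] := rfl
  rw [h3] at h2
  rw [h2]
  simp [Part.assert]

lemma Cmp.code_inj {a b : Cmp} (h : a.code = b.code) : a = b := by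
  cases a <;> cases b <;> first | rfl | (simp [Cmp.code] at h)

/-- the Goedel numbering is injective on valid formulas -/
theorem code_inj : ∀ φ ψ : Formula, φ.Valid → ψ.Valid → φ.code = ψ.code → φ = ψ := by
  have hrat : ∀ r r' : ℚ, 0 ≤ r → 0 ≤ r' → r.num.toNat = r'.num.toNat → r.den = r'.den →
      r = r' := by
    intro r r' h0 h0' h1 h2
    refine Rat.ext ?_ h2
    have := Rat.num_nonneg.2 h0
    have := Rat.num_nonneg.2 h0'
    omega
  intro φ
  induction φ with
  | atom a =>
    intro ψ _ _ h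
    cases ψ <;> simp only [Formula.code, Nat.pair_eq_pair] at h
    case atom => rw [h.2]
    all_goals exact absurd h.1 (by norm_num)
  | neg φ ih =>
    intro ψ h1 h2 h
    cases ψ <;> simp only [Formula.code, Nat.pair_eq_pair] at h
    case neg ψ' => rw [ih ψ' h1 h2 h.2]
    all_goals exact absurd h.1 (by norm_num)
  | and φ φ' ih ih' =>
    intro ψ h1 h2 h
    cases ψ <;> simp only [Formula.code, Nat.pair_eq_pair] at h
    case and => rw [ih _ h1.1 h2.1 h.2.1, ih' _ h1.2 h2.2 h.2.2]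
    all_goals exact absurd h.1 (by norm_num)
  | or φ φ' ih ih' =>
    intro ψ h1 h2 h
    cases ψ <;> simp only [Formula.code, Nat.pair_eq_pair] at h
    case or => rw [ih _ h1.1 h2.1 h.2.1, ih' _ h1.2 h2.2 h.2.2]
    all_goals exact absurd h.1 (by norm_num)
  | probF φ c r ih =>
    intro ψ h1 h2 h
    cases ψ <;> simp only [Formula.code, Nat.pair_eq_pair] at h
    case probF =>
      rw [ih _ h1.1 h2.1 h.2.1, Cmp.code_inj h.2.2.1,
        hrat _ _ h1.2.1 h2.2.1 h.2.2.2.1 h.2.2.2.2]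
    all_goals exact absurd h.1 (by norm_num)
  | probG φ c r ih =>
    intro ψ h1 h2 h
    cases ψ <;> simp only [Formula.code, Nat.pair_eq_pair] at h
    case probG =>
      rw [ih _ h1.1 h2.1 h.2.1, Cmp.code_inj h.2.2.1,
        hrat _ _ h1.2.1 h2.2.1 h.2.2.2.1 h.2.2.2.2]
    all_goals exact absurd h.1 (by norm_num)

/-- satisfiability over tree-like models is undecidable -/
theorem undecidable : ¬ ∃ f : ℕ →. Bool, Partrec f ∧
    ∀ φ : Formula, φ.Valid → ∃ b ∈ f φ.code, (b = true ↔ HasTreeLikeModel φ) := by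
  rintro ⟨f, hf, h⟩
  have hre : REPred fun n : ℕ => (Nat.Partrec.Code.eval (Denumerable.ofNat Nat.Partrec.Code n)
      0).Dom := (Nat.Partrec.Code.eval_part.comp (Computable.ofNat _)
        (Computable.const 0)).dom_re
  obtain ⟨F, hF1, hF2, hF3⟩ := re_hard _ hre
  apply ComputablePred.halting_problem 0
  rw [ComputablePred.computable_iff]
  choose g hg1 hg2 using fun n => h (F n) (hF1 n)
  have hg : Computable g := by
    refine (hf.comp hF2.to_comp).of_eq_tot fun n => hg1 n
  refine ⟨fun c => g (Encodable.encode c), hg.comp Computable.encode, ?_⟩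
  funext c
  have h1 := hg2 (Encodable.encode c)
  rw [← hF3, Denumerable.ofNat_encode] at h1
  exact propext h1.symm

end Pool.Agent.Lib.MP_1d78e3_lc
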