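import Pool.Agent.Lib.MP_1d78e3_lc.Tree
import Pool.Agent.Lib.MP_1d78e3_lc.Exact

set_option autoImplicit false
set_option linter.unusedSectionVars false

/-!
# The formula of an affine machine
-/

namespace Pool.Agent.Lib.MP_1d78e3_lc

open Finset Relation Lab

/-- the true formula -/
def ftrue : Formula := Formula.or (Formula.atom 0) (Formula.neg (Formula.atom 0))

/-- the false formula -/
def ffalse : Formula := Formula.and (Formula.atom 0) (Formula.neg (Formula.atom 0))

/-- finite conjunction -/
def conj (l : List Formula) : Formula := l.foldr Formula.and ftrue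

/-- finite disjunction -/
def disj (l : List Formula) : Formula := l.foldr Formula.or ffalse

/-- finite conjunction over a finite type -/
noncomputable def conjAll {ι : Type} [Fintype ι] (f : ι → Formula) : Formula :=
  conj (Finset.univ.toList.map f)

/-- the atomic proposition `n` is the first true one -/
def lam (n : ℕ) : Formula :=
  Formula.and (Formula.atom n) (conj ((List.range n).map fun m => Formula.neg (Formula.atom m)))

lemma ftrue_valid : ftrue.Valid := ⟨trivial, trivial⟩
lemma ffalse_valid : ffalse.Valid := ⟨trivial, trivial⟩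

lemma conj_valid {l : List Formula} (h : ∀ φ ∈ l, φ.Valid) : (conj l).Valid := by
  induction l with
  | nil => exact ftrue_valid
  | cons φ l ih =>
    exact ⟨h φ (by simp), ih fun ψ hψ => h ψ (by simp [hψ])⟩

lemma disj_valid {l : List Formula} (h : ∀ φ ∈ l, φ.Valid) : (disj l).Valid := by
  induction l with
  | nil => exact ffalse_valid
  | cons φ l ih =>
    exact ⟨h φ (by simp), ih fun ψ hψ => h ψ (by simp [hψ])⟩

lemma conjAll_valid {ι : Type} [Fintype ι] {f : ι → Formula} (h : ∀ i, (f i).Valid) :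
    (conjAll f).Valid := by
  refine conj_valid fun φ hφ => ?_
  obtain ⟨i, _, rfl⟩ := List.mem_map.1 hφ
  exact h i

lemma lam_valid (n : ℕ) : (lam n).Valid := by
  refine ⟨trivial, conj_valid fun φ hφ => ?_⟩
  obtain ⟨i, _, rfl⟩ := List.mem_map.1 hφ
  exact trivial

namespace MarkovChain

variable {S : Type} [Fintype S] (M : MarkovChain S)

lemma sat_ftrue (s : S) : M.Sat s ftrue := by
  by_cases h : 0 ∈ M.v s
  · exact Or.inl h
  · exact Or.inr h

lemma not_sat_ffalse (s : S) : ¬ M.Sat s ffalse := fun h => h.2 h.1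

lemma sat_conj (s : S) (l : List Formula) : M.Sat s (conj l) ↔ ∀ φ ∈ l, M.Sat s φ := by
  induction l with
  | nil => exact ⟨fun _ φ hφ => absurd hφ (by simp), fun _ => M.sat_ftrue s⟩
  | cons φ l ih =>
    constructor
    · rintro ⟨h1, h2⟩ ψ hψ
      rcases List.mem_cons.1 hψ with rfl | hψ
      · exact h1
      · exact ih.1 h2 ψ hψ
    · intro h
      exact ⟨h φ (by simp), ih.2 fun ψ hψ => h ψ (by simp [hψ])⟩

lemma sat_disj (s : S) (l : List Formula) : M.Sat s (disj l) ↔ ∃ φ ∈ l, M.Sat s φ := by
  induction l with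
  | nil => exact ⟨fun h => absurd h (M.not_sat_ffalse s), fun ⟨φ, hφ, _⟩ => absurd hφ (by simp)⟩
  | cons φ l ih =>
    constructor
    · rintro (h1 | h2)
      · exact ⟨φ, by simp, h1⟩
      · obtain ⟨ψ, hψ, h3⟩ := ih.1 h2
        exact ⟨ψ, by simp [hψ], h3⟩
    · rintro ⟨ψ, hψ, h⟩
      rcases List.mem_cons.1 hψ with rfl | hψ
      · exact Or.inl h
      · exact Or.inr (ih.2 ⟨ψ, hψ, h⟩)

lemma sat_conjAll {ι : Type} [Fintype ι] (s : S) (f : ι → Formula) :
    M.Sat s (conjAll f) ↔ ∀ i, M.Sat s (f i) := by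
  unfold conjAll
  rw [sat_conj]
  constructor
  · intro h i
    exact h _ (List.mem_map.2 ⟨i, by simp, rfl⟩)
  · intro h φ hφ
    obtain ⟨i, _, rfl⟩ := List.mem_map.1 hφ
    exact h i

/-- `n` is the first true atomic proposition -/
def IsLab (n : ℕ) (s : S) : Prop := n ∈ M.v s ∧ ∀ m < n, m ∉ M.v s

lemma sat_lam (s : S) (n : ℕ) : M.Sat s (lam n) ↔ M.IsLab n s := by
  unfold lam IsLab
  constructor
  · rintro ⟨h1, h2⟩
    refine ⟨h1, fun m hm => ?_⟩
    exact (M.sat_conj s _).1 h2 _ (List.mem_map.2 ⟨m, List.mem_range.2 hm, rfl⟩)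
  · rintro ⟨h1, h2⟩
    refine ⟨h1, (M.sat_conj s _).2 fun φ hφ => ?_⟩
    obtain ⟨m, hm, rfl⟩ := List.mem_map.1 hφ
    exact h2 m (List.mem_range.1 hm)

lemma IsLab.unique {n m : ℕ} {s : S} (h1 : M.IsLab n s) (h2 : M.IsLab m s) : n = m := by
  rcases lt_trichotomy n m with h | h | h
  · exact absurd h1.1 (h2.2 n h)
  · exact h
  · exact absurd h2.1 (h1.2 m h)

open Classical in
/-- the label of a state -/
noncomputable def labOf {Λ : Type} (enc : Λ → ℕ) (s : S) : Option Λ :=
  if h : ∃ L, M.IsLab (enc L) s then some h.choose else none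

lemma labOf_eq {Λ : Type} {enc : Λ → ℕ} (henc : Function.Injective enc) {s : S} {L : Λ} :
    M.labOf enc s = some L ↔ M.IsLab (enc L) s := by
  classical
  unfold labOf
  constructor
  · intro h
    by_cases h1 : ∃ L, M.IsLab (enc L) s
    · rw [dif_pos h1] at h
      injection h with h
      rw [← h]
      exact h1.choose_spec
    · rw [dif_neg h1] at h
      exact absurd h (by simp)
  · intro h
    have h1 : ∃ L, M.IsLab (enc L) s := ⟨L, h⟩
    rw [dif_pos h1]
    congr 1
    exact henc (IsLab.unique M h1.choose_spec h)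

end MarkovChain

section

variable {S : Type} [Fintype S] {Λ : Type} [Fintype Λ]

open Classical in
/-- the label belongs to a set -/
noncomputable def inSet (enc : Λ → ℕ) (B : Set Λ) : Formula :=
  disj ((Finset.univ.filter fun L => L ∈ B).toList.map fun L => lam (enc L))

lemma inSet_valid (enc : Λ → ℕ) (B : Set Λ) : (inSet enc B).Valid := by
  refine disj_valid fun φ hφ => ?_
  obtain ⟨i, _, rfl⟩ := List.mem_map.1 hφ
  exact lam_valid _

lemma MarkovChain.sat_inSet (M : MarkovChain S) {enc : Λ → ℕ} (henc : Function.Injective enc)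
    (B : Set Λ) (s : S) : M.Sat s (inSet enc B) ↔ ∃ L ∈ B, M.labOf enc s = some L := by
  classical
  unfold inSet
  rw [M.sat_disj]
  constructor
  · rintro ⟨φ, hφ, h⟩
    obtain ⟨L, hL, rfl⟩ := List.mem_map.1 hφ
    rw [Finset.mem_toList, Finset.mem_filter] at hL
    exact ⟨L, hL.2, (M.labOf_eq henc).2 ((M.sat_lam _ _).1 h)⟩
  · rintro ⟨L, hL, h⟩
    refine ⟨_, List.mem_map.2 ⟨L, ?_, rfl⟩, (M.sat_lam _ _).2 ((M.labOf_eq henc).1 h)⟩
    rw [Finset.mem_toList, Finset.mem_filter]
    exact ⟨Finset.mem_univ _, hL⟩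

/-- probability of reaching a label in a set -/
noncomputable def FP (enc : Λ → ℕ) (B : Set Λ) (c : Cmp) (r : ℚ) : Formula :=
  Formula.probF (inSet enc B) c r

lemma FP_valid (enc : Λ → ℕ) (B : Set Λ) (c : Cmp) {r : ℚ} (h0 : 0 ≤ r) (h1 : r ≤ 1) :
    (FP enc B c r).Valid := ⟨inSet_valid _ _, h0, h1⟩

/-- reachability of a set of labels -/
noncomputable def MarkovChain.HH (M : MarkovChain S) (enc : Λ → ℕ) (B : Set Λ) (s : S) : ℝ :=
  M.reach {u | ∃ L ∈ B, M.labOf enc u = some L} s

lemma MarkovChain.sat_FP (M : MarkovChain S) {enc : Λ → ℕ} (henc : Function.Injective enc)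
    (B : Set Λ) (s : S) (c : Cmp) (r : ℚ) :
    M.Sat s (FP enc B c r) ↔ c.holds (M.HH enc B s) (r : ℝ) := by
  unfold FP MarkovChain.HH
  rw [M.sat_probF]
  simp only [M.sat_inSet henc]

end

section

variable {S : Type} [Fintype S] {Q : Type}

lemma reach_child {M : MarkovChain S} {A : Set S} {s u : S} (h : M.reach A s = 0)
    (hp : 0 < M.P s u) : M.reach A u = 0 := by
  have hs : s ∉ A := by
    intro hs
    rw [M.reach_of_mem hs] at h
    exact one_ne_zero h
  rw [M.reach_step hs] at h
  have hnn : ∀ v ∈ (Finset.univ : Finset S), 0 ≤ M.P s v * M.reach A v := fun v _ =>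
    mul_nonneg (M.nonneg s v) ENNReal.toReal_nonneg
  have h1 := (Finset.sum_eq_zero_iff_of_nonneg hnn).1 h u (Finset.mem_univ u)
  rcases mul_eq_zero.1 h1 with h2 | h2
  · exact absurd h2 hp.ne'
  · exact h2

open Classical in
/-- the environment of a tree-like Markov chain -/
noncomputable def envOf (M : MarkovChain S) (hT : M.TreeLike) (enc : Lab Q → ℕ) (G : Set S)
    (hG : ∀ s ∈ G, ∀ L : Lab Q, L ∈ AbL → M.labOf enc s = some L →
      M.reach {u | M.labOf enc u ≠ some L} s = 0) : Env S (Lab Q) where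
  p s u := if u = s then 0 else M.P s u
  nonneg s u := by
    split_ifs
    · exact le_rfl
    · exact M.nonneg s u
  sum_le s := by
    rw [← M.sum_one s]
    refine Finset.sum_le_sum fun u _ => ?_
    split_ifs
    · exact M.nonneg s u
    · exact le_rfl
  wf := by
    refine (MarkovChain.TreeLike.wf M hT).mono fun u s h => ?_
    by_cases hus : u = s
    · rw [if_pos hus] at h
      exact absurd h (lt_irrefl _)
    · rw [if_neg hus] at h
      exact ⟨hus, h⟩
  h A s := M.reach A s
  h_mem A s hs := M.reach_of_mem hs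
  h_not A s hs := by
    obtain ⟨root, _, _, _, hloop⟩ := hT
    by_cases he : M.Edge s s
    · have h1 := hloop s he
      rw [M.reach_absorbing hs h1]
      symm
      refine Finset.sum_eq_zero fun u _ => ?_
      by_cases hus : u = s
      · rw [if_pos hus, zero_mul]
      · rw [if_neg hus]
        have h2 := M.sum_one s
        rw [← Finset.add_sum_erase _ _ (Finset.mem_univ s), h1] at h2
        have h3 : ∑ x ∈ Finset.univ.erase s, M.P s x = 0 := by linarith
        have h4 := (Finset.sum_eq_zero_iff_of_nonneg fun x _ => M.nonneg s x).1 h3 u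
          (Finset.mem_erase.2 ⟨hus, Finset.mem_univ u⟩)
        rw [h4, zero_mul]
    · rw [M.reach_step hs]
      refine Finset.sum_congr rfl fun u _ => ?_
      by_cases hus : u = s
      · subst hus
        rw [if_pos rfl]
        have h0 : M.P u u = 0 := le_antisymm (not_lt.1 he) (M.nonneg u u)
        rw [h0]
      · rw [if_neg hus]
  lab s := M.labOf enc s
  Abs := AbL
  Good s := M.reach Gᶜ s = 0
  good_child s u hs hp := by
    by_cases hus : u = s
    · rw [if_pos hus] at hp
      exact absurd hp (lt_irrefl _)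
    · rw [if_neg hus] at hp
      exact reach_child hs hp
  persist s u L hs hl hL hp := by
    have hsG : s ∈ G := by
      by_contra hcon
      rw [M.reach_of_mem (A := Gᶜ) hcon] at hs
      exact one_ne_zero hs
    by_cases hus : u = s
    · rw [if_pos hus] at hp
      exact absurd hp (lt_irrefl _)
    · rw [if_neg hus] at hp
      have h1 := reach_child (hG s hsG L hL hl) hp
      by_contra hcon
      rw [M.reach_of_mem (A := {u | M.labOf enc u ≠ some L}) hcon] at h1
      exact one_ne_zero h1

end

end Pool.Agent.Lib.MP_1d78e3_lc
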