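import Pool.Agent.Lib.MP_1d78e3_lc.Env

set_option autoImplicit false
set_option linter.unusedSectionVars false

/-!
# Affine machines and the constraints on a labelled tree which force a run of the machine
-/

namespace Pool.Agent.Lib.MP_1d78e3_lc

open Finset Relation

/-- operations on one variable: nothing, push a digit, remove a digit -/
inductive Op : Type
  | nop : Op
  | push (d : Fin 4) : Op
  | pop (d : Fin 4) : Op

namespace Op

/-- digit value, `1, 2, 3, 4` -/
def dv (d : Fin 4) : ℕ := d + 1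

/-- slope of the update -/
def a : Op → ℚ
  | nop => 1
  | push _ => 1 / 5
  | pop _ => 5

/-- constant term of the update -/
def b : Op → ℚ
  | nop => 0
  | push d => dv d / 5
  | pop d => - dv d

/-- numbers of copies used in the constraints -/
def αX : Op → ℕ
  | nop => 1
  | push _ => 1
  | pop _ => 5

def βX : Op → ℕ
  | nop => 2
  | push _ => 10
  | pop _ => 2

def αY : Op → ℕ
  | nop => 1
  | push _ => 1
  | pop _ => 25

def βY : Op → ℕ
  | nop => 2
  | push _ => 50
  | pop _ => 2

def γ : Op → ℕ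
  | nop => 0
  | push d => 2 * dv d
  | pop d => 10 * dv d

/-- sign of the cross term -/
def sgn : Op → Bool
  | nop => false
  | push _ => false
  | pop _ => true

lemma a_ne (o : Op) : o.a ≠ 0 := by
  cases o <;> norm_num [a]

lemma hX (o : Op) : 2 * (o.αX : ℚ) = o.a * o.βX := by
  cases o <;> norm_num [a, αX, βX]

lemma hY (o : Op) : 2 * (o.αY : ℚ) = o.a ^ 2 * o.βY := by
  cases o <;> norm_num [a, αY, βY]

lemma hγ (o : Op) : (if o.sgn then - (o.γ : ℚ) else o.γ) = o.a * o.b * o.βY := by
  cases o with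
  | nop => norm_num [a, b, βY, γ, sgn]
  | push d =>
    simp only [a, b, βY, γ, sgn]
    push_cast
    norm_num
    ring
  | pop d =>
    simp only [a, b, βY, γ, sgn]
    push_cast
    norm_num
    ring

lemma dv_le (d : Fin 4) : dv d ≤ 4 := by
  unfold dv; omega

lemma one_le_dv (d : Fin 4) : 1 ≤ dv d := by
  unfold dv; omega

lemma αX_le (o : Op) : o.αX ≤ 50 := by cases o <;> simp [αX]
lemma βX_le (o : Op) : o.βX ≤ 50 := by cases o <;> simp [βX]
lemma αY_le (o : Op) : o.αY ≤ 50 := by cases o <;> simp [αY]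
lemma βY_le (o : Op) : o.βY ≤ 50 := by cases o <;> simp [βY]
lemma γ_le (o : Op) : o.γ ≤ 50 := by
  cases o with
  | nop => simp [γ]
  | push d => have := dv_le d; simp only [γ]; omega
  | pop d => have := dv_le d; simp only [γ]; omega
lemma βX_pos (o : Op) : 0 < o.βX := by cases o <;> simp [βX]
lemma βY_pos (o : Op) : 0 < o.βY := by cases o <;> simp [βY]

/-- action on a value -/
noncomputable def act (o : Op) (x : ℝ) : ℝ := (o.a : ℝ) * x + (o.b : ℝ)

end Op

/-- the unit weight of the data exits -/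
def w : ℚ := 1 / 800

/-- a transition of an affine machine on four variables -/
structure Trans (Q : Type) where
  /-- the guard variable -/
  g : Fin 4
  /-- lower bound of the guard -/
  lo : ℚ
  /-- upper bound of the guard -/
  hi : ℚ
  /-- the next control state -/
  tgt : Q
  /-- the operations on the variables -/
  op : Fin 4 → Op

/-- an affine machine: each control state is halting (`none`) or has a list of transitions -/
abbrev Prog (Q : Type) := Q → Option (List (Trans Q))

/-- The machine reaches a halting control state from the configuration `(q, x)`. -/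
inductive Halts {Q : Type} (prog : Prog Q) : Q → (Fin 4 → ℝ) → Prop
  | halt (q : Q) (x : Fin 4 → ℝ) : prog q = none → Halts prog q x
  | step (q : Q) (x : Fin 4 → ℝ) (l : List (Trans Q)) (τ : Trans Q) : prog q = some l → τ ∈ l →
      (τ.lo : ℝ) ≤ x τ.g → x τ.g ≤ (τ.hi : ℝ) → Halts prog τ.tgt (fun i => (τ.op i).act (x i)) →
      Halts prog q x

/-- labels of the states of the Markov chain -/
inductive Lab (Q : Type) : Type
  | V (j : ZMod 3) (q : Option Q) : Lab Q
  | D (j : ZMod 3) (i : Fin 4) (y neg : Bool) (r : Fin 50) : Lab Q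

namespace Lab

variable {Q : Type}

/-- stage nodes of stage `j` -/
def VS (j : ZMod 3) : Set (Lab Q) := {L | ∃ q, L = V j q}

/-- data exits of stage `j` -/
def DS (j : ZMod 3) : Set (Lab Q) := {L | ∃ i y n r, L = D j i y n r}

/-- absorbing labels -/
def AbL : Set (Lab Q) := {L | (∃ j, L = V j none) ∨ ∃ j, L ∈ DS j}

/-- the target label -/
def TS (j : ZMod 3) (q : Q) : Set (Lab Q) := {V j (some q)}

lemma D_mem_AbL (j : ZMod 3) (i : Fin 4) (y n : Bool) (r : Fin 50) : (D j i y n r : Lab Q) ∈ AbL :=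
  Or.inr ⟨j, i, y, n, r, rfl⟩

lemma D_not_mem_VS {j j' : ZMod 3} {i : Fin 4} {y n : Bool} {r : Fin 50} :
    (D j i y n r : Lab Q) ∉ VS j' := by
  rintro ⟨q, h⟩
  cases h

lemma V_not_mem_DS {j j' : ZMod 3} {q : Option Q} : (V j q : Lab Q) ∉ DS j' := by
  rintro ⟨i, y, n, r, h⟩
  cases h

lemma TS_sub (j : ZMod 3) (q : Q) : TS j q ⊆ VS j := by
  rintro _ rfl
  exact ⟨some q, rfl⟩

lemma stage_ne1 (j : ZMod 3) : j + 1 ≠ j := by revert j; decide
lemma stage_ne2 (j : ZMod 3) : j + 2 ≠ j := by revert j; decide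
lemma stage_ne3 (j : ZMod 3) : j + 2 ≠ j + 1 := by revert j; decide
lemma stage_11 (j : ZMod 3) : j + 1 + 1 = j + 2 := by revert j; decide
lemma stage_12 (j : ZMod 3) : j + 1 + 2 = j := by revert j; decide
lemma stage_22 (j : ZMod 3) : j + 2 + 2 = j + 1 := by revert j; decide

/-- the copies of a data exit -/
def emb (j : ZMod 3) (i : Fin 4) (y neg : Bool) : Fin 50 ↪ Lab Q where
  toFun r := D j i y neg r
  inj' := by
    intro r r' h
    injection h

/-- copies number `0, ..., n - 1` of a data exit -/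
def cop (j : ZMod 3) (i : Fin 4) (y neg : Bool) (n : ℕ) : Finset (Lab Q) :=
  (Finset.univ.filter fun r : Fin 50 => (r : ℕ) < n).map (emb j i y neg)

lemma mem_cop {j : ZMod 3} {i : Fin 4} {y neg : Bool} {n : ℕ} {L : Lab Q} :
    L ∈ cop j i y neg n ↔ ∃ r : Fin 50, (r : ℕ) < n ∧ L = D j i y neg r := by
  unfold cop
  rw [Finset.mem_map]
  constructor
  · rintro ⟨r, h1, h2⟩
    exact ⟨r, (Finset.mem_filter.1 h1).2, h2.symm⟩
  · rintro ⟨r, h1, h2⟩
    exact ⟨r, Finset.mem_filter.2 ⟨Finset.mem_univ _, h1⟩, h2.symm⟩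

lemma sum_cop (j : ZMod 3) (i : Fin 4) (y neg : Bool) {n : ℕ} (hn : n ≤ 50) (f : Lab Q → ℝ)
    {c : ℝ} (h : ∀ r, f (D j i y neg r) = c) : ∑ L ∈ cop j i y neg n, f L = n * c := by
  unfold cop
  rw [Finset.sum_map]
  have h1 : ∀ r ∈ (Finset.univ.filter fun r : Fin 50 => (r : ℕ) < n),
      f (emb j i y neg r) = c := fun r _ => h r
  rw [Finset.sum_congr rfl h1, Finset.sum_const, nsmul_eq_mul]
  congr 2
  have : (Finset.univ.filter fun r : Fin 50 => (r : ℕ) < n) =
      (Finset.univ : Finset (Fin n)).map (Fin.castLEEmb hn) := by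
    ext r
    simp only [Finset.mem_filter, Finset.mem_univ, true_and, Finset.mem_map]
    constructor
    · intro hr
      exact ⟨⟨r, hr⟩, rfl⟩
    · rintro ⟨r', rfl⟩
      exact r'.2
  rw [this]
  simp

/-- all data exits of stage `j` -/
def DF (j : ZMod 3) : Finset (Lab Q) :=
  (Finset.univ : Finset (Fin 4 × Bool × Bool × Fin 50)).map
    ⟨fun x => D j x.1 x.2.1 x.2.2.1 x.2.2.2, by
      rintro ⟨i, y, n, r⟩ ⟨i', y', n', r'⟩ h
      simp only [D.injEq, true_and] at h
      obtain ⟨h1, h2, h3, h4⟩ := h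
      subst h1; subst h2; subst h3; subst h4; rfl⟩

lemma coe_DF (j : ZMod 3) : (↑(DF j : Finset (Lab Q)) : Set (Lab Q)) = DS j := by
  ext L
  simp only [DF, Finset.coe_map, Function.Embedding.coeFn_mk, Finset.coe_univ, Set.image_univ,
    Set.mem_range, Prod.exists, DS, Set.mem_ofPred_eq]
  constructor
  · rintro ⟨i, y, n, r, h⟩
    exact ⟨i, y, n, r, h.symm⟩
  · rintro ⟨i, y, n, r, h⟩
    exact ⟨i, y, n, r, h.symm⟩

end Lab

end Pool.Agent.Lib.MP_1d78e3_lc
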