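import Pool.Agent.Lib.MP_1d78e3_lc.Reduce

set_option autoImplicit false
set_option linter.unusedSectionVars false

/-!
# The tree-like model of a halting run
-/

namespace Pool.Agent.Lib.MP_1d78e3_lc

open Finset Relation Lab

/-- halting runs with all values in `(0,1)` and ending with empty stacks -/
inductive GoodRun {Q : Type} (prog : Prog Q) : Q → (Fin 4 → ℝ) → Prop
  | halt (q : Q) : prog q = none → GoodRun prog q (fun _ => (x0 : ℝ))
  | step (q : Q) (x : Fin 4 → ℝ) (l : List (Trans Q)) (τ : Trans Q) : prog q = some l → τ ∈ l →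
      (τ.lo : ℝ) ≤ x τ.g → x τ.g ≤ (τ.hi : ℝ) → (∀ i, 0 < x i ∧ x i < 1) →
      GoodRun prog τ.tgt (fun i => (τ.op i).act (x i)) → GoodRun prog q x

/-- explicit halting runs -/
structure Run {Q : Type} (prog : Prog Q) (T : ℕ) (q : ℕ → Q) (x : ℕ → Fin 4 → ℝ) : Prop where
  step : ∀ t < T, ∃ l τ, prog (q t) = some l ∧ τ ∈ l ∧ (τ.lo : ℝ) ≤ x t τ.g ∧
    x t τ.g ≤ (τ.hi : ℝ) ∧ q (t + 1) = τ.tgt ∧ x (t + 1) = fun i => (τ.op i).act (x t i)
  last : prog (q T) = none
  lastx : x T = fun _ => (x0 : ℝ)
  pos : ∀ t ≤ T, ∀ i, 0 < x t i ∧ x t i < 1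

lemma GoodRun.exists_run {Q : Type} {prog : Prog Q} {q : Q} {x : Fin 4 → ℝ}
    (h : GoodRun prog q x) : ∃ T qs xs, Run prog T qs xs ∧ qs 0 = q ∧ xs 0 = x := by
  induction h with
  | halt q hq =>
    refine ⟨0, fun _ => q, fun _ _ => (x0 : ℝ), ⟨?_, hq, rfl, ?_⟩, rfl, rfl⟩
    · intro t ht
      exact absurd ht (Nat.not_lt_zero t)
    · intro t _ i
      constructor <;> (simp only [x0]; norm_num)
  | step q x l τ hq hτ h1 h2 h3 _ ih =>
    obtain ⟨T, qs, xs, hR, h4, h5⟩ := ih
    refine ⟨T + 1, fun t => Nat.casesOn t q qs, fun t => Nat.casesOn t x xs,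
      ⟨?_, hR.last, hR.lastx, ?_⟩, rfl, rfl⟩
    · intro t ht
      cases t with
      | zero => exact ⟨l, τ, hq, hτ, h1, h2, h4, h5⟩
      | succ t => exact hR.step t (by omega)
    · intro t ht i
      cases t with
      | zero => exact h3 i
      | succ t => exact hR.pos t (by omega) i

namespace Chain

variable {Q : Type} (T : ℕ) (q : ℕ → Q) (x : ℕ → Fin 4 → ℝ)

/-- indices of the data exits -/
abbrev Z : Type := Fin 4 × Bool × Bool × Fin 50

/-- states of the chain -/
abbrev St (T : ℕ) : Type := Fin (T + 2) ⊕ (Fin (T + 1) × Z)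

/-- mass of a data exit -/
noncomputable def mz (t : ℕ) (z : Z) : ℝ :=
  w * (if z.2.2.1 then 1 - (if z.2.1 then x t z.1 ^ 2 else x t z.1)
    else (if z.2.1 then x t z.1 ^ 2 else x t z.1))

/-- label of a data exit -/
def dz (t : ℕ) (z : Z) : Lab Q := D (t : ZMod 3) z.1 z.2.1 z.2.2.1 z.2.2.2

/-- label of a stage node -/
def vl (t : ℕ) : Lab Q := V (t : ZMod 3) (if t ≤ T then some (q t) else none)

/-- label of a state -/
def label : St T → Lab Q
  | Sum.inl t => vl T q t
  | Sum.inr (t, z) => dz (t : ℕ) z

/-- transition probabilities -/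
noncomputable def tp : St T → St T → ℝ
  | Sum.inl t, Sum.inl t' =>
      if (t : ℕ) = T + 1 then (if t' = t then 1 else 0) else (if (t' : ℕ) = t + 1 then 1 / 2 else 0)
  | Sum.inl t, Sum.inr (t', z) => if (t' : ℕ) = t then mz x t z else 0
  | Sum.inr _, Sum.inl _ => 0
  | Sum.inr a, Sum.inr b => if b = a then 1 else 0

lemma sum_mz (t : ℕ) : ∑ z : Z, mz x t z = 1 / 2 := by
  have h : ∀ i : Fin 4, ∀ y : Bool, ∀ r : Fin 50,
      mz x t (i, y, false, r) + mz x t (i, y, true, r) = (w : ℝ) := by
    intro i y r
    unfold mz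
    simp only [Bool.false_eq_true, if_false, if_true]
    ring
  rw [Fintype.sum_prod_type]
  simp_rw [Fintype.sum_prod_type]
  have h2 : ∀ i : Fin 4, ∀ y : Bool, ∑ n : Bool, ∑ r : Fin 50, mz x t (i, y, n, r) =
      50 * (w : ℝ) := by
    intro i y
    rw [Fintype.sum_bool, ← Finset.sum_add_distrib]
    rw [Finset.sum_congr rfl fun r _ => (add_comm _ _).trans (h i y r)]
    simp
  simp_rw [h2]
  simp [w]
  norm_num

variable {x}

lemma mz_pos {t : ℕ} (hx : ∀ i, 0 < x t i ∧ x t i < 1) (z : Z) : 0 < mz x t z := by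
  unfold mz
  refine mul_pos w_pos ?_
  obtain ⟨h0, h1⟩ := hx z.1
  have h2 : 0 < x t z.1 ^ 2 := by positivity
  have h3 : x t z.1 ^ 2 < 1 := by nlinarith
  split_ifs <;> linarith

variable (x)

/-- the Markov chain of a run -/
noncomputable def chain (hx : ∀ t ≤ T, ∀ i, 0 < x t i ∧ x t i < 1) (enc : Lab Q → ℕ) :
    MarkovChain (St T) where
  P := tp T x
  nonneg := by
    rintro (t | a) (t' | ⟨t', z⟩)
    · unfold tp
      dsimp only
      split_ifs <;> norm_num
    · unfold tp
      simp only
      split_ifs with h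
      · refine (mz_pos (hx t ?_) z).le
        have := t'.2
        omega
      · exact le_rfl
    · exact le_rfl
    · unfold tp
      dsimp only
      split_ifs <;> norm_num
  sum_one := by
    rintro (t | a)
    · rw [Fintype.sum_sum_type, Fintype.sum_prod_type]
      by_cases ht : (t : ℕ) = T + 1
      · have h1 : ∀ t' : Fin (T + 2), tp T x (Sum.inl t) (Sum.inl t') = if t' = t then 1 else 0 := by
          intro t'
          unfold tp
          simp only [ht, if_true]
        have h2 : ∀ t' : Fin (T + 1), ∀ z : Z, tp T x (Sum.inl t) (Sum.inr (t', z)) = 0 := by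
          intro t' z
          unfold tp
          simp only
          rw [if_neg]
          have := t'.2
          omega
        simp_rw [h1, h2]
        simp
      · have htT : (t : ℕ) ≤ T := by
          have := t.2
          omega
        have h1 : ∀ t' : Fin (T + 2), tp T x (Sum.inl t) (Sum.inl t') =
            if t' = ⟨(t : ℕ) + 1, by omega⟩ then 1 / 2 else 0 := by
          intro t'
          unfold tp
          simp only [ht, if_false, Fin.ext_iff]
        have h2 : ∀ t' : Fin (T + 1), ∑ z : Z, tp T x (Sum.inl t) (Sum.inr (t', z)) =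
            if t' = ⟨(t : ℕ), by omega⟩ then 1 / 2 else 0 := by
          intro t'
          unfold tp
          simp only [Fin.ext_iff]
          split_ifs with h
          · exact sum_mz x t
          · exact Finset.sum_const_zero
        simp_rw [h1, h2]
        rw [Finset.sum_ite_eq' , Finset.sum_ite_eq']
        simp
        norm_num
    · rw [Fintype.sum_sum_type]
      have h1 : ∀ t' : Fin (T + 2), tp T x (Sum.inr a) (Sum.inl t') = 0 := fun _ => rfl
      have h2 : ∀ b, tp T x (Sum.inr a) (Sum.inr b) = if b = a then 1 else 0 := fun _ => rfl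
      simp_rw [h1, h2]
      simp
  v s := {enc (label T q s)}

variable {T q x} (hx : ∀ t ≤ T, ∀ i, 0 < x t i ∧ x t i < 1) {enc : Lab Q → ℕ}
  (henc : Function.Injective enc)

lemma isLab_chain (s : St T) (n : ℕ) :
    (chain T q x hx enc).IsLab n s ↔ n = enc (label T q s) := by
  constructor
  · rintro ⟨h, _⟩
    exact h
  · rintro rfl
    refine ⟨rfl, fun m hm h => ?_⟩
    have h' : m = enc (label T q s) := h
    omega

include henc in
lemma labOf_chain (s : St T) : (chain T q x hx enc).labOf enc s = some (label T q s) := by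
  rw [(chain T q x hx enc).labOf_eq henc, isLab_chain]

include henc in
lemma labOf_chain_iff (s : St T) (L : Lab Q) :
    (chain T q x hx enc).labOf enc s = some L ↔ label T q s = L := by
  rw [labOf_chain hx henc, Option.some.injEq]

lemma treeLike_chain : (chain T q x hx enc).TreeLike := by
  have hlt : ∀ t : Fin (T + 2), ∀ u, (chain T q x hx enc).Edge (Sum.inl t) u →
      u ≠ Sum.inl t → (t : ℕ) ≤ T := by
    intro t u h hne
    by_contra hcon
    have ht : (t : ℕ) = T + 1 := by have := t.2; omega
    unfold MarkovChain.Edge at h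
    rcases u with t' | ⟨t', z⟩
    · change 0 < (if (t : ℕ) = T + 1 then (if t' = t then (1 : ℝ) else 0) else _) at h
      rw [if_pos ht] at h
      by_cases h2 : t' = t
      · exact hne (by rw [h2])
      · rw [if_neg h2] at h
        exact lt_irrefl _ h
    · change 0 < (if (t' : ℕ) = t then mz x t z else 0) at h
      rw [if_neg (by have := t'.2; omega)] at h
      exact lt_irrefl _ h
  have hinl : ∀ t t' : Fin (T + 2), (chain T q x hx enc).Edge (Sum.inl t) (Sum.inl t') →
      t' ≠ t → (t' : ℕ) = t + 1 := by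
    intro t t' h hne
    have ht := hlt t _ h (by simpa using hne)
    unfold MarkovChain.Edge at h
    change 0 < (if (t : ℕ) = T + 1 then (if t' = t then (1 : ℝ) else 0) else
      (if (t' : ℕ) = t + 1 then 1 / 2 else 0)) at h
    rw [if_neg (by omega)] at h
    by_contra hcon
    rw [if_neg hcon] at h
    exact lt_irrefl _ h
  have hinl' : ∀ t t' : Fin (T + 2), (t' : ℕ) = t + 1 →
      (chain T q x hx enc).Edge (Sum.inl t) (Sum.inl t') := by
    intro t t' h
    unfold MarkovChain.Edge
    change 0 < (if (t : ℕ) = T + 1 then (if t' = t then (1 : ℝ) else 0) else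
      (if (t' : ℕ) = t + 1 then 1 / 2 else 0))
    rw [if_neg (by have := t'.2; omega), if_pos h]
    norm_num
  have hinr : ∀ (t : Fin (T + 2)) (t' : Fin (T + 1)) z,
      (chain T q x hx enc).Edge (Sum.inl t) (Sum.inr (t', z)) ↔ (t' : ℕ) = t := by
    intro t t' z
    unfold MarkovChain.Edge
    change 0 < (if (t' : ℕ) = t then mz x t z else 0) ↔ _
    constructor
    · intro h
      by_contra hcon
      rw [if_neg hcon] at h
      exact lt_irrefl _ h
    · intro h
      rw [if_pos h]
      exact mz_pos (hx t (by have := t'.2; omega)) z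
  have hrl : ∀ a t, ¬ (chain T q x hx enc).Edge (Sum.inr a) (Sum.inl t) :=
    fun a t h => lt_irrefl (0 : ℝ) h
  have hrr : ∀ a b, (chain T q x hx enc).Edge (Sum.inr a) (Sum.inr b) → b = a := by
    intro a b h
    unfold MarkovChain.Edge at h
    change 0 < (if b = a then (1 : ℝ) else 0) at h
    by_contra hcon
    rw [if_neg hcon] at h
    exact lt_irrefl _ h
  refine ⟨Sum.inl 0, ?_, ?_, ?_, ?_⟩
  · rintro (t | a) hu h
    · have hne : (0 : Fin (T + 2)) ≠ t := by
        rintro rfl
        exact hu rfl
      have := hinl t 0 h hne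
      simp at this
    · exact hrl _ _ h
  · rintro (t | ⟨t, z⟩) hs
    · have ht : 0 < (t : ℕ) := by
        rw [Nat.pos_iff_ne_zero]
        intro h0
        apply hs
        congr 1
        exact Fin.ext h0
      refine ⟨Sum.inl ⟨(t : ℕ) - 1, by have := t.2; omega⟩, ⟨?_, ?_⟩, ?_⟩
      · intro h
        injection h with h
        rw [Fin.ext_iff] at h
        simp only at h
        omega
      · apply hinl'
        simp only
        omega
      · rintro (t' | a) ⟨h1, h2⟩
        · have hne : t ≠ t' := by
            rintro rfl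
            exact h1 rfl
          have := hinl t' t h2 hne
          congr 1
          apply Fin.ext
          simp only
          omega
        · exact absurd h2 (hrl _ _)
    · refine ⟨Sum.inl ⟨(t : ℕ), by have := t.2; omega⟩, ⟨by simp, ?_⟩, ?_⟩
      · rw [hinr]
      · rintro (t' | a) ⟨h1, h2⟩
        · rw [hinr] at h2
          congr 1
          apply Fin.ext
          simp only
          omega
        · have := hrr _ _ h2
          exact absurd (by rw [this]) h1
  · have hV : ∀ n : ℕ, ∀ hn : n < T + 2,
        ReflTransGen (chain T q x hx enc).Edge (Sum.inl 0) (Sum.inl ⟨n, hn⟩) := by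
      intro n
      induction n with
      | zero => intro hn; exact ReflTransGen.refl
      | succ n ih =>
        intro hn
        exact (ih (by omega)).tail (hinl' _ _ rfl)
    rintro (t | ⟨t, z⟩)
    · exact hV t t.2
    · exact (hV t (by have := t.2; omega)).tail ((hinr _ _ _).2 rfl)
  · rintro (t | a) h
    · by_cases ht : (t : ℕ) = T + 1
      · change (if (t : ℕ) = T + 1 then (if t = t then (1 : ℝ) else 0) else _) = 1
        rw [if_pos ht, if_pos rfl]
      · exfalso
        unfold MarkovChain.Edge at h
        change 0 < (if (t : ℕ) = T + 1 then (if t = t then (1 : ℝ) else 0) else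
          (if (t : ℕ) = t + 1 then 1 / 2 else 0)) at h
        rw [if_neg ht, if_neg (by omega)] at h
        exact lt_irrefl _ h
    · change (if a = a then (1 : ℝ) else 0) = 1
      rw [if_pos rfl]

end Chain

end Pool.Agent.Lib.MP_1d78e3_lc
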