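import Pool.Agent.Lib.MP_1d78e3_lc.Defs

set_option autoImplicit false

open MeasureTheory ProbabilityTheory Filter Topology

set_option linter.unusedSectionVars false

namespace Pool.Agent.Lib.MP_1d78e3_lc

namespace MarkovChain

variable {S : Type} [Fintype S] (M : MarkovChain S)

section measure

local instance instTopMS : MeasurableSpace S := ⊤
local instance instTopMSC : MeasurableSingletonClass S := ⟨fun _ => trivial⟩

lemma runMeasure_def (s : S) : M.runMeasure s =
    Kernel.trajMeasure (X := fun _ => S) (Measure.dirac s) (fun n => M.stepKernel n) := rfl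

instance (s : S) : IsProbabilityMeasure (M.runMeasure s) := by
  rw [runMeasure_def]
  infer_instance

lemma nextMeasure_singleton (s u : S) : M.nextMeasure s {u} = ENNReal.ofReal (M.P s u) := by
  classical
  unfold nextMeasure
  rw [Measure.finsetSum_apply]
  rw [Finset.sum_eq_single u]
  · simp
  · intro b _ hb
    simp [hb]
  · simp

/-- the cylinder of runs that agree with `w` up to time `n` -/
def cyl (n : ℕ) (w : ℕ → S) : Set (ℕ → S) := {ω | ∀ i ≤ n, ω i = w i}

open Classical in
lemma run_start (s u : S) : (M.runMeasure s) {ω | ω 0 = u} = if u = s then 1 else 0 := by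
  have h : (Kernel.trajMeasure (X := fun _ => S) (Measure.dirac s) (fun n => M.stepKernel n)).map
      (Preorder.frestrictLe 0) = (Measure.dirac s).map
        (MeasurableEquiv.piUnique (fun _ : Finset.Iic 0 => S)).symm := by
    rw [Kernel.trajMeasure, Measure.map_comp _ _ (by fun_prop), Kernel.traj_map_frestrictLe,
      Kernel.partialTraj_self, Measure.id_comp]
  have h2 := congrArg (fun μ => μ {x | x ⟨0, Finset.mem_Iic.2 le_rfl⟩ = u}) h
  rw [Measure.map_apply (by fun_prop) (Set.toFinite _).measurableSet,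
    Measure.map_apply (by fun_prop) (Set.toFinite _).measurableSet,
    Measure.dirac_apply' _ (Set.toFinite _).measurableSet] at h2
  rw [runMeasure_def]
  refine h2.trans ?_
  rw [Set.indicator_apply]
  simp only [Pi.one_apply]
  congr 1
  exact propext eq_comm

lemma run_cyl_succ (s : S) (n : ℕ) (w : ℕ → S) :
    M.runMeasure s (cyl (n + 1) w) =
      M.runMeasure s (cyl n w) * ENNReal.ofReal (M.P (w n) (w (n + 1))) := by
  have h := Kernel.map_frestrictLe_trajMeasure_compProd_eq_map_trajMeasure (X := fun _ => S)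
    (μ₀ := Measure.dirac s) (κ := fun n => M.stepKernel n) (a := n)
  have hm1 : MeasurableSet ({fun i : Finset.Iic n => w i} : Set (Finset.Iic n → S)) :=
    MeasurableSet.singleton _
  have hm2 : MeasurableSet ({w (n + 1)} : Set S) := MeasurableSet.singleton _
  have h2 : ((Kernel.trajMeasure (X := fun _ => S) (Measure.dirac s)
      (fun n => M.stepKernel n)).map (Preorder.frestrictLe n) ⊗ₘ M.stepKernel n)
      (({fun i : Finset.Iic n => w i} : Set (Finset.Iic n → S)) ×ˢ ({w (n + 1)} : Set S)) =
      ((Kernel.trajMeasure (X := fun _ => S) (Measure.dirac s)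
      (fun n => M.stepKernel n)).map (fun x => (Preorder.frestrictLe n x, x (n + 1))))
      (({fun i : Finset.Iic n => w i} : Set (Finset.Iic n → S)) ×ˢ ({w (n + 1)} : Set S)) := by
    rw [h]
  rw [Measure.compProd_apply_prod hm1 hm2, Measure.map_apply (by fun_prop) (hm1.prod hm2),
    lintegral_singleton, Measure.map_apply (by fun_prop) hm1] at h2
  have e1 : (fun x : ℕ → S => ((Preorder.frestrictLe n x : Finset.Iic n → S), x (n + 1))) ⁻¹'
      (({fun i : Finset.Iic n => w i} : Set (Finset.Iic n → S)) ×ˢ ({w (n + 1)} : Set S)) =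
      cyl (n + 1) w := by
    ext ω
    simp only [Set.mem_preimage, Set.mem_prod, Set.mem_singleton_iff, cyl, Set.mem_ofPred_eq]
    constructor
    · rintro ⟨h1, h3⟩ i hi
      rcases Nat.lt_or_ge i (n + 1) with hlt | hge
      · exact congrFun h1 ⟨i, Finset.mem_Iic.2 (by omega)⟩
      · have : i = n + 1 := by omega
        rw [this]; exact h3
    · intro h1
      refine ⟨?_, h1 _ le_rfl⟩
      funext i
      exact h1 i (by have := Finset.mem_Iic.1 i.2; omega)
  have e2 : (Preorder.frestrictLe n : (ℕ → S) → (Finset.Iic n → S)) ⁻¹'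
      ({fun i : Finset.Iic n => w i} : Set (Finset.Iic n → S)) = cyl n w := by
    ext ω
    simp only [Set.mem_preimage, Set.mem_singleton_iff, cyl, Set.mem_ofPred_eq]
    constructor
    · intro h1 i hi
      exact congrFun h1 ⟨i, Finset.mem_Iic.2 hi⟩
    · intro h1
      funext i
      exact h1 i (Finset.mem_Iic.1 i.2)
  rw [e1, e2] at h2
  rw [runMeasure_def, ← h2, mul_comm]
  congr 1
  exact M.nextMeasure_singleton (w n) (w (n + 1))

open Classical in
lemma run_cyl (s : S) (n : ℕ) (w : ℕ → S) : M.runMeasure s (cyl n w) =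
    if w 0 = s then ENNReal.ofReal (∏ i ∈ Finset.range n, M.P (w i) (w (i + 1))) else 0 := by
  induction n with
  | zero =>
    have : cyl 0 w = {ω : ℕ → S | ω 0 = w 0} := by
      ext ω
      simp [cyl]
    rw [this, run_start]
    simp
  | succ n ih =>
    rw [run_cyl_succ, ih]
    split_ifs
    · rw [Finset.prod_range_succ, ENNReal.ofReal_mul
        (Finset.prod_nonneg fun i _ => M.nonneg _ _)]
    · simp

/-- the shift map on runs -/
def shift (ω : ℕ → S) : ℕ → S := fun i => ω (i + 1)

lemma measurable_shift : Measurable (shift : (ℕ → S) → (ℕ → S)) :=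
  measurable_pi_lambda _ fun i => measurable_pi_apply (i + 1)

lemma measurableSet_cyl (n : ℕ) (w : ℕ → S) : MeasurableSet (cyl n w) := by
  have : cyl n w = ⋂ i ∈ Finset.range (n + 1), (fun ω : ℕ → S => ω i) ⁻¹' {w i} := by
    ext ω
    simp only [cyl, Set.mem_ofPred_eq, Set.mem_iInter, Finset.mem_range, Set.mem_preimage,
      Set.mem_singleton_iff]
    constructor
    · intro h i hi; exact h i (by omega)
    · intro h i hi; exact h i (by omega)
  rw [this]
  exact Finset.measurableSet_biInter _ fun i _ =>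
    measurable_pi_apply i (MeasurableSet.singleton _)

/-- the mixture of the run measures from the successors of `s` -/
noncomputable def mix (s : S) : Measure (ℕ → S) := ∑ u, ENNReal.ofReal (M.P s u) • M.runMeasure u

lemma mix_apply (s : S) (E : Set (ℕ → S)) :
    M.mix s E = ∑ u, ENNReal.ofReal (M.P s u) * M.runMeasure u E := by
  unfold mix
  rw [Measure.finsetSum_apply]
  simp

lemma shift_cyl (s : S) (n : ℕ) (w : ℕ → S) :
    (M.runMeasure s).map shift (cyl n w) = M.mix s (cyl n w) := by
  classical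
  rw [Measure.map_apply measurable_shift (measurableSet_cyl n w), mix_apply]
  -- left side
  let w' : ℕ → S := fun i => if i = 0 then s else w (i - 1)
  have hw0 : w' 0 = s := rfl
  have hws : ∀ i, w' (i + 1) = w i := fun i => by simp [w']
  have h1 : M.runMeasure s (shift ⁻¹' cyl n w) = M.runMeasure s (cyl (n + 1) w') := by
    have hae : ∀ᵐ ω ∂(M.runMeasure s), ω 0 = s := by
      have h := M.run_start s s
      rw [if_pos rfl] at h
      rw [ae_iff]
      have hm : MeasurableSet {ω : ℕ → S | ω 0 = s} :=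
        (measurable_pi_apply 0 : Measurable fun ω : ℕ → S => ω 0) (MeasurableSet.singleton s)
      have h3 := prob_compl_eq_zero_iff (μ := M.runMeasure s) hm
      exact h3.2 h
    apply measure_congr
    filter_upwards [hae] with ω hω
    apply propext
    show (∀ i ≤ n, ω (i + 1) = w i) ↔ (∀ i ≤ n + 1, ω i = w' i)
    constructor
    · intro h i hi
      rcases Nat.eq_zero_or_pos i with rfl | hpos
      · rw [hω, hw0]
      · obtain ⟨j, rfl⟩ := Nat.exists_eq_succ_of_ne_zero hpos.ne'
        rw [Nat.succ_eq_add_one, hws]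
        exact h j (by omega)
    · intro h i hi
      rw [← hws]
      exact h (i + 1) (by omega)
  rw [h1, run_cyl, if_pos hw0, Finset.prod_range_succ']
  rw [Finset.sum_eq_single (w 0)]
  · rw [run_cyl, if_pos rfl, ← ENNReal.ofReal_mul (M.nonneg _ _)]
    congr 1
    rw [mul_comm, hw0, hws 0]
    congr 1
  · intro b _ hb
    rw [run_cyl, if_neg (fun h => hb h.symm), mul_zero]
  · intro h
    exact absurd (Finset.mem_univ _) h

/-- `E` depends only on the coordinates up to `n` -/
def Fin_dep (n : ℕ) (E : Set (ℕ → S)) : Prop :=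
  ∀ ω ω' : ℕ → S, (∀ i ≤ n, ω i = ω' i) → ω ∈ E → ω' ∈ E

/-- extension of a finite word -/
def extw {n : ℕ} (t : Fin (n + 1) → S) : ℕ → S :=
  fun i => if h : i < n + 1 then t ⟨i, h⟩ else t 0

open Classical in
lemma measure_fin_dep (μ : Measure (ℕ → S)) {n : ℕ} {E : Set (ℕ → S)} (hE : Fin_dep n E) :
    μ E = ∑ t : Fin (n + 1) → S, if extw t ∈ E then μ (cyl n (extw t)) else 0 := by
  have h1 : E = ⋃ t ∈ (Finset.univ.filter fun t : Fin (n + 1) → S => extw t ∈ E),
      cyl n (extw t) := by
    ext ω
    simp only [Set.mem_iUnion, Finset.mem_filter, Finset.mem_univ, true_and, exists_prop]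
    constructor
    · intro h
      have hag : ∀ i ≤ n, ω i = extw (fun i : Fin (n + 1) => ω i) i := by
        intro i hi
        unfold extw
        rw [dif_pos (by omega)]
      exact ⟨fun i => ω i, hE ω _ hag h, hag⟩
    · rintro ⟨t, ht, hω⟩
      exact hE _ ω (fun i hi => (hω i hi).symm) ht
  have h2 : μ (⋃ t ∈ (Finset.univ.filter fun t : Fin (n + 1) → S => extw t ∈ E),
      cyl n (extw t)) = ∑ t ∈ (Finset.univ.filter fun t : Fin (n + 1) → S => extw t ∈ E),
        μ (cyl n (extw t)) := by
    apply measure_biUnion_finset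
    · intro t _ t' _ hne
      rw [Function.onFun, Set.disjoint_left]
      intro ω h h'
      apply hne
      funext i
      have e1 := h i (by omega)
      have e2 := h' i (by omega)
      rw [e1] at e2
      unfold extw at e2
      rw [dif_pos i.2, dif_pos i.2] at e2
      exact e2
    · intro t _
      exact measurableSet_cyl _ _
  calc μ E = μ (⋃ t ∈ (Finset.univ.filter fun t : Fin (n + 1) → S => extw t ∈ E),
        cyl n (extw t)) := by rw [← h1]
    _ = _ := by rw [h2, Finset.sum_filter]

lemma shift_fin_dep (s : S) {n : ℕ} {E : Set (ℕ → S)} (hE : Fin_dep n E) :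
    (M.runMeasure s).map shift E = M.mix s E := by
  rw [measure_fin_dep _ hE, measure_fin_dep _ hE]
  refine Finset.sum_congr rfl fun t _ => ?_
  split_ifs
  · exact M.shift_cyl s n _
  · rfl

/-- the runs that visit `A` -/
def ev (A : Set S) : Set (ℕ → S) := {ω | ∃ n, ω n ∈ A}

/-- the runs that visit `A` within `n` steps -/
def evn (A : Set S) (n : ℕ) : Set (ℕ → S) := {ω | ∃ i ≤ n, ω i ∈ A}

lemma evn_dep (A : Set S) (n : ℕ) : Fin_dep n (evn A n) := by
  rintro ω ω' h ⟨i, hi, hA⟩
  exact ⟨i, hi, by rw [← h i hi]; exact hA⟩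

lemma ev_eq (A : Set S) : ev A = ⋃ n, evn A n := by
  ext ω
  simp only [ev, evn, Set.mem_ofPred_eq, Set.mem_iUnion]
  constructor
  · rintro ⟨n, h⟩; exact ⟨n, n, le_rfl, h⟩
  · rintro ⟨n, i, _, h⟩; exact ⟨i, h⟩

lemma evn_mono (A : Set S) : Monotone (evn A) := by
  intro n m hnm ω ⟨i, hi, h⟩
  exact ⟨i, hi.trans hnm, h⟩

lemma measurableSet_ev (A : Set S) : MeasurableSet (ev A) := by
  have : ev A = ⋃ n, (fun ω : ℕ → S => ω n) ⁻¹' A := by
    ext ω
    simp [ev]
  rw [this]
  exact MeasurableSet.iUnion fun n => measurable_pi_apply n (Set.toFinite A).measurableSet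

lemma shift_ev (s : S) (A : Set S) : (M.runMeasure s).map shift (ev A) = M.mix s (ev A) := by
  rw [ev_eq, (evn_mono A).measure_iUnion, (evn_mono A).measure_iUnion]
  congr 1
  funext n
  exact M.shift_fin_dep s (evn_dep A n)

lemma run_ae_start (s : S) : ∀ᵐ ω ∂(M.runMeasure s), ω 0 = s := by
  classical
  have h := M.run_start s s
  rw [if_pos rfl] at h
  rw [ae_iff]
  have hm : MeasurableSet {ω : ℕ → S | ω 0 = s} :=
    (measurable_pi_apply 0 : Measurable fun ω : ℕ → S => ω 0) (MeasurableSet.singleton s)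
  exact (prob_compl_eq_zero_iff (μ := M.runMeasure s) hm).2 h

lemma run_ev_of_mem (s : S) {A : Set S} (hs : s ∈ A) : M.runMeasure s (ev A) = 1 := by
  have : M.runMeasure s (ev A) = M.runMeasure s Set.univ := by
    apply measure_congr
    filter_upwards [M.run_ae_start s] with ω hω
    apply propext
    exact ⟨fun _ => trivial, fun _ => ⟨0, by rw [hω]; exact hs⟩⟩
  rw [this, measure_univ]

lemma run_ev_step (s : S) {A : Set S} (hs : s ∉ A) :
    M.runMeasure s (ev A) = ∑ u, ENNReal.ofReal (M.P s u) * M.runMeasure u (ev A) := by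
  rw [← mix_apply, ← shift_ev, Measure.map_apply measurable_shift (measurableSet_ev A)]
  apply measure_congr
  filter_upwards [M.run_ae_start s] with ω hω
  apply propext
  constructor
  · rintro ⟨n, h⟩
    rcases Nat.eq_zero_or_pos n with rfl | hpos
    · rw [hω] at h
      exact absurd h hs
    · obtain ⟨m, rfl⟩ := Nat.exists_eq_succ_of_ne_zero hpos.ne'
      exact ⟨m, h⟩
  · rintro ⟨n, h⟩
    exact ⟨n + 1, h⟩

lemma run_evn_absorbing (s : S) {A : Set S} (hs : s ∉ A) (hP : M.P s s = 1) (n : ℕ) :
    M.runMeasure s (evn A n) = 0 := by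
  classical
  have hcyl : M.runMeasure s (cyl n (fun _ => s)) = 1 := by
    rw [run_cyl, if_pos rfl]
    simp [hP]
  have hdis : evn A n ⊆ (cyl n (fun _ => s))ᶜ := by
    rintro ω ⟨i, hi, h⟩ hc
    apply hs
    have h3 : ω i = s := hc i hi
    rw [h3] at h
    exact h
  have h0 := (prob_compl_eq_zero_iff (μ := M.runMeasure s) (measurableSet_cyl n _)).2 hcyl
  exact measure_mono_null hdis h0

lemma run_ev_absorbing (s : S) {A : Set S} (hs : s ∉ A) (hP : M.P s s = 1) :
    M.runMeasure s (ev A) = 0 := by
  rw [ev_eq]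
  exact measure_iUnion_null fun n => M.run_evn_absorbing s hs hP n

end measure

/-- the probability of reaching `A` from `s` -/
noncomputable def reach (A : Set S) (s : S) : ℝ := M.prob s {ω | ∃ n, ω n ∈ A}

lemma reach_of_mem {A : Set S} {s : S} (hs : s ∈ A) : M.reach A s = 1 := by
  unfold reach prob
  rw [show {ω : ℕ → S | ∃ n, ω n ∈ A} = ev A from rfl, M.run_ev_of_mem s hs]
  rfl

lemma reach_step {A : Set S} {s : S} (hs : s ∉ A) :
    M.reach A s = ∑ u, M.P s u * M.reach A u := by
  unfold reach prob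
  rw [show {ω : ℕ → S | ∃ n, ω n ∈ A} = ev A from rfl, M.run_ev_step s hs,
    ENNReal.toReal_sum]
  · refine Finset.sum_congr rfl fun u _ => ?_
    rw [ENNReal.toReal_mul, ENNReal.toReal_ofReal (M.nonneg s u)]
  · intro u _
    exact ENNReal.mul_ne_top ENNReal.ofReal_ne_top (measure_ne_top _ _)

lemma reach_absorbing {A : Set S} {s : S} (hs : s ∉ A) (hP : M.P s s = 1) :
    M.reach A s = 0 := by
  unfold reach prob
  rw [show {ω : ℕ → S | ∃ n, ω n ∈ A} = ev A from rfl, M.run_ev_absorbing s hs hP]
  rfl

lemma sat_probF (s : S) (φ : Formula) (c : Cmp) (r : ℚ) :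
    M.Sat s (Formula.probF φ c r) ↔ c.holds (M.reach {u | M.Sat u φ} s) (r : ℝ) := Iff.rfl

end MarkovChain

end Pool.Agent.Lib.MP_1d78e3_lc
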