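import Pool.Agent.Lib.MP_1d78e3_lc.Form

set_option autoImplicit false
set_option linter.unusedSectionVars false

/-!
# The formula of an affine machine: soundness
-/

namespace Pool.Agent.Lib.MP_1d78e3_lc

open Finset Relation Lab

section

variable {Q : Type}

/-- the labels form a finite type -/
def labEquiv : Lab Q → (ZMod 3 × Option Q) ⊕ (ZMod 3 × Fin 4 × Bool × Bool × Fin 50)
  | V j q => Sum.inl (j, q)
  | D j i y n r => Sum.inr (j, i, y, n, r)

lemma labEquiv_inj : Function.Injective (labEquiv : Lab Q → _) := by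
  intro a b h
  cases a <;> cases b <;> simp only [labEquiv, Sum.inl.injEq, Sum.inr.injEq, Prod.mk.injEq,
    reduceCtorEq] at h
  · obtain ⟨h1, h2⟩ := h
    rw [h1, h2]
  · obtain ⟨h1, h2, h3, h4, h5⟩ := h
    rw [h1, h2, h3, h4, h5]

noncomputable instance [Fintype Q] : Fintype (Lab Q) := Fintype.ofInjective _ labEquiv_inj

/-- the constraints valid at every real stage node of stage `j` -/
structure BaseH (H : Set (Lab Q) → ℝ) (j : ZMod 3) : Prop where
  v1 : H (VS (j + 1)) = 1 / 2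
  v3 : H (VS (j + 2)) < 1
  v4 : H (VS (j + 1) ∪ DS j) = 1
  v5 : ∀ (i : Fin 4) (y : Bool) (r r' : Fin 50),
    H (VS (j + 1) ∪ ({D j i y false r, D j i y true r'} : Set (Lab Q))) = 1 / 2 + (w : ℝ)

/-- the constraints fixing the data of a node -/
structure DataH (H : Set (Lab Q) → ℝ) (j : ZMod 3) (x : Fin 4 → ℝ) : Prop where
  hx : ∀ i : Fin 4, H (VS (j + 1) ∪ ({D j i false false 0} : Set (Lab Q))) =
    1 / 2 + (w : ℝ) * x i
  hy : ∀ i : Fin 4, H (VS (j + 1) ∪ ({D j i true false 0} : Set (Lab Q))) =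
    1 / 2 + (w : ℝ) * x i ^ 2

/-- the constraints valid at a node which performs the transition `τ` -/
structure StepConH (H : Set (Lab Q) → ℝ) (j : ZMod 3) (τ : Trans Q) : Prop where
  glo : 1 / 2 + (w : ℝ) * τ.lo ≤ H (VS (j + 1) ∪ ({D j τ.g false false 0} : Set (Lab Q)))
  ghi : H (VS (j + 1) ∪ ({D j τ.g false false 0} : Set (Lab Q))) ≤ 1 / 2 + (w : ℝ) * τ.hi
  t1 : H (TS (j + 1) τ.tgt) = 1 / 2
  t2 : H (TS (j + 1) τ.tgt ∪ DS j) = 1
  t3 : H (TS (j + 1) τ.tgt ∪ VS (j + 2)) = 1 / 2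
  rx : ∀ i : Fin 4, H (VS (j + 2) ∪ (↑(ownX j i (τ.op i) : Finset (Lab Q)) ∪
    ↑(nxtX (j + 1) i (τ.op i) : Finset (Lab Q)))) = (cX (τ.op i) : ℝ)
  ry : ∀ i : Fin 4, H (VS (j + 2) ∪ (↑(ownY j i (τ.op i) : Finset (Lab Q)) ∪
    (↑(ownC j i (τ.op i) : Finset (Lab Q)) ∪
    ↑(nxtY (j + 1) i (τ.op i) : Finset (Lab Q))))) = (cY (τ.op i) : ℝ)

/-- the constraints of a node of stage `j` and control state `q` -/
def NodeH (H : Set (Lab Q) → ℝ) (j : ZMod 3) : Option (List (Trans Q)) → Prop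
  | none => BaseH H j ∧ DataH H j (fun _ => (x0 : ℝ))
  | some l => BaseH H j ∧ ∃ τ ∈ l, StepConH H j τ

variable [Fintype Q] (enc : Lab Q → ℕ)

/-- formula for `BaseH` -/
noncomputable def baseF (j : ZMod 3) : Formula :=
  Formula.and (FP enc (VS (j + 1)) Cmp.eq (1 / 2)) (Formula.and (FP enc (VS (j + 2)) Cmp.lt 1)
    (Formula.and (FP enc (VS (j + 1) ∪ DS j) Cmp.eq 1)
    (conjAll fun x : Fin 4 × Bool × Fin 50 × Fin 50 =>
      FP enc (VS (j + 1) ∪ ({D j x.1 x.2.1 false x.2.2.1, D j x.1 x.2.1 true x.2.2.2} :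
        Set (Lab Q))) Cmp.eq (1 / 2 + w))))

/-- formula for `DataH` -/
noncomputable def dataF (j : ZMod 3) (x : Fin 4 → ℚ) : Formula :=
  conjAll fun i : Fin 4 =>
    Formula.and (FP enc (VS (j + 1) ∪ ({D j i false false 0} : Set (Lab Q))) Cmp.eq
      (1 / 2 + w * x i))
      (FP enc (VS (j + 1) ∪ ({D j i true false 0} : Set (Lab Q))) Cmp.eq (1 / 2 + w * x i ^ 2))

/-- formula for `StepConH` -/
noncomputable def stepF (j : ZMod 3) (τ : Trans Q) : Formula :=
  Formula.and (FP enc (VS (j + 1) ∪ ({D j τ.g false false 0} : Set (Lab Q))) Cmp.ge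
    (1 / 2 + w * τ.lo))
  (Formula.and (FP enc (VS (j + 1) ∪ ({D j τ.g false false 0} : Set (Lab Q))) Cmp.le
    (1 / 2 + w * τ.hi))
  (Formula.and (FP enc (TS (j + 1) τ.tgt) Cmp.eq (1 / 2))
  (Formula.and (FP enc (TS (j + 1) τ.tgt ∪ DS j) Cmp.eq 1)
  (Formula.and (FP enc (TS (j + 1) τ.tgt ∪ VS (j + 2)) Cmp.eq (1 / 2))
  (conjAll fun i : Fin 4 =>
    Formula.and
    (FP enc (VS (j + 2) ∪ (↑(ownX j i (τ.op i) : Finset (Lab Q)) ∪
      ↑(nxtX (j + 1) i (τ.op i) : Finset (Lab Q)))) Cmp.eq (cX (τ.op i)))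
    (FP enc (VS (j + 2) ∪ (↑(ownY j i (τ.op i) : Finset (Lab Q)) ∪
      (↑(ownC j i (τ.op i) : Finset (Lab Q)) ∪
      ↑(nxtY (j + 1) i (τ.op i) : Finset (Lab Q))))) Cmp.eq (cY (τ.op i))))))))

/-- formula for `NodeH` -/
noncomputable def nodeF (j : ZMod 3) : Option (List (Trans Q)) → Formula
  | none => Formula.and (baseF enc j) (dataF enc j (fun _ => x0))
  | some l => Formula.and (baseF enc j) (disj (l.map (stepF enc j)))

open Classical in
/-- all constraints at one state -/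
noncomputable def allF (prog : Prog Q) : Formula :=
  Formula.and
    (conjAll fun L : Lab Q => if L ∈ AbL then
      Formula.or (Formula.neg (lam (enc L)))
        (Formula.probF (Formula.neg (lam (enc L))) Cmp.eq 0) else ftrue)
    (conjAll fun x : ZMod 3 × Q =>
      Formula.or (Formula.neg (lam (enc (V x.1 (some x.2))))) (nodeF enc x.1 (prog x.2)))

/-- the formula of a machine with initial configuration `(q, x)` -/
noncomputable def machF (prog : Prog Q) (q : Q) (x : Fin 4 → ℚ) : Formula :=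
  Formula.and (Formula.probF (Formula.neg (allF enc prog)) Cmp.eq 0)
    (Formula.and (lam (enc (V 0 (some q)))) (dataF enc 0 x))

variable {enc} {S : Type} [Fintype S] {M : MarkovChain S} (henc : Function.Injective enc)

include henc

lemma sat_baseF (s : S) (j : ZMod 3) :
    M.Sat s (baseF enc j) ↔ BaseH (fun B => M.HH enc B s) j := by
  unfold baseF
  change (M.Sat s _ ∧ M.Sat s _ ∧ M.Sat s _ ∧ M.Sat s _) ↔ _
  rw [M.sat_FP henc, M.sat_FP henc, M.sat_FP henc, M.sat_conjAll]
  simp only [M.sat_FP henc, Cmp.holds]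
  push_cast
  constructor
  · rintro ⟨h1, h2, h3, h4⟩
    exact ⟨h1, h2, h3, fun i y r r' => h4 (i, y, r, r')⟩
  · rintro ⟨h1, h2, h3, h4⟩
    exact ⟨h1, h2, h3, fun x => h4 _ _ _ _⟩

lemma sat_dataF (s : S) (j : ZMod 3) (x : Fin 4 → ℚ) :
    M.Sat s (dataF enc j x) ↔ DataH (fun B => M.HH enc B s) j (fun i => (x i : ℝ)) := by
  unfold dataF
  rw [M.sat_conjAll]
  constructor
  · intro h
    refine ⟨fun i => ?_, fun i => ?_⟩
    · have := (h i).1
      rw [M.sat_FP henc] at this
      simp only [Cmp.holds] at this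
      push_cast at this
      exact this
    · have := (h i).2
      rw [M.sat_FP henc] at this
      simp only [Cmp.holds] at this
      push_cast at this
      exact this
  · rintro ⟨h1, h2⟩ i
    refine ⟨?_, ?_⟩
    · rw [M.sat_FP henc]
      simp only [Cmp.holds]
      push_cast
      exact h1 i
    · rw [M.sat_FP henc]
      simp only [Cmp.holds]
      push_cast
      exact h2 i

lemma sat_stepF (s : S) (j : ZMod 3) (τ : Trans Q) :
    M.Sat s (stepF enc j τ) ↔ StepConH (fun B => M.HH enc B s) j τ := by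
  unfold stepF
  change (M.Sat s _ ∧ M.Sat s _ ∧ M.Sat s _ ∧ M.Sat s _ ∧ M.Sat s _ ∧ M.Sat s _) ↔ _
  rw [M.sat_FP henc, M.sat_FP henc, M.sat_FP henc, M.sat_FP henc, M.sat_FP henc, M.sat_conjAll]
  simp only [Cmp.holds]
  push_cast
  constructor
  · rintro ⟨h1, h2, h3, h4, h5, h6⟩
    refine ⟨h1, h2, h3, h4, h5, fun i => ?_, fun i => ?_⟩
    · have := (h6 i).1
      rw [M.sat_FP henc] at this
      exact this
    · have := (h6 i).2
      rw [M.sat_FP henc] at this
      exact this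
  · rintro ⟨h1, h2, h3, h4, h5, h6, h7⟩
    refine ⟨h1, h2, h3, h4, h5, fun i => ⟨?_, ?_⟩⟩
    · rw [M.sat_FP henc]
      exact h6 i
    · rw [M.sat_FP henc]
      exact h7 i

lemma sat_nodeF (s : S) (j : ZMod 3) (o : Option (List (Trans Q))) :
    M.Sat s (nodeF enc j o) ↔ NodeH (fun B => M.HH enc B s) j o := by
  cases o with
  | none =>
    change (M.Sat s _ ∧ M.Sat s _) ↔ _
    rw [sat_baseF henc, sat_dataF henc]
    rfl
  | some l =>
    change (M.Sat s _ ∧ M.Sat s _) ↔ _
    rw [sat_baseF henc, M.sat_disj]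
    constructor
    · rintro ⟨h1, φ, hφ, h2⟩
      obtain ⟨τ, hτ, rfl⟩ := List.mem_map.1 hφ
      exact ⟨h1, τ, hτ, (sat_stepF henc s j τ).1 h2⟩
    · rintro ⟨h1, τ, hτ, h2⟩
      exact ⟨h1, _, List.mem_map.2 ⟨τ, hτ, rfl⟩, (sat_stepF henc s j τ).2 h2⟩

lemma sat_allF (s : S) (prog : Prog Q) :
    M.Sat s (allF enc prog) ↔
      (∀ L ∈ AbL, M.labOf enc s = some L → M.reach {u | M.labOf enc u ≠ some L} s = 0) ∧
      (∀ j q, M.labOf enc s = some (V j (some q)) → NodeH (fun B => M.HH enc B s) j (prog q)) := by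
  unfold allF
  change (M.Sat s _ ∧ M.Sat s _) ↔ _
  rw [M.sat_conjAll, M.sat_conjAll]
  have hset : ∀ L : Lab Q, {u | M.Sat u (Formula.neg (lam (enc L)))} =
      {u | M.labOf enc u ≠ some L} := by
    intro L
    ext u
    rw [Set.mem_ofPred_eq, Set.mem_ofPred_eq, ne_eq, M.labOf_eq henc, ← M.sat_lam]
    rfl
  refine and_congr ?_ ?_
  · refine forall_congr' fun L => ?_
    by_cases hL : L ∈ AbL
    · rw [if_pos hL]
      simp only [hL, true_imp_iff]
      constructor
      · rintro (h | h) hl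
        · exact absurd ((M.sat_lam _ _).2 ((M.labOf_eq henc).1 hl)) h
        · rw [M.sat_probF, hset] at h
          have h' : M.reach {u | M.labOf enc u ≠ some L} s = ((0 : ℚ) : ℝ) := h
          rw [h']; norm_num
      · intro h
        by_cases hl : M.labOf enc s = some L
        · right
          rw [M.sat_probF, hset]
          change M.reach {u | M.labOf enc u ≠ some L} s = ((0 : ℚ) : ℝ)
          rw [h hl]; norm_num
        · left
          intro h'
          exact hl ((M.labOf_eq henc).2 ((M.sat_lam _ _).1 h'))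
    · rw [if_neg hL]
      simp only [hL, false_imp_iff, iff_true]
      exact M.sat_ftrue s
  · constructor
    · intro h j q hl
      rcases h (j, q) with h1 | h1
      · exact absurd ((M.sat_lam _ _).2 ((M.labOf_eq henc).1 hl)) h1
      · exact (sat_nodeF henc s _ _).1 h1
    · rintro h ⟨j, q⟩
      by_cases hl : M.labOf enc s = some (V j (some q))
      · exact Or.inr ((sat_nodeF henc s _ _).2 (h j q hl))
      · left
        intro h'
        exact hl ((M.labOf_eq henc).2 ((M.sat_lam _ _).1 h'))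

/-- soundness of the reduction -/
theorem halts_of_sat {prog : Prog Q} {q : Q} {x : Fin 4 → ℚ} (hT : M.TreeLike) {s : S}
    (h : M.Sat s (machF enc prog q x)) : Halts prog q (fun i => (x i : ℝ)) := by
  obtain ⟨h1, h2, h3⟩ := h
  set G : Set S := {u | M.Sat u (allF enc prog)} with hGdef
  have hG : ∀ s ∈ G, ∀ L : Lab Q, L ∈ AbL → M.labOf enc s = some L →
      M.reach {u | M.labOf enc u ≠ some L} s = 0 := fun s hs => ((sat_allF henc s prog).1 hs).1
  set E := envOf M hT enc G hG with hE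
  have hgood : ∀ u, E.Good u → u ∈ G := by
    intro u hu
    by_contra hcon
    have hu' : M.reach Gᶜ u = 0 := hu
    rw [M.reach_of_mem (A := Gᶜ) hcon] at hu'
    exact one_ne_zero hu'
  have hnode : ∀ s j q, E.Good s → E.lab s = some (V j (some q)) →
      NodeH (fun B => M.HH enc B s) j (prog q) := fun s j q hg hl =>
    ((sat_allF henc s prog).1 (hgood s hg)).2 j q hl
  have hbase : ∀ s j q, E.Good s → E.lab s = some (V j (some q)) → Base E s j := by
    intro s j q hg hl
    have h4 := hnode s j q hg hl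
    have h5 : BaseH (fun B => M.HH enc B s) j := by
      cases hp : prog q with
      | none => rw [hp] at h4; exact h4.1
      | some l => rw [hp] at h4; exact h4.1
    exact ⟨h5.v1, h5.v3, h5.v4, h5.v5⟩
  have hv : Valid E prog := by
    refine ⟨rfl, hbase, ?_, ?_⟩
    · intro s j q hg hl hp
      have h4 := hnode s j q hg hl
      rw [hp] at h4
      exact ⟨h4.2.hx, h4.2.hy⟩
    · intro s j q l hg hl hp
      have h4 := hnode s j q hg hl
      rw [hp] at h4
      obtain ⟨_, τ, hτ, h5⟩ := h4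
      exact ⟨τ, hτ, ⟨h5.glo, h5.ghi, h5.t1, h5.t2, h5.t3, h5.rx, h5.ry⟩⟩
  have hgs : E.Good s := by
    have h4 : M.reach {u | M.Sat u (Formula.neg (allF enc prog))} s = ((0 : ℚ) : ℝ) := h1
    have h5 : {u | M.Sat u (Formula.neg (allF enc prog))} = Gᶜ := by
      ext u; rfl
    change M.reach Gᶜ s = 0
    rw [← h5, h4]; norm_num
  have hl : E.lab s = some (V 0 (some q)) := (M.labOf_eq henc).2 ((M.sat_lam _ _).1 h2)
  have hd := (sat_dataF henc s 0 x).1 h3
  have hb := hbase s 0 q hgs hl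
  refine run_of_valid hv s 0 q _ hgs hl ?_ ?_
  · intro i
    have h4 : E.H (VS (0 + 1) ∪ ({D 0 i false false 0} : Set (Lab Q))) s = 1 / 2 + w * x i := hd.hx i
    unfold dat Env.δ
    rw [h4, hb.v1]; ring
  · intro i
    have h4 : E.H (VS (0 + 1) ∪ ({D 0 i true false 0} : Set (Lab Q))) s = 1 / 2 + w * x i ^ 2 :=
      hd.hy i
    unfold dat Env.δ
    rw [h4, hb.v1]; ring

end

end Pool.Agent.Lib.MP_1d78e3_lc
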