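import Pool.Agent.Lib.MP_1d78e3_lc.Sim

set_option autoImplicit false
set_option linter.unusedSectionVars false

/-!
# Restriction to finitely many control states
-/

namespace Pool.Agent.Lib.MP_1d78e3_lc

open Turing Turing.PartrecToTM2

section

variable {Q : Type} (prog : Prog Q) (A : Set Q)

open Classical in
/-- restricted transition -/
noncomputable def rtr (τ : Trans Q) : Option (Trans A) :=
  if h : τ.tgt ∈ A then some ⟨τ.g, τ.lo, τ.hi, ⟨τ.tgt, h⟩, τ.op⟩ else none

/-- restricted program -/
noncomputable def restr : Prog A := fun q => (prog q.1).map fun l => l.filterMap (rtr A)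

lemma halts_of_restr {q : A} {x : Fin 4 → ℝ} (h : Halts (restr prog A) q x) :
    Halts prog q.1 x := by
  induction h with
  | halt q x hq =>
    exact Halts.halt _ _ (Option.map_eq_none_iff.1 hq)
  | step q x l τ hq hτ h1 h2 _ ih =>
    obtain ⟨l', hl', rfl⟩ := Option.map_eq_some_iff.1 hq
    obtain ⟨τ', hτ', he⟩ := List.mem_filterMap.1 hτ
    unfold rtr at he
    by_cases hA : τ'.tgt ∈ A
    · rw [dif_pos hA, Option.some.injEq] at he
      subst he
      exact Halts.step q.1 x l' τ' hl' hτ' h1 h2 ih
    · rw [dif_neg hA] at he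
      cases he

lemma goodRun_restr (hA : ∀ q ∈ A, ∀ l, prog q = some l → ∀ τ ∈ l, τ.tgt ∈ A) {q : Q}
    {x : Fin 4 → ℝ} (h : GoodRun prog q x) : ∀ hq : q ∈ A, GoodRun (restr prog A) ⟨q, hq⟩ x := by
  induction h with
  | halt q hq =>
    intro hqA
    exact GoodRun.halt _ (Option.map_eq_none_iff.2 hq)
  | step q x l τ hq hτ h1 h2 h3 _ ih =>
    intro hqA
    have ht := hA q hqA l hq τ hτ
    refine GoodRun.step ⟨q, hqA⟩ x (l.filterMap (rtr A)) ⟨τ.g, τ.lo, τ.hi, ⟨τ.tgt, ht⟩, τ.op⟩
      (Option.map_eq_some_iff.2 ⟨l, hq, rfl⟩) (List.mem_filterMap.2 ⟨τ, hτ, ?_⟩) h1 h2 h3 (ih ht)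
    unfold rtr
    rw [dif_pos ht]

end

/-- the control states reachable for a code -/
def ctls (U : Finset Λ') : Set Ctl :=
  {c | c = Ctl.fin ∨ c = Ctl.clear ∨ ∃ l ∈ U, ∃ s ∈ TM2.stmts₁ (trs l), ∃ v, c = Ctl.run s v}

lemma ctls_finite (U : Finset Λ') : (ctls U).Finite := by
  have h : ctls U ⊆ ({Ctl.fin, Ctl.clear} : Set Ctl) ∪
      ⋃ l ∈ U, ⋃ s ∈ TM2.stmts₁ (trs l), Set.range (Ctl.run s) := by
    rintro c (rfl | rfl | ⟨l, hl, s, hs, v, rfl⟩)
    · left; simp
    · left; simp
    · right
      simp only [Set.mem_iUnion]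
      exact ⟨l, hl, s, hs, v, rfl⟩
  refine Set.Finite.subset ?_ h
  refine Set.Finite.union (by simp) ?_
  refine Set.Finite.biUnion (Finset.finite_toSet U) fun l _ => ?_
  refine Set.Finite.biUnion (Finset.finite_toSet _) fun s _ => ?_
  exact Set.finite_range _

lemma ctls_closed {U : Finset Λ'} (hU : ∀ l ∈ U, TM2.SupportsStmt U (trs l)) :
    ∀ q ∈ ctls U, ∀ l, sim q = some l → ∀ τ ∈ l, τ.tgt ∈ ctls U := by
  classical
  rintro q (rfl | rfl | ⟨l, hl, s, hs, v, rfl⟩) L hL τ hτ
  · cases hL
  · simp only [sim, Option.some.injEq] at hL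
    subst hL
    obtain ⟨o, _, rfl⟩ := List.mem_map.1 hτ
    cases o with
    | none => exact Or.inl rfl
    | some c => exact Or.inr (Or.inl rfl)
  · have key : ∀ s' v', s' ∈ TM2.stmts₁ s → Ctl.run s' v' ∈ ctls U := fun s' v' h =>
      Or.inr (Or.inr ⟨l, hl, s', TM2.stmts₁_trans hs h, v', rfl⟩)
    cases s with
    | push k f q =>
      simp only [sim, Option.some.injEq] at hL
      subst hL
      rw [List.mem_singleton] at hτ
      subst hτ
      exact key q v (by rw [TM2.stmts₁]; exact Finset.mem_insert_of_mem TM2.stmts₁_self)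
    | peek k f q =>
      simp only [sim, Option.some.injEq] at hL
      subst hL
      obtain ⟨o, _, rfl⟩ := List.mem_map.1 hτ
      exact key q _ (by rw [TM2.stmts₁]; exact Finset.mem_insert_of_mem TM2.stmts₁_self)
    | pop k f q =>
      simp only [sim, Option.some.injEq] at hL
      subst hL
      obtain ⟨o, _, rfl⟩ := List.mem_map.1 hτ
      exact key q _ (by rw [TM2.stmts₁]; exact Finset.mem_insert_of_mem TM2.stmts₁_self)
    | load a q =>
      simp only [sim, Option.some.injEq] at hL
      subst hL
      rw [List.mem_singleton] at hτ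
      subst hτ
      exact key q _ (by rw [TM2.stmts₁]; exact Finset.mem_insert_of_mem TM2.stmts₁_self)
    | branch f q₁ q₂ =>
      simp only [sim, Option.some.injEq] at hL
      subst hL
      rw [List.mem_singleton] at hτ
      subst hτ
      refine key _ _ ?_
      rw [TM2.stmts₁]
      refine Finset.mem_insert_of_mem ?_
      cases f v
      · exact Finset.mem_union_right _ TM2.stmts₁_self
      · exact Finset.mem_union_left _ TM2.stmts₁_self
    | goto l' =>
      simp only [sim, Option.some.injEq] at hL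
      subst hL
      rw [List.mem_singleton] at hτ
      subst hτ
      have h1 := TM2.stmts₁_supportsStmt_mono hs (hU l hl)
      exact Or.inr (Or.inr ⟨l' v, h1 v, trs (l' v), TM2.stmts₁_self, v, rfl⟩)
    | halt =>
      simp only [sim, Option.some.injEq] at hL
      subst hL
      rw [List.mem_singleton] at hτ
      subst hτ
      exact Or.inr (Or.inl rfl)

/-- numerator of the encoding -/
def num : List Γ' → ℕ
  | [] => 1
  | c :: l => num l + 10 * 5 ^ l.length * Op.dv (dg c)

lemma val_eq (l : List Γ') : val l = num l / (10 * 5 ^ l.length) := by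
  induction l with
  | nil => simp [val, num, x0]
  | cons c l ih =>
    simp only [val, num, List.length_cons, ih]
    push_cast
    field_simp
    ring

lemma num_mod (l : List Γ') : num l % 10 = 1 := by
  induction l with
  | nil => rfl
  | cons c l ih =>
    simp only [num]
    rw [mul_assoc, Nat.add_mul_mod_self_left]
    exact ih

/-- the initial contents of the main stack -/
def inp (n : ℕ) : List Γ' := trList [n]

lemma inp_eq (n : ℕ) : inp n = trNat n ++ [Γ'.cons] := rfl

lemma trNat_bit (b : Bool) (n : ℕ) (h : Nat.bit b n ≠ 0) :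
    trNat (Nat.bit b n) = (if b then Γ'.bit1 else Γ'.bit0) :: trNat n := by
  unfold trNat
  rw [← Num.ofNat'_eq, Num.ofNat'_bit, Num.ofNat'_eq]
  cases b
  · have hn : n ≠ 0 := by
      rintro rfl
      exact h rfl
    simp only [cond_false, Bool.false_eq_true, if_false]
    cases hn' : (n : Num) with
    | zero =>
      exfalso
      apply hn
      have : ((n : Num) : ℕ) = n := Num.to_of_nat n
      rw [hn'] at this
      exact this.symm
    | pos p => rfl
  · simp only [cond_true, if_true]
    cases (n : Num) with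
    | zero => rfl
    | pos p => rfl

lemma inp_succ (n : ℕ) (h : n ≠ 0) :
    inp n = (if n % 2 = 0 then Γ'.bit0 else Γ'.bit1) :: inp (n / 2) := by
  have h1 := trNat_bit (decide (n % 2 = 1)) (n / 2)
  have h2 : Nat.bit (decide (n % 2 = 1)) (n / 2) = n := by
    rw [Nat.bit_val]
    rcases Nat.mod_two_eq_zero_or_one n with h3 | h3
    · simp only [h3]
      simp
      omega
    · simp only [h3]
      simp
      omega
  rw [h2] at h1
  rw [inp_eq, inp_eq, h1 h]
  rcases Nat.mod_two_eq_zero_or_one n with h3 | h3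
  · simp [h3]
  · simp [h3]

/-- numerator and power of five -/
def numpow (n : ℕ) : ℕ × ℕ := (num (inp n), 5 ^ (inp n).length)

lemma numpow_zero : numpow 0 = (21, 5) := by
  unfold numpow
  rw [inp_eq, trNat_zero]
  simp [num, dg, Op.dv]

lemma numpow_succ (n : ℕ) (h : n ≠ 0) : numpow n =
    ((numpow (n / 2)).1 + 10 * (numpow (n / 2)).2 * (if n % 2 = 0 then 3 else 4),
      5 * (numpow (n / 2)).2) := by
  unfold numpow
  rw [inp_succ n h]
  simp only [num, List.length_cons, Prod.mk.injEq]
  refine ⟨?_, by ring⟩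
  rcases Nat.mod_two_eq_zero_or_one n with h3 | h3
  · simp [h3, dg, Op.dv]
  · simp [h3, dg, Op.dv]

lemma primrec_numpow : Primrec numpow := by
  have hg : Primrec₂ (fun (_ : Unit) (L : List (ℕ × ℕ)) =>
      if L.length = 0 then some ((21, 5) : ℕ × ℕ) else
        (L[L.length / 2]?).map fun u =>
          (u.1 + 10 * u.2 * (if L.length % 2 = 0 then 3 else 4), 5 * u.2)) := by
    have hlen : Primrec (fun p : Unit × List (ℕ × ℕ) => p.2.length) :=
      Primrec.list_length.comp Primrec.snd
    refine Primrec.ite (PrimrecRel.comp Primrec.eq hlen (Primrec.const 0)) (Primrec.const _) ?_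
    refine Primrec.option_map ?_ ?_
    · exact Primrec.list_getElem?.comp Primrec.snd
        (Primrec.nat_div.comp hlen (Primrec.const 2))
    · have h1 : Primrec (fun q : (Unit × List (ℕ × ℕ)) × (ℕ × ℕ) => q.2.1) :=
        Primrec.fst.comp Primrec.snd
      have h2 : Primrec (fun q : (Unit × List (ℕ × ℕ)) × (ℕ × ℕ) => q.2.2) :=
        Primrec.snd.comp Primrec.snd
      have h3 : Primrec (fun q : (Unit × List (ℕ × ℕ)) × (ℕ × ℕ) =>
          if q.1.2.length % 2 = 0 then 3 else 4) := by
        refine Primrec.ite (PrimrecRel.comp Primrec.eq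
          (Primrec.nat_mod.comp (hlen.comp Primrec.fst) (Primrec.const 2)) (Primrec.const 0))
          (Primrec.const _) (Primrec.const _)
      exact Primrec.pair (Primrec.nat_add.comp h1 (Primrec.nat_mul.comp
        (Primrec.nat_mul.comp (Primrec.const 10) h2) h3))
        (Primrec.nat_mul.comp (Primrec.const 5) h2)
  have h := Primrec.nat_strong_rec (fun (_ : Unit) n => numpow n) hg (by
    intro _ n
    simp only [List.length_map, List.length_range]
    by_cases hn : n = 0
    · subst hn
      rw [if_pos rfl, numpow_zero]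
    · rw [if_neg hn, numpow_succ n hn]
      have h1 : n / 2 < n := Nat.div_lt_self (Nat.pos_of_ne_zero hn) (by norm_num)
      rw [List.getElem?_map, List.getElem?_range h1]
      rfl)
  exact h.comp (Primrec.const ()) Primrec.id

end Pool.Agent.Lib.MP_1d78e3_lc
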