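import Pool.Agent.Lib.MP_1d78e3_lc.Complete

set_option autoImplicit false
set_option linter.unusedSectionVars false

/-!
# Simulation of the stack machines of Mathlib by affine machines
-/

namespace Pool.Agent.Lib.MP_1d78e3_lc

open Turing Turing.PartrecToTM2

/-- statements of the stack machine -/
abbrev TStmt : Type := TM2.Stmt (fun _ : K' => Γ') Λ' (Option Γ')

/-- configurations of the stack machine -/
abbrev TCfg : Type := TM2.Cfg (fun _ : K' => Γ') Λ' (Option Γ')

/-- the transition function of the stack machine -/
def trs : Λ' → TStmt := tr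

/-- control states of the affine machine -/
inductive Ctl : Type
  | run (s : TStmt) (v : Option Γ') : Ctl
  | clear : Ctl
  | fin : Ctl

/-- index of a stack -/
def kf : K' → Fin 4
  | K'.main => 0
  | K'.rev => 1
  | K'.aux => 2
  | K'.stack => 3

/-- stack of an index -/
def fk : Fin 4 → K'
  | 0 => K'.main
  | 1 => K'.rev
  | 2 => K'.aux
  | 3 => K'.stack

lemma kf_fk (i : Fin 4) : kf (fk i) = i := by
  fin_cases i <;> rfl

lemma fk_kf (k : K') : fk (kf k) = k := by
  cases k <;> rfl

/-- digit of a symbol -/
def dg : Γ' → Fin 4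
  | Γ'.consₗ => 0
  | Γ'.cons => 1
  | Γ'.bit0 => 2
  | Γ'.bit1 => 3

lemma dg_inj : Function.Injective dg := by
  intro a b h
  cases a <;> cases b <;> first | rfl | (exact absurd h (by decide))

/-- index of the top of a stack -/
def tix : Option Γ' → ℕ
  | none => 0
  | some c => Op.dv (dg c)

lemma tix_inj : Function.Injective tix := by
  intro a b h
  cases a with
  | none =>
    cases b with
    | none => rfl
    | some c =>
      exfalso
      have := Op.one_le_dv (dg c)
      simp only [tix] at h
      omega
  | some c =>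
    cases b with
    | none =>
      exfalso
      have := Op.one_le_dv (dg c)
      simp only [tix] at h
      omega
    | some c' =>
      congr 1
      apply dg_inj
      simp only [tix, Op.dv] at h
      exact Fin.ext (by omega)

/-- encoding of a stack -/
def val : List Γ' → ℚ
  | [] => x0
  | c :: l => (val l + Op.dv (dg c)) / 5

lemma val_bounds (l : List Γ') : (tix l.head? : ℚ) / 5 < val l ∧ val l < ((tix l.head? : ℚ) + 1) / 5
    ∧ 0 < val l ∧ val l < 1 := by
  induction l with
  | nil =>
    simp only [val, x0, List.head?_nil, tix]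
    norm_num
  | cons c l ih =>
    obtain ⟨_, _, h3, h4⟩ := ih
    have h5 : (1 : ℚ) ≤ (Op.dv (dg c) : ℚ) := by exact_mod_cast Op.one_le_dv (dg c)
    have h6 : (Op.dv (dg c) : ℚ) ≤ 4 := by exact_mod_cast Op.dv_le (dg c)
    simp only [val, List.head?_cons, tix]
    refine ⟨?_, ?_, ?_, ?_⟩ <;> linarith

lemma top_unique {l : List Γ'} {o : Option Γ'} (h1 : (tix o : ℚ) / 5 ≤ val l)
    (h2 : val l ≤ ((tix o : ℚ) + 1) / 5) : o = l.head? := by
  obtain ⟨h3, h4, _, _⟩ := val_bounds l
  apply tix_inj
  have h5 : (tix o : ℚ) < (tix l.head? : ℚ) + 1 := by linarith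
  have h6 : (tix l.head? : ℚ) < (tix o : ℚ) + 1 := by linarith
  have h7 : tix o < tix l.head? + 1 := by exact_mod_cast h5
  have h8 : tix l.head? < tix o + 1 := by exact_mod_cast h6
  omega

/-- operation removing the top -/
def popOp : Option Γ' → Op
  | none => Op.nop
  | some c => Op.pop (dg c)

lemma act_pop (l : List Γ') : (popOp l.head?).act (val l : ℝ) = (val l.tail : ℝ) := by
  cases l with
  | nil => simp [popOp, Op.act, Op.a, Op.b]
  | cons c l =>
    simp only [popOp, List.head?_cons, Op.act, Op.a, Op.b, val, List.tail_cons]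
    push_cast
    ring

lemma act_push (c : Γ') (l : List Γ') : (Op.push (dg c)).act (val l : ℝ) = (val (c :: l) : ℝ) := by
  simp only [Op.act, Op.a, Op.b, val]
  push_cast
  ring

lemma act_nop (x : ℝ) : Op.nop.act x = x := by
  simp [Op.act, Op.a, Op.b]

/-- operation on one stack -/
def opAt (k : K') (o : Op) (i : Fin 4) : Op := if i = kf k then o else Op.nop

/-- the values of a family of stacks -/
noncomputable def X (S : K' → List Γ') (i : Fin 4) : ℝ := (val (S (fk i)) : ℝ)

lemma X_opAt (S : K' → List Γ') (k : K') (o : Op) (l : List Γ')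
    (h : o.act (val (S k) : ℝ) = (val l : ℝ)) :
    (fun i => (opAt k o i).act (X S i)) = X (Function.update S k l) := by
  funext i
  unfold opAt X
  by_cases hi : i = kf k
  · subst hi
    rw [if_pos rfl, fk_kf, Function.update_self, h]
  · rw [if_neg hi, act_nop, Function.update_of_ne]
    intro h'
    apply hi
    rw [← h', kf_fk]

lemma X_nop (S : K' → List Γ') : (fun i => (Op.nop).act (X S i)) = X S := by
  funext i
  rw [act_nop]

/-- all possible tops -/
def tops : List (Option Γ') := [none, some Γ'.consₗ, some Γ'.cons, some Γ'.bit0, some Γ'.bit1]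

lemma mem_tops (o : Option Γ') : o ∈ tops := by
  cases o with
  | none => simp [tops]
  | some c => cases c <;> simp [tops]

/-- an unconditional transition -/
def jmp (q : Ctl) (op : Fin 4 → Op) : Trans Ctl := ⟨0, 0, 1, q, op⟩

/-- a transition guarded by the top of a stack -/
def grd (k : K') (o : Option Γ') (q : Ctl) (op : Fin 4 → Op) : Trans Ctl :=
  ⟨kf k, (tix o : ℚ) / 5, ((tix o : ℚ) + 1) / 5, q, op⟩

/-- the affine machine -/
def sim : Prog Ctl
  | Ctl.fin => none
  | Ctl.clear => some (tops.map fun o => grd K'.main o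
      (match o with
        | none => Ctl.fin
        | some _ => Ctl.clear) (opAt K'.main (popOp o)))
  | Ctl.run (TM2.Stmt.push k f q) v => some [jmp (Ctl.run q v) (opAt k (Op.push (dg (f v))))]
  | Ctl.run (TM2.Stmt.peek k f q) v =>
      some (tops.map fun o => grd k o (Ctl.run q (f v o)) (fun _ => Op.nop))
  | Ctl.run (TM2.Stmt.pop k f q) v =>
      some (tops.map fun o => grd k o (Ctl.run q (f v o)) (opAt k (popOp o)))
  | Ctl.run (TM2.Stmt.load a q) v => some [jmp (Ctl.run q (a v)) (fun _ => Op.nop)]
  | Ctl.run (TM2.Stmt.branch f q₁ q₂) v =>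
      some [jmp (Ctl.run (cond (f v) q₁ q₂) v) (fun _ => Op.nop)]
  | Ctl.run (TM2.Stmt.goto l) v => some [jmp (Ctl.run (trs (l v)) v) (fun _ => Op.nop)]
  | Ctl.run TM2.Stmt.halt _ => some [jmp Ctl.clear (fun _ => Op.nop)]

lemma grd_top {k : K'} {o : Option Γ'} {S : K' → List Γ'}
    (h1 : (((tix o : ℚ) / 5 : ℚ) : ℝ) ≤ X S (kf k))
    (h2 : X S (kf k) ≤ ((((tix o : ℚ) + 1) / 5 : ℚ) : ℝ)) : o = (S k).head? := by
  unfold X at h1 h2
  rw [fk_kf] at h1 h2
  exact top_unique (by exact_mod_cast h1) (by exact_mod_cast h2)

open StateTransition in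
/-- a halting run of the affine machine gives a halting computation -/
theorem dom_of_halts (c : Ctl) (x : Fin 4 → ℝ) (h : Halts sim c x) :
    ∀ s v S, c = Ctl.run s v → x = X S → (eval (TM2.step trs) (TM2.stepAux s v S)).Dom := by
  induction h with
  | halt q x hq =>
    rintro s v S rfl rfl
    cases s <;> simp [sim] at hq
  | step q x l τ hq hτ h1 h2 _ ih =>
    rintro s v S rfl rfl
    cases s with
    | push k f q =>
      simp only [sim, Option.some.injEq] at hq
      subst hq
      rw [List.mem_singleton] at hτ
      subst hτ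
      exact ih q v (Function.update S k (f v :: S k)) rfl (X_opAt S k _ _ (act_push _ _))
    | peek k f q =>
      simp only [sim, Option.some.injEq] at hq
      subst hq
      obtain ⟨o, _, rfl⟩ := List.mem_map.1 hτ
      have ho := grd_top h1 h2
      subst ho
      exact ih q _ S rfl (X_nop S)
    | pop k f q =>
      simp only [sim, Option.some.injEq] at hq
      subst hq
      obtain ⟨o, _, rfl⟩ := List.mem_map.1 hτ
      have ho := grd_top h1 h2
      subst ho
      exact ih q _ (Function.update S k (S k).tail) rfl (X_opAt S k _ _ (act_pop _))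
    | load a q =>
      simp only [sim, Option.some.injEq] at hq
      subst hq
      rw [List.mem_singleton] at hτ
      subst hτ
      exact ih q _ S rfl (X_nop S)
    | branch f q₁ q₂ =>
      simp only [sim, Option.some.injEq] at hq
      subst hq
      rw [List.mem_singleton] at hτ
      subst hτ
      have := ih _ v S rfl (X_nop S)
      rw [TM2.stepAux]
      cases hf : f v
      · rw [hf] at this
        exact this
      · rw [hf] at this
        exact this
    | goto l =>
      simp only [sim, Option.some.injEq] at hq
      subst hq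
      rw [List.mem_singleton] at hτ
      subst hτ
      have := ih _ v S rfl (X_nop S)
      have hr : Reaches (TM2.step trs) (⟨some (l v), v, S⟩ : TCfg)
          (TM2.stepAux (trs (l v)) v S) := Relation.ReflTransGen.single rfl
      rw [TM2.stepAux, reaches_eval hr]
      exact this
    | halt =>
      rw [TM2.stepAux, Part.dom_iff_mem]
      exact ⟨⟨none, v, S⟩, mem_eval.2 ⟨Relation.ReflTransGen.refl, rfl⟩⟩

lemma X_bounds (S : K' → List Γ') (i : Fin 4) : 0 < X S i ∧ X S i < 1 := by
  obtain ⟨_, _, h3, h4⟩ := val_bounds (S (fk i))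
  unfold X
  exact ⟨by exact_mod_cast h3, by exact_mod_cast h4⟩

lemma good_jmp {q q' : Ctl} {S S' : K' → List Γ'} {op : Fin 4 → Op}
    (hs : sim q = some [jmp q' op]) (hop : (fun i => (op i).act (X S i)) = X S')
    (h : GoodRun sim q' (X S')) : GoodRun sim q (X S) := by
  obtain ⟨h0, h1⟩ := X_bounds S 0
  refine GoodRun.step q (X S) _ (jmp q' op) hs (by simp) ?_ ?_ (X_bounds S) ?_
  · change ((0 : ℚ) : ℝ) ≤ X S 0
    push_cast
    exact h0.le
  · change X S 0 ≤ ((1 : ℚ) : ℝ)
    push_cast
    exact h1.le
  · change GoodRun sim q' (fun i => (op i).act (X S i))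
    rw [hop]
    exact h

lemma good_grd {q : Ctl} {S S' : K' → List Γ'} {k : K'} {q' : Option Γ' → Ctl}
    {op : Option Γ' → Fin 4 → Op}
    (hs : sim q = some (tops.map fun o => grd k o (q' o) (op o)))
    (hop : (fun i => (op (S k).head? i).act (X S i)) = X S')
    (h : GoodRun sim (q' (S k).head?) (X S')) : GoodRun sim q (X S) := by
  obtain ⟨h1, h2, _, _⟩ := val_bounds (S k)
  refine GoodRun.step q (X S) _ (grd k (S k).head? (q' (S k).head?) (op (S k).head?)) hs
    (List.mem_map.2 ⟨_, mem_tops _, rfl⟩) ?_ ?_ (X_bounds S) ?_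
  · change (((tix (S k).head? : ℚ) / 5 : ℚ) : ℝ) ≤ X S (kf k)
    unfold X
    rw [fk_kf]
    exact_mod_cast h1.le
  · change X S (kf k) ≤ ((((tix (S k).head? : ℚ) + 1) / 5 : ℚ) : ℝ)
    unfold X
    rw [fk_kf]
    exact_mod_cast h2.le
  · change GoodRun sim (q' (S k).head?) (fun i => (op (S k).head? i).act (X S i))
    rw [hop]
    exact h

/-- clearing the main stack -/
lemma good_clear (l : List Γ') : ∀ S : K' → List Γ', S K'.main = l → S K'.rev = [] →
    S K'.aux = [] → S K'.stack = [] → GoodRun sim Ctl.clear (X S) := by
  induction l with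
  | nil =>
    intro S h0 h1 h2 h3
    refine good_grd (k := K'.main) (S' := S) (q' := fun o => match o with
        | none => Ctl.fin
        | some _ => Ctl.clear) (op := fun o => opAt K'.main (popOp o)) rfl ?_ ?_
    · have := X_opAt S K'.main (popOp (S K'.main).head?) (S K'.main).tail (act_pop _)
      rw [this]
      congr 1
      rw [h0]
      funext k
      by_cases hk : k = K'.main
      · subst hk
        rw [Function.update_self, h0]
        rfl
      · rw [Function.update_of_ne hk]
    · rw [h0]
      have hX : X S = fun _ => (x0 : ℝ) := by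
        funext i
        unfold X
        have : S (fk i) = [] := by
          cases h : fk i
          · exact h0
          · exact h1
          · exact h2
          · exact h3
        rw [this]
        rfl
      rw [hX]
      exact GoodRun.halt Ctl.fin rfl
  | cons c l ih =>
    intro S h0 h1 h2 h3
    refine good_grd (k := K'.main) (S' := Function.update S K'.main l) (q' := fun o => match o with
        | none => Ctl.fin
        | some _ => Ctl.clear) (op := fun o => opAt K'.main (popOp o)) rfl ?_ ?_
    · have := X_opAt S K'.main (popOp (S K'.main).head?) (S K'.main).tail (act_pop _)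
      rw [this, h0]
      rfl
    · rw [h0]
      refine ih _ ?_ ?_ ?_ ?_
      · rw [Function.update_self]
      · rw [Function.update_of_ne (by decide)]; exact h1
      · rw [Function.update_of_ne (by decide)]; exact h2
      · rw [Function.update_of_ne (by decide)]; exact h3

/-- the run associated with a configuration of the stack machine -/
def CfgRun (c : TCfg) : Prop :=
  match c with
  | ⟨some l, v, S⟩ => GoodRun sim (Ctl.run (trs l) v) (X S)
  | ⟨none, _, S⟩ => GoodRun sim Ctl.clear (X S)

lemma good_of_stepAux (s : TStmt) : ∀ v S, CfgRun (TM2.stepAux s v S) →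
    GoodRun sim (Ctl.run s v) (X S) := by
  induction s with
  | push k f q ih =>
    intro v S h
    exact good_jmp rfl (X_opAt S k _ _ (act_push _ _)) (ih _ _ h)
  | peek k f q ih =>
    intro v S h
    exact good_grd (k := k) (q' := fun o => Ctl.run q (f v o)) (op := fun _ _ => Op.nop) rfl
      (X_nop S) (ih _ _ h)
  | pop k f q ih =>
    intro v S h
    exact good_grd (k := k) (q' := fun o => Ctl.run q (f v o)) (op := fun o => opAt k (popOp o)) rfl
      (X_opAt S k _ _ (act_pop _)) (ih _ _ h)
  | load a q ih =>
    intro v S h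
    exact good_jmp rfl (X_nop S) (ih _ _ h)
  | branch f q₁ q₂ ih₁ ih₂ =>
    intro v S h
    refine good_jmp rfl (X_nop S) ?_
    rw [TM2.stepAux] at h
    cases hf : f v
    · rw [hf] at h
      exact ih₂ _ _ h
    · rw [hf] at h
      exact ih₁ _ _ h
  | goto l =>
    intro v S h
    exact good_jmp rfl (X_nop S) h
  | halt =>
    intro v S h
    exact good_jmp rfl (X_nop S) h

open StateTransition in
/-- a halting computation with a proper final configuration gives a run -/
theorem good_of_eval {c : TCfg} {v : Option Γ'} {l : List Γ'}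
    (h : (⟨none, v, K'.elim l [] [] []⟩ : TCfg) ∈ eval (TM2.step trs) c) : CfgRun c := by
  refine evalInduction (C := CfgRun) h fun a ha ih => ?_
  rcases a with ⟨l', v', S⟩
  cases l' with
  | some l' => exact good_of_stepAux _ _ _ (ih _ rfl)
  | none =>
    have h1 := (mem_eval.1 ha).1
    have h2 : (⟨none, v, K'.elim l [] [] []⟩ : TCfg) = ⟨none, v', S⟩ := by
      rcases Relation.ReflTransGen.cases_head h1 with h3 | ⟨b, h3, _⟩
      · exact h3.symm
      · cases h3
    injection h2 with _ _ h3
    subst h3
    exact good_clear l _ rfl rfl rfl rfl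

end Pool.Agent.Lib.MP_1d78e3_lc
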