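import Pool.Agent.Lib.MP_1d78e3_lc.Reach

set_option autoImplicit false
set_option linter.unusedSectionVars false

/-!
# Tree-like Markov chains are well-founded
-/

namespace Pool.Agent.Lib.MP_1d78e3_lc

open Relation

namespace MarkovChain

variable {S : Type} [Fintype S] (M : MarkovChain S)

/-- proper edges -/
def PE (s u : S) : Prop := u ≠ s ∧ M.Edge s u

/-- proper path of length `n` from the root -/
inductive PathN (root : S) : ℕ → S → Prop
  | zero : PathN root 0 root
  | succ (n : ℕ) (s u : S) : PathN root n s → M.PE s u → PathN root (n + 1) u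

lemma pathN_unique {root : S} (h1 : ∀ u, u ≠ root → ¬ M.Edge u root)
    (h2 : ∀ s, s ≠ root → ∃! u, u ≠ s ∧ M.Edge u s) :
    ∀ (n m : ℕ) (s : S), M.PathN root n s → M.PathN root m s → n = m := by
  intro n
  induction n with
  | zero =>
    intro m s hn hm
    cases hn
    cases hm with
    | zero => rfl
    | succ m s u _ h => exact absurd h.2 (h1 s (Ne.symm h.1))
  | succ n ih =>
    intro m s hn hm
    cases hn with
    | succ _ t _ ht hts =>
      have hsr : s ≠ root := by
        rintro rfl
        exact h1 t (Ne.symm hts.1) hts.2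
      cases hm with
      | zero => exact absurd rfl hsr
      | succ m t' _ ht' hts' =>
        have : t = t' := (h2 s hsr).unique ⟨Ne.symm hts.1, hts.2⟩ ⟨Ne.symm hts'.1, hts'.2⟩
        subst this
        rw [ih m t ht ht']

lemma exists_pathN {root s : S} (h : ReflTransGen M.Edge root s) : ∃ n, M.PathN root n s := by
  induction h with
  | refl => exact ⟨0, PathN.zero⟩
  | tail _ hbc ih =>
    obtain ⟨n, hn⟩ := ih
    rename_i b c _
    by_cases hcb : c = b
    · subst hcb
      exact ⟨n, hn⟩
    · exact ⟨n + 1, PathN.succ n _ _ hn ⟨hcb, hbc⟩⟩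

/-- there is a depth function, increasing by one along the proper edges -/
lemma TreeLike.exists_depth (h : M.TreeLike) :
    ∃ d : S → ℕ, ∀ s u, M.PE s u → d u = d s + 1 := by
  classical
  obtain ⟨root, h1, h2, h3, _⟩ := h
  choose d hd using fun s => M.exists_pathN (h3 s)
  exact ⟨d, fun s u hsu => M.pathN_unique h1 h2 _ _ u (hd u) (PathN.succ _ _ _ (hd s) hsu)⟩

lemma TreeLike.wf (h : M.TreeLike) : WellFounded (fun u s => M.PE s u) := by
  obtain ⟨d, hd⟩ := TreeLike.exists_depth M h
  have hlt : ∀ s u, TransGen (fun u s => M.PE s u) u s → d s < d u := by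
    intro s u hus
    induction hus with
    | single h => have := hd _ _ h; omega
    | tail _ h ih => have := hd _ _ h; omega
  have : IsTrans S (TransGen (fun u s => M.PE s u)) := ⟨fun _ _ _ h1 h2 => h1.trans h2⟩
  have : Std.Irrefl (TransGen (fun u s => M.PE s u)) := ⟨fun s hs => lt_irrefl _ (hlt s s hs)⟩
  have hwf := Finite.wellFounded_of_trans_of_irrefl (TransGen (fun u s => M.PE s u))
  exact hwf.mono (fun _ _ h => TransGen.single h)

end MarkovChain

end Pool.Agent.Lib.MP_1d78e3_lc
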